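import Mathlib

/-!
# LibHK51, basic definitions (MP_ebf018_gt, Hausel's abelianization statement)

`Vec r` is `𝔱*` with a basis of the character lattice as coordinates (and also `𝔱`, paired by the
dot product), `Pol r` is `Sym 𝔱* = H_T^*(pt)`.
-/

namespace LibHK51

open MvPolynomial

open scoped Classical

abbrev Vec (r : ℕ) := Fin r → ℚ
abbrev Pol (r : ℕ) := MvPolynomial (Fin r) ℚ

/-- the linear form of a weight `a` -/
noncomputable def lf {r : ℕ} (a : Vec r) : Pol r := ∑ j, C (a j) * X j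

/-- the shift `X_j ↦ X_j + q_j` -/
noncomputable def sh {r : ℕ} (q : Vec r) : Pol r →ₐ[ℚ] Pol r := aeval (fun j => X j + C (q j))

/-- absolute value of the determinant of `(w i)_{i ∈ B}` (zero if `B` does not have `r` elements) -/
noncomputable def dt {r n : ℕ} (w : Fin n → Vec r) (B : Finset (Fin n)) : ℚ :=
  if h : B.card = r then
    |Matrix.det (Matrix.of (fun j : Fin r => w (B.orderEmbOfFin h j)))| else 0

/-- the point `p` with `w i · p + s i = 0` for all `i ∈ B` -/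
noncomputable def pt {r n : ℕ} (w : Fin n → Vec r) (s : Fin n → ℚ) (B : Finset (Fin n)) : Vec r :=
  if h : ∃ p : Vec r, ∀ i ∈ B, w i ⬝ᵥ p + s i = 0 then h.choose else 0

/-- `ξ` lies in the open cone over `(w i)_{i ∈ B}` -/
def Fe {r n : ℕ} (w : Fin n → Vec r) (ξ : Vec r) (B : Finset (Fin n)) : Prop :=
  ∃ c : Fin n → ℚ, (∀ i ∈ B, 0 < c i) ∧ ∑ i ∈ B, c i • w i = ξ

/-- the explicit fixed point sum of the toric variety `(⊕_{i ∈ S} ℂ_{w i}) // T` (chamber of `ξ`,
equivariant parameters `s`) -/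
noncomputable def Jsum {r n : ℕ} (w : Fin n → Vec r) (s : Fin n → ℚ) (ξ : Vec r)
    (S : Finset (Fin n)) (Z : Pol r) : ℚ :=
  ∑ B ∈ S.powerset.filter (fun B => dt w B ≠ 0 ∧ Fe w ξ B),
    eval (pt w s B) Z / (dt w B * ∏ i ∈ S \ B, (w i ⬝ᵥ pt w s B + s i))

/-- `s` is generic for `(w i)_{i ∈ S}` -/
def Gen {r n : ℕ} (w : Fin n → Vec r) (s : Fin n → ℚ) (S : Finset (Fin n)) : Prop :=
  ∀ B ⊆ S, dt w B ≠ 0 → ∀ i ∈ S \ B, w i ⬝ᵥ pt w s B + s i ≠ 0

/-- a chosen generic parameter -/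
noncomputable def gs {r n : ℕ} (w : Fin n → Vec r) (S : Finset (Fin n)) : Fin n → ℚ :=
  if h : ∃ s, Gen w s S then h.choose else 0

/-- the integral over the toric variety `(⊕_{i ∈ S} ℂ_{w i}) // T` of the class of `z`: the fixed
point sum of the component of degree `|S| - r` of `z` at a generic parameter (its value does not
depend on the generic parameter when the `w i` lie in an open half space) -/
noncomputable def jf {r n : ℕ} (w : Fin n → Vec r) (ξ : Vec r) (S : Finset (Fin n)) (z : Pol r) :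
    ℚ :=
  Jsum w (gs w S) ξ S (homogeneousComponent (S.card - r) z)

/-- `ξ` is generic for the vectors `(w i)_{i ∈ S}` -/
def GX {r n : ℕ} (w : Fin n → Vec r) (ξ : Vec r) (S : Finset (Fin n)) : Prop :=
  ∀ T ⊆ S, ξ ∈ Submodule.span ℚ (w '' T) → Submodule.span ℚ (w '' T) = ⊤

/-- the vectors `(w i)_{i ∈ S}` lie in an open half space -/
def Pnt {r n : ℕ} (w : Fin n → Vec r) (S : Finset (Fin n)) : Prop :=
  ∃ l : Vec r, ∀ i ∈ S, 0 < w i ⬝ᵥ l

/-- `q` is a zero of the affine forms `w i · x + k i`, `i ∈ Sk w k S q` -/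
noncomputable def Sk {r n : ℕ} (w : Fin n → Vec r) (k : Fin n → ℚ) (S : Finset (Fin n))
    (q : Vec r) : Finset (Fin n) :=
  S.filter (fun i => w i ⬝ᵥ q + k i = 0)

/-- truncated inverse of `c + lf a` -/
noncomputable def ti {r : ℕ} (M : ℕ) (c : ℚ) (a : Vec r) : Pol r :=
  ∑ m ∈ Finset.range (M + 1), C (c⁻¹ ^ (m + 1)) * (- lf a) ^ m

/-- the ideal generated by the products `∏_{a_i · η ≠ 0} a_i`, `η ≠ 0` -/
noncomputable def I0 {r n : ℕ} (al : Fin n → Vec r) (S : Finset (Fin n)) : Ideal (Pol r) :=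
  Ideal.span {f | ∃ η : Vec r, η ≠ 0 ∧ f = ∏ i ∈ S.filter (fun i => al i ⬝ᵥ η ≠ 0), lf (al i)}

/-- a vector with integer coordinates -/
def IsInt {r : ℕ} (v : Vec r) : Prop := ∀ j, ∃ k : ℤ, v j = k

end LibHK51
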