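import Pool.Agent.LibHK51.Rings

/-!
# LibHK51: the ring `H(T^*A////T)^W / Ann`, and the Kirwan maps of `T^*A////T`
-/

namespace LibHK51

open MvPolynomial

open scoped Classical

variable {W : Type} [Group W] [Fintype W] {r n : ℕ} (D : Datum W r n)

/-- `(Sym 𝔱*)^W = H_G(pt)` -/
def Inv : Type := D.inv

noncomputable instance instInvRing : CommRing (Inv D) := (inferInstance : CommRing D.inv)

noncomputable instance instInvAlg : Algebra ℚ (Inv D) := (inferInstance : Algebra ℚ D.inv)

/-- the inclusion of the invariants -/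
noncomputable def Inv.val : Inv D →ₐ[ℚ] Pol r := D.inv.val

/-- the invariants of the stabiliser of `q` in `Sym 𝔱*` -/
def InvQ (q : Vec r) : Type := D.invq q

noncomputable instance instInvQRing (q : Vec r) : CommRing (InvQ D q) :=
  (inferInstance : CommRing (D.invq q))

noncomputable instance instInvQAlg (q : Vec r) : Algebra ℚ (InvQ D q) :=
  (inferInstance : Algebra ℚ (D.invq q))

/-- the inclusion of the invariants of the stabiliser -/
noncomputable def InvQ.val (q : Vec r) : InvQ D q →ₐ[ℚ] Pol r := (D.invq q).val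

/-- the cohomology ring of the hypertoric variety `T^*A////T` (Konno, Hausel-Sturmfels) -/
def Coh : Type := Pol r ⧸ D.I

noncomputable instance instCohRing : CommRing (Coh D) := (inferInstance : CommRing (Pol r ⧸ D.I))

/-- the Kirwan map of `T^*A////T` -/
noncomputable def cl : Pol r →+* Coh D := Ideal.Quotient.mk D.I

/-- the action of the Weyl group on `H(T^*A////T)` -/
noncomputable def actC (g : W) : Coh D →+* Coh D :=
  Ideal.quotientMap D.I (D.act g).toRingHom (D.I_act g)

/-- `H(T^*A////T)^W` -/
noncomputable def CohW : Subring (Coh D) := ⨅ g : W, (actC D g).eqLocus (RingHom.id (Coh D))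

theorem mem_CohW (x : Coh D) : x ∈ CohW D ↔ ∀ g, actC D g x = x := by
  rw [CohW, Subring.mem_iInf]
  rfl

/-- `H(T^*A////T)^W` as a type -/
def CW : Type := CohW D

noncomputable instance instCWRing : CommRing (CW D) := (inferInstance : CommRing (CohW D))

theorem cl_mem (f : Inv D) : ((cl D).comp (Inv.val D).toRingHom) f ∈ CohW D := by
  rw [mem_CohW]
  intro g
  change D.actR g (Ideal.Quotient.mk D.I (f : D.inv).1) = _
  rw [D.actR_mk, (D.mem_inv _).mp (f : D.inv).2 g]
  rfl

/-- the Kirwan map of `T^*A////T` on the invariants -/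
noncomputable def kW : Inv D →+* CW D :=
  RingHom.codRestrict ((cl D).comp (Inv.val D).toRingHom) (CohW D) (cl_mem D)

/-- the product of the roots, an invariant polynomial -/
noncomputable def etI : Inv D := (⟨D.et, D.et_mem⟩ : D.inv)

/-- the class of the product of the roots in `H(T^*A////T)^W` -/
noncomputable def eW : CW D := kW D (etI D)

/-- the annihilator of the class of the product of the roots in `H(T^*A////T)^W` -/
noncomputable def AnnW : Ideal (CW D) := Submodule.annihilator (Ideal.span {eW D})

/-- the ring `H(T^*A////T)^W / Ann` -/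
def HT : Type := CW D ⧸ AnnW D

noncomputable instance instHTRing : CommRing (HT D) :=
  (inferInstance : CommRing (CW D ⧸ AnnW D))

/-- the Kirwan map onto `H(T^*A////T)^W / Ann` -/
noncomputable def kTA : Inv D →+* HT D := (Ideal.Quotient.mk (AnnW D)).comp (kW D)

/-- the inclusion of `H(T^*A////T)^W` -/
noncomputable def CW.val : CW D →+* Coh D := (CohW D).subtype

theorem CW.val_inj {x y : CW D} (h : CW.val D x = CW.val D y) : x = y :=
  Subtype.coe_injective h

theorem CW.val_kW (f : Inv D) : CW.val D (kW D f) = cl D (Inv.val D f) := rfl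

theorem CW.val_fix (x : CW D) (g : W) : actC D g (CW.val D x) = CW.val D x :=
  (mem_CohW D _).mp (Subtype.property (p := fun y => y ∈ CohW D) x) g

theorem kTA_surj : Function.Surjective (kTA D) := by
  intro y
  obtain ⟨x, rfl⟩ := Ideal.Quotient.mk_surjective y
  obtain ⟨f, hf⟩ := D.kT_surj ⟨CW.val D x, fun g => CW.val_fix D x g⟩
  refine ⟨f, ?_⟩
  have h1 : kW D (f : Inv D) = x := by
    apply CW.val_inj
    have h2 : (D.kT f).1 = CW.val D x := by rw [hf]
    exact h2
  change Ideal.Quotient.mk (AnnW D) (kW D (f : Inv D)) = _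
  rw [h1]

theorem kTA_eq_zero (f : Inv D) : kTA D f = 0 ↔
    Inv.val D f * D.et ∈ I0 D.al Finset.univ := by
  have h0 : kTA D f = 0 ↔ kW D f ∈ AnnW D := Ideal.Quotient.eq_zero_iff_mem
  rw [h0, AnnW]
  have h1 : kW D f ∈ Submodule.annihilator (Ideal.span {eW D}) ↔
      kW D f • eW D = 0 := Submodule.mem_annihilator_span_singleton _ _
  rw [h1, smul_eq_mul]
  have h2 : kW D f * eW D = 0 ↔ CW.val D (kW D f * eW D) = 0 := by
    constructor
    · intro h
      rw [h, map_zero]
    · intro h
      apply CW.val_inj
      rw [h, map_zero]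
  rw [h2, map_mul, eW, CW.val_kW, CW.val_kW, ← map_mul]
  have h3 : cl D (Inv.val D f * Inv.val D (etI D)) = 0 ↔
      Inv.val D f * Inv.val D (etI D) ∈ D.I := Ideal.Quotient.eq_zero_iff_mem
  rw [h3]
  rfl

end LibHK51
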