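import Pool.Agent.LibHK51.Grad
import Pool.Agent.LibHK51.Rings2

/-!
# LibHK51: localisation data of `T^*A////G`, in named pieces

`M = T^*A////G` with the circle scaling the fibres of `T^*A`; `H = H_{U(1)}(M)` (even cohomology),
`B q = H(F_q)` where `F_q` is the fixed component belonging to the cocharacter `q`.
-/

namespace LibHK51

open MvPolynomial

open scoped Classical

variable {W : Type} [Group W] [Fintype W] {r n : ℕ}

/-- rings and maps of the localisation data -/
structure LocData (D : Datum W r n) where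
  /-- the ring `H_{U(1)}(M)` -/
  H : Type
  [ringH : CommRing H]
  [algH : Algebra ℚ H]
  /-- the rings `H(F_q)` -/
  B : Vec r → Type
  [ringB : ∀ q, CommRing (B q)]
  [algB : ∀ q, Algebra ℚ (B q)]
  /-- the equivariant parameter -/
  u : H
  /-- the Kirwan map of `M` -/
  kappa : Inv D →ₐ[ℚ] H
  /-- the Kirwan map of `F_q` -/
  kap : ∀ q, InvQ D q →ₐ[ℚ] B q
  /-- the integral over `F_q` -/
  int : ∀ q, B q →ₗ[ℚ] ℚ
  /-- the restriction to `F_q` -/
  res : ∀ q, H →ₐ[ℚ] Polynomial (B q)
  /-- the Euler class of the negative normal bundle of `F_q` -/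
  eu : ∀ q, Polynomial (B q)

attribute [instance] LocData.ringH LocData.algH LocData.ringB LocData.algB

variable {D : Datum W r n} (G : LocData D)

namespace LocData

/-- the value at `u = c` of the restriction of a class to `F_q` -/
noncomputable def resAt (q : Vec r) (c : ℚ) (h : G.H) : G.B q :=
  (G.res q h).eval (algebraMap ℚ (G.B q) c)

/-- the value at `u = c` of the Euler class -/
noncomputable def euAt (q : Vec r) (c : ℚ) : G.B q := (G.eu q).eval (algebraMap ℚ (G.B q) c)

/-- Poincaré duality for `F_q` -/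
def Duality : Prop := ∀ q, D.Feas q → ∀ b, (∀ b', G.int q (b * b') = 0) → b = 0

/-- `H(F_q)` vanishes in high degree -/
def Bounded : Prop := ∀ q, D.Feas q → ∃ N : ℕ, ∀ (f : InvQ D q) (d : ℕ), N ≤ d →
  (InvQ.val D q f).IsHomogeneous d → G.kap q f = 0

/-- restriction of the equivariant parameter -/
def ResU : Prop := ∀ q, D.Feas q → G.res q G.u = Polynomial.X

/-- restriction of tautological classes: a character `a` restricts to `a + (a · q) u` -/
def ResKappa : Prop := ∀ q, D.Feas q → ∀ (c : ℚ) (f : Inv D) (g : InvQ D q),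
  InvQ.val D q g = sh (c • q) (Inv.val D f) → G.resAt q c (G.kappa f) = G.kap q g

/-- `F_q` and `F_{g q}` are the same component -/
def ResW : Prop := ∀ (g : W) (q : Vec r), D.Feas q → ∀ h, G.res q h = 0 →
  G.res (D.tact g q) h = 0

/-- the restriction to the fixed components is injective -/
def Inj : Prop := ∀ h, (∀ q, D.Feas q → G.res q h = 0) → h = 0

/-- the Euler class in terms of the weights of `T^*A` and of `𝔤 ⊕ 𝔤*` -/
def Euler : Prop := ∀ q, D.Feas q → ∀ (c : ℚ) (x y : InvQ D q), InvQ.val D q x = D.Dq q c →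
  InvQ.val D q y = D.Nq q c → G.euAt q c * G.kap q x = G.kap q y

/-- a class which vanishes on the lower strata restricts to a multiple of the Euler class -/
def Divisible : Prop := ∀ q, D.Feas q → ∀ h,
  (∀ p, D.Feas p → D.xi ⬝ᵥ q < D.xi ⬝ᵥ p → G.res p h = 0) → ∃ f, G.res q h = G.eu q * f

/-- equivariant perfection: every multiple of the Euler class is the restriction of a class which
vanishes on the lower strata and on the other components of the same level -/
def Perfect : Prop := ∀ q, D.Feas q → ∀ f, ∃ h, G.res q h = G.eu q * f ∧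
  ∀ p, D.Feas p → D.xi ⬝ᵥ q ≤ D.xi ⬝ᵥ p → (∀ g, p ≠ D.tact g q) → G.res p h = 0

/-- Martin's integration formula for `F_q` -/
def Martin : Prop := ∀ q, D.Feas q → ∀ x : InvQ D q,
  D.Th q q (InvQ.val D q x) = (D.stab q).card * G.int q (G.kap q x)

/-- the abelianised integrals over the cycles over `F_q` (one for every integral cocharacter `m`)
kill the classes which vanish on `F_q` -/
def Cycles : Prop := ∀ q, D.Feas q → ∀ m, IsInt m → ∀ x : InvQ D q, G.kap q x = 0 →
  ∀ y : Pol r, D.Th q m (InvQ.val D q x * y) = 0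

/-- the properties of the localisation data of `T^*A////G` -/
structure Valid : Prop where
  duality : G.Duality
  bounded : G.Bounded
  resU : G.ResU
  resKappa : G.ResKappa
  resW : G.ResW
  inj : G.Inj
  euler : G.Euler
  divisible : G.Divisible
  perfect : G.Perfect
  martin : G.Martin
  cycles : G.Cycles

/-- `H` is graded, `u` has degree `1` and the Kirwan map preserves degrees -/
def Graded (𝒜 : ℕ → Submodule ℚ G.H) : Prop :=
  G.u ∈ 𝒜 1 ∧ ∀ (f : Inv D) (d : ℕ), (Inv.val D f).IsHomogeneous d → G.kappa f ∈ 𝒜 d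

/-- `H(T^*A////G) = H / (u)` -/
def HM : Type := G.H ⧸ Ideal.span {G.u}

noncomputable instance instHMRing : CommRing G.HM :=
  (inferInstance : CommRing (G.H ⧸ Ideal.span {G.u}))

/-- the Kirwan map `(Sym 𝔱*)^W → H(T^*A////G)` -/
noncomputable def kM : Inv D →+* G.HM := (Ideal.Quotient.mk (Ideal.span {G.u})).comp
  G.kappa.toRingHom

/-- the localisation data as a `Geo` -/
noncomputable def toGeo (h : G.Valid) : Geo D G.H G.B where
  u := G.u
  kappa := G.kappa
  kap := G.kap
  int := G.int
  res := G.res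
  eu := G.eu
  int_nd := h.duality
  kap_top := h.bounded
  res_u := h.resU
  res_kappa := h.resKappa
  res_W := h.resW
  inj := h.inj
  eu_eq := h.euler
  ab1 := h.divisible
  ab2 := h.perfect
  int1 := h.martin
  int2 := h.cycles

theorem kM_eq_zero (hG : G.Valid) (hS : (G.toGeo hG).Surj) (f : Inv D) :
    G.kM f = 0 ↔ kTA D f = 0 := by
  have h1 : G.kM f = 0 ↔ (G.toGeo hG).kappa (f : D.inv) ∈ Ideal.span {G.u} :=
    Ideal.Quotient.eq_zero_iff_mem
  rw [h1, kTA_eq_zero]
  exact (G.toGeo hG).ker_iff hS (f : D.inv)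

/-- Kirwan surjectivity for `T^*A////G` is equivalent to the abelianization isomorphism -/
theorem main (hG : G.Valid) (𝒜 : ℕ → Submodule ℚ G.H) [GradedAlgebra 𝒜] (h𝒜 : G.Graded 𝒜) :
    Function.Surjective G.kM ↔ ∃ Φ : G.HM ≃+* HT D, ∀ f, Φ (G.kM f) = kTA D f := by
  constructor
  · intro hs
    have hS : (G.toGeo hG).Surj := by
      apply (G.toGeo hG).surj_of_mod 𝒜 h𝒜.1 h𝒜.2
      intro h
      obtain ⟨f, hf⟩ := hs (Ideal.Quotient.mk _ h)
      exact ⟨f, (Ideal.Quotient.mk_eq_mk_iff_sub_mem _ _).mp hf.symm⟩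
    have hk : RingHom.ker G.kM = RingHom.ker (kTA D) := by
      ext x
      rw [RingHom.mem_ker, RingHom.mem_ker]
      exact G.kM_eq_zero hG hS x
    refine ⟨((RingHom.quotientKerEquivOfSurjective hs).symm.trans
      (Ideal.quotEquivOfEq hk)).trans (RingHom.quotientKerEquivOfSurjective (kTA_surj D)), ?_⟩
    intro f
    have h1 : (RingHom.quotientKerEquivOfSurjective hs).symm (G.kM f) =
        Ideal.Quotient.mk _ f := by
      rw [RingEquiv.symm_apply_eq]
      rfl
    rw [RingEquiv.trans_apply, RingEquiv.trans_apply, h1]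
    rfl
  · rintro ⟨Φ, hΦ⟩ y
    obtain ⟨f, hf⟩ := kTA_surj D (Φ y)
    refine ⟨f, ?_⟩
    apply Φ.injective
    rw [hΦ, hf]

end LocData

end LibHK51
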