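import Pool.Agent.LibHK51.TG

/-! Row THa: local terms, deletion. Uses only the statements of TC, TE, TG.

`LT_del`: put `Q = Sk w k S q`.
* `i ∈ Q`, i.e. `w i ⬝ᵥ q + k i = 0`: `sh (c • q) (lf (w i) + C (c * k i)) = lf (w i) +
  C (c * (w i ⬝ᵥ q + k i)) = lf (w i)`, use `jf_del` (the subsets `Q ⊆ S` inherit `Pnt`, `GX`);
  `Sk w k (S.erase i) q = Q.erase i`, `S \ Q = (S.erase i) \ (Q.erase i)`.
* `i ∉ Q`: `e = c * (w i ⬝ᵥ q + k i) ≠ 0`, `(lf (w i) + C e) * ti M e (w i) = 1 -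
  C (e⁻¹ ^ (M+1)) * (- lf (w i)) ^ (M+1)` (`ti_mul`), the second summand is killed by `jf_high`
  (`Q.card ≤ n ≤ M < M + 1 + r`); `Sk w k (S.erase i) q = Q`, `S \ Q = insert i ((S.erase i) \ Q)`. -/

namespace LibHK51

open MvPolynomial

open scoped Classical

variable {r n : ℕ}

theorem sh_lf (q a : Vec r) : sh q (lf a) = lf a + C (a ⬝ᵥ q) := by
  unfold sh lf
  rw [map_sum, dotProduct, map_sum, ← Finset.sum_add_distrib]
  refine Finset.sum_congr rfl fun j _ => ?_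
  rw [map_mul, aeval_X, aeval_C, MvPolynomial.algebraMap_eq, mul_add, ← C_mul]

theorem ti_mul (M : ℕ) {e : ℚ} (he : e ≠ 0) (a : Vec r) :
    (lf a + C e) * ti M e a = 1 - C (e⁻¹ ^ (M + 1)) * (- lf a) ^ (M + 1) := by
  unfold ti
  have hee : (C e : Pol r) * C e⁻¹ = 1 := by
    rw [← C_mul, mul_inv_cancel₀ he, C_1]
  induction M with
  | zero =>
    rw [Finset.sum_range_one]
    simp only [zero_add, pow_one, pow_zero, mul_one]
    linear_combination hee
  | succ M ih =>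
    rw [Finset.sum_range_succ, mul_add, ih]
    simp only [C_pow] at *
    have h : (C e : Pol r) * (C e⁻¹) ^ (M + 1 + 1) = (C e⁻¹) ^ (M + 1) := by
      rw [pow_succ' (C e⁻¹ : Pol r) (M + 1), ← mul_assoc, hee, one_mul]
    linear_combination (- lf a) ^ (M + 1) * h

/-- the contribution of the component of `q` with parameters `c * k` -/
noncomputable def LT (w : Fin n → Vec r) (k : Fin n → ℚ) (ξ : Vec r) (S : Finset (Fin n)) (M : ℕ)
    (c : ℚ) (q : Vec r) (Z : Pol r) : ℚ :=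
  jf w ξ (Sk w k S q) (sh (c • q) Z *
    ∏ i ∈ S \ Sk w k S q, ti M (c * (w i ⬝ᵥ q + k i)) (w i))

theorem LT_add (w : Fin n → Vec r) (k : Fin n → ℚ) (ξ : Vec r) (S : Finset (Fin n)) (M : ℕ)
    (c : ℚ) (q : Vec r) (Y Z : Pol r) :
    LT w k ξ S M c q (Y + Z) = LT w k ξ S M c q Y + LT w k ξ S M c q Z := by
  unfold LT
  rw [map_add, add_mul, jf_add]

theorem LT_smul (w : Fin n → Vec r) (k : Fin n → ℚ) (ξ : Vec r) (S : Finset (Fin n)) (M : ℕ)
    (c : ℚ) (q : Vec r) (e : ℚ) (Z : Pol r) :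
    LT w k ξ S M c q (C e * Z) = e * LT w k ξ S M c q Z := by
  unfold LT
  have h : sh (c • q) (C e : Pol r) = C e := by
    unfold sh
    rw [aeval_C, MvPolynomial.algebraMap_eq]
  rw [map_mul, h, mul_assoc, jf_smul]

theorem LT_sum {ι : Type*} (w : Fin n → Vec r) (k : Fin n → ℚ) (ξ : Vec r) (S : Finset (Fin n))
    (M : ℕ) (c : ℚ) (q : Vec r) (I : Finset ι) (Z : ι → Pol r) :
    LT w k ξ S M c q (∑ i ∈ I, Z i) = ∑ i ∈ I, LT w k ξ S M c q (Z i) := by
  unfold LT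
  rw [map_sum, Finset.sum_mul, jf_sum]

/-- if no feasible basis lies in `Sk w k S q` the term vanishes -/
theorem LT_eq_zero {w : Fin n → Vec r} {k : Fin n → ℚ} {ξ : Vec r} {S : Finset (Fin n)} (M : ℕ)
    (c : ℚ) {q : Vec r} (h : ∀ B ⊆ Sk w k S q, dt w B ≠ 0 → ¬ Fe w ξ B) (Z : Pol r) :
    LT w k ξ S M c q Z = 0 := by
  unfold LT
  exact jf_eq_zero h _

theorem LT_del {w : Fin n → Vec r} {k : Fin n → ℚ} {ξ : Vec r} {S : Finset (Fin n)}
    (hP : Pnt w S) (hX : GX w ξ S) {M : ℕ} (hM : n ≤ M) {c : ℚ} (hc : c ≠ 0) (q : Vec r)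
    {i : Fin n} (hi : i ∈ S) (Z : Pol r) :
    LT w k ξ S M c q (Z * (lf (w i) + C (c * k i))) = LT w k ξ (S.erase i) M c q Z := by
  have hC : ∀ e : ℚ, sh (c • q) (C e : Pol r) = C e := by
    intro e
    unfold sh
    rw [aeval_C, MvPolynomial.algebraMap_eq]
  have hsh : sh (c • q) (Z * (lf (w i) + C (c * k i))) =
      sh (c • q) Z * (lf (w i) + C (c * (w i ⬝ᵥ q + k i))) := by
    rw [map_mul, map_add, sh_lf, hC, dotProduct_smul, smul_eq_mul, mul_add c, C_add]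
    ring
  have hQS : Sk w k S q ⊆ S := Finset.filter_subset _ _
  by_cases hiQ : w i ⬝ᵥ q + k i = 0
  · have hiQ' : i ∈ Sk w k S q := Finset.mem_filter.2 ⟨hi, hiQ⟩
    have h1 : Sk w k (S.erase i) q = (Sk w k S q).erase i := by
      ext j
      simp only [Sk, Finset.mem_filter, Finset.mem_erase]
      tauto
    have h2 : S.erase i \ (Sk w k S q).erase i = S \ Sk w k S q := by
      ext j
      simp only [Finset.mem_sdiff, Finset.mem_erase]
      constructor
      · rintro ⟨⟨hj, hjS⟩, hn⟩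
        exact ⟨hjS, fun h => hn ⟨hj, h⟩⟩
      · rintro ⟨hjS, hn⟩
        exact ⟨⟨fun h => hn (h ▸ hiQ'), hjS⟩, fun h => hn h.2⟩
    unfold LT
    rw [hsh, h1, h2, hiQ, mul_zero, C_0, add_zero, mul_right_comm,
      jf_del (hP.mono hQS) (hX.mono hQS) hiQ']
  · have hiQ' : i ∉ Sk w k S q := fun h => hiQ (Finset.mem_filter.1 h).2
    have he : c * (w i ⬝ᵥ q + k i) ≠ 0 := mul_ne_zero hc hiQ
    have h1 : Sk w k (S.erase i) q = Sk w k S q := by
      ext j
      simp only [Sk, Finset.mem_filter, Finset.mem_erase]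
      constructor
      · rintro ⟨⟨_, hjS⟩, h⟩
        exact ⟨hjS, h⟩
      · rintro ⟨hjS, h⟩
        exact ⟨⟨fun hji => hiQ (hji ▸ h), hjS⟩, h⟩
    have h2 : S \ Sk w k S q = insert i (S.erase i \ Sk w k S q) := by
      ext j
      simp only [Finset.mem_sdiff, Finset.mem_erase, Finset.mem_insert]
      constructor
      · rintro ⟨hjS, hn⟩
        by_cases hji : j = i
        · exact Or.inl hji
        · exact Or.inr ⟨⟨hji, hjS⟩, hn⟩
      · rintro (hji | ⟨⟨_, hjS⟩, hn⟩)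
        · rw [hji]
          exact ⟨hi, hiQ'⟩
        · exact ⟨hjS, hn⟩
    have h3 : i ∉ S.erase i \ Sk w k S q := by
      simp
    unfold LT
    rw [hsh, h1, h2, Finset.prod_insert h3]
    generalize hP' : ∏ j ∈ S.erase i \ Sk w k S q, ti M (c * (w j ⬝ᵥ q + k j)) (w j) = P'
    have h4 : sh (c • q) Z * (lf (w i) + C (c * (w i ⬝ᵥ q + k i))) *
        (ti M (c * (w i ⬝ᵥ q + k i)) (w i) * P') =
        sh (c • q) Z * P' + -((sh (c • q) Z * P' *
          C ((c * (w i ⬝ᵥ q + k i))⁻¹ ^ (M + 1))) * (- lf (w i)) ^ (M + 1)) := by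
      have h5 := ti_mul M he (w i)
      linear_combination (sh (c • q) Z * P') * h5
    have h6 : ((- lf (w i)) ^ (M + 1)).IsHomogeneous (M + 1) := by
      have := (lf_hom (w i)).neg.pow (M + 1)
      rwa [one_mul] at this
    have h7 : (Sk w k S q).card < M + 1 + r := by
      have := Finset.card_le_univ (Sk w k S q)
      rw [Fintype.card_fin] at this
      omega
    rw [h4, jf_add, jf_neg, jf_high w ξ h6 h7, neg_zero, add_zero]

end LibHK51
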