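import Pool.Agent.LibHK51.Geo
import Pool.Agent.LibHK51.THa

/-! Row GA: the actions of `W`. Uses only the statements of TE, THa (`lf_*`, `sh_lf`).

`D.act g (lf a) = lf (M g a)`: `act g (X j) = lf (column j)`, `M g a = ∑ a j • column j`.
Everything else by `MvPolynomial.algHom_ext` or on generators `X j = lf e_j`. -/

namespace LibHK51

open MvPolynomial

open scoped Classical

variable {W : Type} [Group W] [Fintype W] {r n : ℕ} (D : Datum W r n)

private theorem GA_single (j : Fin r) : lf (Pi.single j (1 : ℚ)) = (X j : Pol r) := by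
  unfold lf
  rw [Finset.sum_eq_single j]
  · rw [Pi.single_eq_same, map_one, one_mul]
  · intro i _ hi
    rw [Pi.single_eq_of_ne hi, map_zero, zero_mul]
  · intro h
    exact absurd (Finset.mem_univ j) h

private theorem GA_col (A : Matrix (Fin r) (Fin r) ℚ) (j : Fin r) :
    (fun i => A i j) = A.mulVec (Pi.single j (1 : ℚ)) := by
  funext i
  rw [Matrix.mulVec_single_one]
  rfl

private theorem GA_inv (g : W) (a : Vec r) : (D.M g⁻¹).mulVec ((D.M g).mulVec a) = a := by
  rw [Matrix.mulVec_mulVec, ← map_mul, inv_mul_cancel, map_one, Matrix.one_mulVec]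

private theorem GA_inv' (g : W) (a : Vec r) : (D.M g).mulVec ((D.M g⁻¹).mulVec a) = a := by
  rw [Matrix.mulVec_mulVec, ← map_mul, mul_inv_cancel, map_one, Matrix.one_mulVec]

namespace Datum

theorem act_lf (g : W) (a : Vec r) : D.act g (lf a) = lf ((D.M g).mulVec a) := by
  have h1 : (D.M g).mulVec a = ∑ j, a j • (fun i => D.M g i j : Vec r) := by
    funext i
    rw [Finset.sum_apply]
    simp only [Matrix.mulVec, dotProduct, Pi.smul_apply, smul_eq_mul]
    refine Finset.sum_congr rfl (fun j _ => ?_)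
    ring
  rw [h1, lf_sum]
  conv_lhs => unfold lf
  rw [map_sum]
  refine Finset.sum_congr rfl (fun j _ => ?_)
  rw [map_mul, lf_smul]
  have h2 : D.act g (C (a j)) = C (a j) := (D.act g).commutes (a j)
  rw [h2]
  congr 1
  unfold act
  rw [aeval_X]

theorem act_one (f : Pol r) : D.act 1 f = f := by
  have h : D.act 1 = AlgHom.id ℚ (Pol r) := by
    apply MvPolynomial.algHom_ext
    intro j
    rw [← GA_single, act_lf, map_one, Matrix.one_mulVec]
    rfl
  rw [h]
  rfl

theorem act_mul (g h : W) (f : Pol r) : D.act (g * h) f = D.act g (D.act h f) := by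
  have h1 : D.act (g * h) = (D.act g).comp (D.act h) := by
    apply MvPolynomial.algHom_ext
    intro j
    rw [AlgHom.comp_apply, ← GA_single, act_lf, act_lf, act_lf, Matrix.mulVec_mulVec, map_mul]
  rw [h1]
  rfl

theorem act_C (g : W) (c : ℚ) : D.act g (C c) = C c := (D.act g).commutes c

theorem tact_one (q : Vec r) : D.tact 1 q = q := by
  unfold tact
  rw [inv_one, map_one, Matrix.vecMul_one]

theorem tact_mul (g h : W) (q : Vec r) : D.tact (g * h) q = D.tact g (D.tact h q) := by
  unfold tact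
  rw [mul_inv_rev, map_mul, Matrix.vecMul_vecMul]

theorem tact_smul (g : W) (c : ℚ) (q : Vec r) : D.tact g (c • q) = c • D.tact g q := by
  unfold tact
  rw [Matrix.smul_vecMul]

/-- the pairing is invariant -/
theorem pair (g : W) (a q : Vec r) : (D.M g).mulVec a ⬝ᵥ D.tact g q = a ⬝ᵥ q := by
  unfold tact
  rw [dotProduct_comm, Matrix.dotProduct_mulVec, Matrix.vecMul_vecMul, ← map_mul, inv_mul_cancel,
    map_one, Matrix.vecMul_one, dotProduct_comm]

theorem xi_tact (g : W) (q : Vec r) : D.xi ⬝ᵥ D.tact g q = D.xi ⬝ᵥ q := by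
  have h := D.pair g D.xi q
  rw [D.xi_fix g] at h
  exact h

theorem M_inj (g : W) {a b : Vec r} (h : (D.M g).mulVec a = (D.M g).mulVec b) : a = b := by
  rw [← GA_inv D g a, h, GA_inv]

/-- the roots are permuted -/
theorem prod_roots (g : W) (φ : Vec r → Prop) (F : Vec r → Pol r) :
    ∏ a ∈ D.roots.filter (fun a => φ a), F ((D.M g).mulVec a) =
      ∏ a ∈ D.roots.filter (fun a => φ ((D.M g⁻¹).mulVec a)), F a := by
  refine Finset.prod_nbij' (fun a => (D.M g).mulVec a) (fun a => (D.M g⁻¹).mulVec a) ?_ ?_ ?_ ?_ ?_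
  · intro a ha
    rw [Finset.mem_filter] at ha
    rw [Finset.mem_filter, GA_inv]
    exact ⟨D.roots_perm g a ha.1, ha.2⟩
  · intro a ha
    rw [Finset.mem_filter] at ha
    rw [Finset.mem_filter]
    exact ⟨D.roots_perm g⁻¹ a ha.1, ha.2⟩
  · intro a _
    exact GA_inv D g a
  · intro a _
    exact GA_inv' D g a
  · intro a _
    rfl

theorem act_sh (g : W) (q : Vec r) (f : Pol r) :
    D.act g (sh q f) = sh (D.tact g q) (D.act g f) := by
  have h : (D.act g).comp (sh q) = (sh (D.tact g q)).comp (D.act g) := by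
    apply MvPolynomial.algHom_ext
    intro j
    rw [AlgHom.comp_apply, AlgHom.comp_apply, ← GA_single, sh_lf, map_add, act_C, act_lf, sh_lf,
      pair]
  exact AlgHom.congr_fun h f

private theorem GA_homog (g : W) {f : Pol r} {d : ℕ} (hf : f.IsHomogeneous d) :
    (D.act g f).IsHomogeneous d := by
  have h := hf.aeval (R := ℚ) (fun j => lf (fun i => D.M g i j) : Fin r → Pol r) (n := 1)
    (fun j => lf_hom _)
  rw [one_mul] at h
  exact h

theorem act_hom (g : W) (f : Pol r) (d : ℕ) :
    D.act g (homogeneousComponent d f) = homogeneousComponent d (D.act g f) := by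
  conv_rhs => rw [← sum_homogeneousComponent f]
  rw [map_sum, map_sum]
  have h1 : ∀ i, homogeneousComponent d (D.act g (homogeneousComponent i f)) =
      if d = i then D.act g (homogeneousComponent i f) else 0 := by
    intro i
    rw [homogeneousComponent_of_mem]
    exact GA_homog D g (homogeneousComponent_isHomogeneous i f)
  simp only [h1]
  rw [Finset.sum_ite_eq]
  split_ifs with h
  · rfl
  · rw [homogeneousComponent_eq_zero, map_zero]
    rw [Finset.mem_range] at h
    omega

theorem mem_inv (f : Pol r) : f ∈ D.inv ↔ ∀ g, D.act g f = f := Iff.rfl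

theorem mem_invq (q : Vec r) (f : Pol r) : f ∈ D.invq q ↔ ∀ g, D.tact g q = q → D.act g f = f :=
  Iff.rfl

theorem inv_le (q : Vec r) : D.inv ≤ D.invq q := fun _ hf g _ => hf g

theorem sh_mem (q : Vec r) (c : ℚ) {f : Pol r} (hf : f ∈ D.inv) : sh (c • q) f ∈ D.invq q := by
  intro g hg
  rw [act_sh, tact_smul, hg, hf g]

/-- shifts by a multiple of `q` preserve the invariants of the stabiliser of `q` -/
theorem sh_mem_invq (q : Vec r) (c : ℚ) {f : Pol r} (hf : f ∈ D.invq q) :
    sh (c • q) f ∈ D.invq q := by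
  intro g hg
  rw [act_sh, tact_smul, hg, hf g hg]

theorem et_mem : D.et ∈ D.inv := by
  intro g
  unfold et
  rw [map_prod]
  have h := D.prod_roots g (fun _ => True) lf
  simp only [Finset.filter_true] at h
  rw [← h]
  exact Finset.prod_congr rfl (fun a _ => D.act_lf g a)

/-- averaging -/
theorem avg_ex (q : Vec r) (f : Pol r) : ∃ g ∈ D.invq q,
    C ((D.stab q).card : ℚ) * g = ∑ h ∈ D.stab q, D.act h f := by
  have hmem : ∀ g, g ∈ D.stab q ↔ D.tact g q = q := by
    intro g
    unfold stab
    rw [Finset.mem_filter]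
    exact ⟨fun h => h.2, fun h => ⟨Finset.mem_univ g, h⟩⟩
  have hne : ((D.stab q).card : ℚ) ≠ 0 := by
    have h1 : (1 : W) ∈ D.stab q := (hmem 1).2 (D.tact_one q)
    exact_mod_cast (Finset.card_pos.2 ⟨1, h1⟩).ne'
  refine ⟨C (((D.stab q).card : ℚ)⁻¹) * ∑ h ∈ D.stab q, D.act h f, ?_, ?_⟩
  · rw [mem_invq]
    intro k hk
    rw [map_mul, act_C, map_sum]
    refine congrArg (fun z => C (((D.stab q).card : ℚ)⁻¹) * z) ?_
    refine Finset.sum_nbij' (fun h => k * h) (fun h => k⁻¹ * h) ?_ ?_ ?_ ?_ ?_
    · intro h hh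
      rw [hmem] at hh ⊢
      rw [tact_mul, hh, hk]
    · intro h hh
      rw [hmem] at hh ⊢
      have h1 : D.tact k⁻¹ q = q := by
        conv_lhs => rw [← hk]
        rw [← tact_mul, inv_mul_cancel, tact_one]
      rw [tact_mul, hh, h1]
    · intro h _
      exact inv_mul_cancel_left k h
    · intro h _
      exact mul_inv_cancel_left k h
    · intro h _
      exact (D.act_mul k h f).symm
  · rw [← mul_assoc, ← C_mul, mul_inv_cancel₀ hne, map_one, one_mul]

end Datum

end LibHK51
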