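import Pool.Agent.LibHK51.TL

/-! Row GB: invariance of the Euler factors under the stabiliser. Uses only the statements of TE, THa,
GA, TL.

`D.Nq q c`: `act g` permutes the factors: `act g (lf (al i) + C e) = lf (M g (al i)) + C e`,
`M g (al i) = al (σ i)` and `al (σ i) ⬝ᵥ q = al i ⬝ᵥ q` for `g` in the stabiliser of `q` (`pair`).
The same for `D.Dq`, with `prod_roots`. `TI` is the product of the truncated inverses of the factors
of `Nq`. `NqTI`: `Nq * TI = ∏ (1 - (±)(lf a)^(M+1) C(..))`, so all homogeneous components in degrees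
`1, ..., M` vanish, and the component of degree `0` is `1`. -/

namespace LibHK51

open MvPolynomial

open scoped Classical

variable {W : Type} [Group W] [Fintype W] {r n : ℕ} (D : Datum W r n)

namespace Datum

/-- truncated inverse of `Nq` -/
noncomputable def TI (M : ℕ) (q : Vec r) (c : ℚ) : Pol r :=
  (∏ i ∈ Finset.univ.filter (fun i => D.al i ⬝ᵥ q < 0), ti M (c * (D.al i ⬝ᵥ q)) (D.al i)) *
    ∏ i ∈ Finset.univ.filter (fun i => 1 < D.al i ⬝ᵥ q), ti M (c * (1 - D.al i ⬝ᵥ q)) (- D.al i)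

private theorem GB_pairq {g : W} {q : Vec r} (hg : D.tact g q = q) (a : Vec r) :
    (D.M g).mulVec a ⬝ᵥ q = a ⬝ᵥ q := by
  have h := D.pair g a q
  rwa [hg] at h

private theorem GB_tact_inv {g : W} {q : Vec r} (hg : D.tact g q = q) : D.tact g⁻¹ q = q := by
  have h : D.tact g⁻¹ (D.tact g q) = q := by
    rw [← D.tact_mul, inv_mul_cancel, D.tact_one]
  rwa [hg] at h

private theorem GB_prod {g : W} {q : Vec r} (hg : D.tact g q = q) (φ : ℚ → Prop)
    [DecidablePred φ]
    (F : Vec r → ℚ → Pol r) (hF : ∀ a e, D.act g (F a e) = F ((D.M g).mulVec a) e) :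
    D.act g (∏ i ∈ Finset.univ.filter (fun i => φ (D.al i ⬝ᵥ q)), F (D.al i) (D.al i ⬝ᵥ q)) =
      ∏ i ∈ Finset.univ.filter (fun i => φ (D.al i ⬝ᵥ q)), F (D.al i) (D.al i ⬝ᵥ q) := by
  obtain ⟨σ, hσ⟩ := D.al_perm g
  have hq : ∀ i, D.al (σ i) ⬝ᵥ q = D.al i ⬝ᵥ q := by
    intro i
    rw [← hσ i]
    exact GB_pairq D hg _
  rw [map_prod]
  apply Finset.prod_bij (fun i _ => σ i)
  · intro i hi
    simp only [Finset.mem_filter, Finset.mem_univ, true_and] at hi ⊢
    rwa [hq]
  · intro i _ j _ h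
    exact σ.injective h
  · intro j hj
    refine ⟨σ.symm j, ?_, by simp⟩
    simp only [Finset.mem_filter, Finset.mem_univ, true_and] at hj ⊢
    have := hq (σ.symm j)
    rw [Equiv.apply_symm_apply] at this
    rwa [← this]
  · intro i _
    rw [hF, hσ i, hq]

private theorem GB_prodr {g : W} {q : Vec r} (hg : D.tact g q = q) (φ : ℚ → Prop)
    [DecidablePred φ]
    (F : Vec r → ℚ → Pol r) (hF : ∀ a e, D.act g (F a e) = F ((D.M g).mulVec a) e) :
    D.act g (∏ a ∈ D.roots.filter (fun a => φ (a ⬝ᵥ q)), F a (a ⬝ᵥ q)) =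
      ∏ a ∈ D.roots.filter (fun a => φ (a ⬝ᵥ q)), F a (a ⬝ᵥ q) := by
  rw [map_prod]
  have h1 : ∏ a ∈ D.roots.filter (fun a => φ (a ⬝ᵥ q)), D.act g (F a (a ⬝ᵥ q)) =
      ∏ a ∈ D.roots.filter (fun a => φ (a ⬝ᵥ q)),
        (fun b : Vec r => F b (b ⬝ᵥ q)) ((D.M g).mulVec a) := by
    apply Finset.prod_congr rfl
    intro a _
    simp only []
    rw [hF, GB_pairq D hg]
  rw [h1]
  refine (Finset.prod_congr ?_ fun _ _ => rfl).trans
    ((D.prod_roots g (fun a => φ (a ⬝ᵥ q)) (fun b : Vec r => F b (b ⬝ᵥ q))).trans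
      (Finset.prod_congr ?_ fun _ _ => rfl))
  · congr!
  · simp only [GB_pairq D (GB_tact_inv D hg)]

private theorem GB_act_ti (g : W) (M : ℕ) (e : ℚ) (a : Vec r) :
    D.act g (ti M e a) = ti M e ((D.M g).mulVec a) := by
  unfold ti
  rw [map_sum]
  apply Finset.sum_congr rfl
  intro m _
  rw [map_mul, D.act_C, map_pow (D.act g), map_neg, D.act_lf]

theorem Nq_mem (q : Vec r) (c : ℚ) : D.Nq q c ∈ D.invq q := by
  rw [D.mem_invq]
  intro g hg
  unfold Nq
  rw [map_mul]
  congr 1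
  · exact GB_prod D hg (fun e => e < 0) (fun a e => lf a + C (c * e)) (fun a e => by
      rw [map_add, D.act_lf, D.act_C])
  · exact GB_prod D hg (fun e => 1 < e) (fun a e => - lf a + C (c * (1 - e))) (fun a e => by
      rw [map_add, map_neg, D.act_lf, D.act_C])

theorem Dq_mem (q : Vec r) (c : ℚ) : D.Dq q c ∈ D.invq q := by
  rw [D.mem_invq]
  intro g hg
  unfold Dq
  rw [map_mul]
  congr 1
  · exact GB_prodr D hg (fun e => e < 0) (fun a e => lf a + C (c * e)) (fun a e => by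
      rw [map_add, D.act_lf, D.act_C])
  · exact GB_prodr D hg (fun e => 1 < e) (fun a e => - lf a + C (c * (1 - e))) (fun a e => by
      rw [map_add, map_neg, D.act_lf, D.act_C])

theorem TI_mem (M : ℕ) (q : Vec r) (c : ℚ) : D.TI M q c ∈ D.invq q := by
  rw [D.mem_invq]
  intro g hg
  unfold TI
  rw [map_mul]
  congr 1
  · exact GB_prod D hg (fun e => e < 0) (fun a e => ti M (c * e) a) (fun a e => by
      rw [GB_act_ti])
  · exact GB_prod D hg (fun e => 1 < e) (fun a e => ti M (c * (1 - e)) (-a)) (fun a e => by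
      rw [GB_act_ti, Matrix.mulVec_neg])

private def GB_L (M : ℕ) (f : Pol r) : Prop := ∀ m : Fin r →₀ ℕ, m.degree ≤ M → coeff m f = 0

private theorem GB_L_add {M : ℕ} {f g : Pol r} (hf : GB_L M f) (hg : GB_L M g) :
    GB_L M (f + g) := by
  intro m hm
  rw [coeff_add, hf m hm, hg m hm, add_zero]

private theorem GB_L_mul {M : ℕ} {f : Pol r} (g : Pol r) (hf : GB_L M f) :
    GB_L M (f * g) := by
  intro m hm
  rw [coeff_mul]
  apply Finset.sum_eq_zero
  rintro ⟨a, b⟩ hab
  rw [Finset.HasAntidiagonal.mem_antidiagonal] at hab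
  simp only at hab ⊢
  rw [hf a, zero_mul]
  have h1 : m.degree = a.degree + b.degree := by
    rw [← hab, map_add]
  omega

private theorem GB_L_hom {M d : ℕ} {f : Pol r} (hf : f.IsHomogeneous d) (hd : M < d) :
    GB_L M f := by
  intro m hm
  by_contra h
  have h1 := hf h
  have h2 : m.degree = d := by
    rw [Finsupp.degree_eq_weight_one]
    exact h1
  omega

private theorem GB_prodL {ι : Type} (M : ℕ) (s : Finset ι) (F : ι → Pol r)
    (h : ∀ i ∈ s, GB_L M (F i - 1)) : GB_L M (∏ i ∈ s, F i - 1) := by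
  induction s using Finset.induction_on with
  | empty =>
    intro m _
    simp
  | insert i s hi ih =>
    rw [Finset.prod_insert hi]
    have h1 := ih (fun j hj => h j (Finset.mem_insert_of_mem hj))
    have h2 := h i (Finset.mem_insert_self i s)
    have h3 : F i * ∏ j ∈ s, F j - 1 = (F i - 1) * ∏ j ∈ s, F j + (∏ j ∈ s, F j - 1) := by
      ring
    rw [h3]
    exact GB_L_add (GB_L_mul _ h2) h1

private theorem GB_ti (M : ℕ) {e : ℚ} (he : e ≠ 0) (a : Vec r) :
    GB_L M ((lf a + C e) * ti M e a - 1) := by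
  rw [ti_mul M he a]
  have h1 : 1 - C (e⁻¹ ^ (M + 1)) * (- lf a) ^ (M + 1) - 1 =
      (lf (-a)) ^ (M + 1) * (- C (e⁻¹ ^ (M + 1))) := by
    rw [lf_neg]
    ring
  rw [h1]
  apply GB_L_mul
  have h2 := (lf_hom (-a)).pow (M + 1)
  rw [one_mul] at h2
  exact GB_L_hom h2 (Nat.lt_succ_self M)

theorem NqTI (M : ℕ) (q : Vec r) {c : ℚ} (hc : c ≠ 0) (d : ℕ) (hd : d ≤ M) :
    homogeneousComponent d (D.Nq q c * D.TI M q c - 1) = 0 := by
  have h1 : D.Nq q c * D.TI M q c =
      (∏ i ∈ Finset.univ.filter (fun i => D.al i ⬝ᵥ q < 0),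
        (lf (D.al i) + C (c * (D.al i ⬝ᵥ q))) * ti M (c * (D.al i ⬝ᵥ q)) (D.al i)) *
      ∏ i ∈ Finset.univ.filter (fun i => 1 < D.al i ⬝ᵥ q),
        (- lf (D.al i) + C (c * (1 - D.al i ⬝ᵥ q))) *
          ti M (c * (1 - D.al i ⬝ᵥ q)) (- D.al i) := by
    rw [Finset.prod_mul_distrib, Finset.prod_mul_distrib]
    unfold Nq TI
    ring
  have hA : GB_L M (∏ i ∈ Finset.univ.filter (fun i => D.al i ⬝ᵥ q < 0),
        (lf (D.al i) + C (c * (D.al i ⬝ᵥ q))) * ti M (c * (D.al i ⬝ᵥ q)) (D.al i) - 1) := by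
    apply GB_prodL
    intro i hi
    rw [Finset.mem_filter] at hi
    exact GB_ti M (mul_ne_zero hc hi.2.ne) _
  have hB : GB_L M (∏ i ∈ Finset.univ.filter (fun i => 1 < D.al i ⬝ᵥ q),
        (- lf (D.al i) + C (c * (1 - D.al i ⬝ᵥ q))) *
          ti M (c * (1 - D.al i ⬝ᵥ q)) (- D.al i) - 1) := by
    apply GB_prodL
    intro i hi
    rw [Finset.mem_filter] at hi
    have h2 := GB_ti M (mul_ne_zero hc (sub_ne_zero.2 hi.2.ne)) (- D.al i)
    rwa [lf_neg] at h2
  have hAB : GB_L M (D.Nq q c * D.TI M q c - 1) := by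
    rw [h1]
    have h3 : ∀ x y : Pol r, x * y - 1 = (x - 1) * y + (y - 1) := fun x y => by ring
    rw [h3]
    exact GB_L_add (GB_L_mul _ hA) hB
  ext m
  rw [coeff_homogeneousComponent, coeff_zero]
  split_ifs with h
  · exact hAB m (by omega)
  · rfl

end Datum

variable {D} {H : Type} [CommRing H] [Algebra ℚ H] {B : Vec r → Type} [∀ q, CommRing (B q)]
  [∀ q, Algebra ℚ (B q)] (Γ : Geo D H B)

namespace Geo

/-- for large `M` the class of `TI` is inverse to the class of `Nq` -/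
theorem kap_NqTI {q : Vec r} (hq : D.Feas q) : ∃ M0 : ℕ, ∀ M, M0 ≤ M → ∀ c : ℚ, c ≠ 0 →
    ∀ x y : D.invq q, (x : Pol r) = D.Nq q c → (y : Pol r) = D.TI M q c →
      Γ.kap q x * Γ.kap q y = 1 := by
  obtain ⟨N, hN⟩ := Γ.kap_top q hq
  refine ⟨N, fun M hM c hc x y hx hy => ?_⟩
  have hmem : ∀ d, homogeneousComponent d ((x * y - 1 : D.invq q) : Pol r) ∈ D.invq q := by
    intro d
    rw [D.mem_invq]
    intro g hg
    rw [D.act_hom, (D.mem_invq q _).1 (x * y - 1 : D.invq q).2 g hg]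
  have hz : (x * y - 1 : D.invq q) =
      ∑ d ∈ Finset.range (((x * y - 1 : D.invq q) : Pol r).totalDegree + 1),
        (⟨homogeneousComponent d ((x * y - 1 : D.invq q) : Pol r), hmem d⟩ : D.invq q) := by
    apply Subtype.ext
    rw [AddSubmonoidClass.coe_finsetSum]
    exact (sum_homogeneousComponent _).symm
  have h0 : Γ.kap q (x * y - 1) = 0 := by
    rw [hz, map_sum]
    apply Finset.sum_eq_zero
    intro d _
    by_cases hd : d ≤ M
    · have h1 : (⟨homogeneousComponent d ((x * y - 1 : D.invq q) : Pol r), hmem d⟩ :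
          D.invq q) = 0 := by
        apply Subtype.ext
        change homogeneousComponent d ((x : Pol r) * (y : Pol r) - 1) = 0
        rw [hx, hy]
        exact D.NqTI M q hc d hd
      rw [h1, map_zero]
    · exact hN _ d (by omega) (homogeneousComponent_isHomogeneous d _)
  rw [map_sub, map_mul, map_one] at h0
  exact sub_eq_zero.1 h0

end Geo

end LibHK51
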