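import Pool.Agent.LibHK51.THa

/-! Row THb: the sum of the local terms is the global integral. Uses only the statements of TA, TC,
TE, TG, THa.

`locU_one`: (`(L)`: `L` contains all points `pt w k B` of feasible bases.) Claim: for `r ≤ S.card`
(else both are zero) and `c ≠ 0`: `∑ q ∈ L, LT S c q 1 = jf w ξ S 1` (which is `0` if `S.card > r`,
`jf_hom_ne`). Induction on `S.card`.
* If `S` does not span: no basis in `S`, both sides are zero (`LT_eq_zero`, `jf_eq_zero`).
* Suppose there is `q0` with `w i ⬝ᵥ q0 + k i = 0` for all `i ∈ S` (this is the case when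
  `S.card = r`, `q0 = pt w k S`), and `S` spans. If there is no feasible basis, both sides are zero.
  Otherwise `q0 = pt w k B ∈ L` (`pt_uniq`). For `q = q0`: `Sk w k S q0 = S`, the product is empty:
  `LT S c q0 1 = jf w ξ S 1`. For `q ≠ q0`: for `i ∈ Sk w k S q`, `w i ⬝ᵥ (q - q0) = 0`, so no basis
  lies in `Sk w k S q` (`pt_uniq` twice) and `LT = 0`.
* Otherwise there is a relation `∑ i ∈ S, γ i • w i = 0` with `Δ = ∑ i ∈ S, γ i * k i ≠ 0`: take a
  basis `B ⊆ S` and `i ∈ S \ B` with `w i ⬝ᵥ pt w k B + k i ≠ 0`, `w i = ∑ j ∈ B, c j • w j`. Then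
  `C (c Δ) = ∑ γ i (lf (w i) + C (c k i))`, so `c Δ * ∑ q, LT S c q 1 = ∑ γ i ∑ q, LT (S.erase i) c q 1
  = ∑ γ i jf (S.erase i) 1` by induction `= jf S (∑ γ i lf (w i)) = 0` (`jf_del`). And here
  `S.card > r`, so `jf S 1 = 0`.

`locU_poly` (one polynomial `Z`): if `S` does not span take `p = 0`. Otherwise `Z` is the sum of its
homogeneous components; for homogeneous `Z` of degree `d`, induction on `d` (all `S`):
`d = 0`: `Z = C z`, `p = C (z * jf S 1)`. `d + 1`: `Z = ∑ Y i * lf (w i)` (`hom_decomp`),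
`LT S c q (Y i * lf (w i)) = LT (S.erase i) c q (Y i) - c * k i * LT S c q (Y i)` (`LT_del`), so take
`p = ∑ (p (S.erase i) (Y i) - X * C (k i) * p S (Y i))`; at `0`: `∑ jf (S.erase i) (Y i) =
jf S Z` (`jf_del`).

`locU`: `Z = ∑ X^m Z_m`, `p = ∑ X^m p_m`, `p(0) = p_0(0)`, `Z(0) = Z_0`. -/

namespace LibHK51

open MvPolynomial

open scoped Classical

variable {r n : ℕ}

private theorem erase_sub {S : Finset (Fin n)} (i : Fin n) : S.erase i ⊆ S :=
  Finset.erase_subset i S

private theorem Sk_sub (w : Fin n → Vec r) (k : Fin n → ℚ) (S : Finset (Fin n)) (q : Vec r) :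
    Sk w k S q ⊆ S := Finset.filter_subset _ _

private theorem LT_nofeas {w : Fin n → Vec r} {k : Fin n → ℚ} {ξ : Vec r} {S : Finset (Fin n)}
    (M : ℕ) (c : ℚ) (q : Vec r) (h : ∀ B ⊆ S, dt w B ≠ 0 → ¬ Fe w ξ B) (Z : Pol r) :
    LT w k ξ S M c q Z = 0 :=
  LT_eq_zero M c (fun B hB hd => h B (hB.trans (Sk_sub w k S q)) hd) Z

private theorem locU_aux (w : Fin n → Vec r) (k : Fin n → ℚ) (ξ : Vec r) {M : ℕ} (hM : n ≤ M)
    (L : Finset (Vec r)) {c : ℚ} (hc : c ≠ 0) : ∀ (N : ℕ) (S : Finset (Fin n)), S.card = N →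
    Pnt w S → GX w ξ S → (∀ B ⊆ S, dt w B ≠ 0 → Fe w ξ B → pt w k B ∈ L) →
    ∑ q ∈ L, LT w k ξ S M c q 1 = jf w ξ S 1 := by
  intro N
  induction N with
  | zero =>
    intro S hS hP hX hL
    have hS0 : S = ∅ := Finset.card_eq_zero.mp hS
    by_cases hB : ∃ B ⊆ S, dt w B ≠ 0 ∧ Fe w ξ B
    · obtain ⟨B, hBS, hBd, hBF⟩ := hB
      have hB0 : B = ∅ := by
        rw [hS0] at hBS
        exact Finset.subset_empty.mp hBS
      subst hB0
      have hr : r = 0 := by
        have := dt_card hBd
        simpa using this.symm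
      subst hr
      have hq0 : pt w k ∅ ∈ L := hL ∅ hBS hBd hBF
      have hall : ∀ q : Vec 0, q = pt w k ∅ := fun q => Subsingleton.elim _ _
      have hL1 : L = {pt w k ∅} := by
        ext q
        constructor
        · intro _
          rw [Finset.mem_singleton]
          exact hall q
        · intro hq
          rw [Finset.mem_singleton] at hq
          rw [hq]
          exact hq0
      rw [hL1, Finset.sum_singleton]
      subst hS0
      unfold LT
      have h1 : Sk w k ∅ (pt w k ∅) = ∅ := by
        unfold Sk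
        simp
      rw [h1]
      simp
    · push Not at hB
      rw [jf_eq_zero (fun B h1 h2 => hB B h1 h2)]
      exact Finset.sum_eq_zero (fun q _ => LT_nofeas M c q (fun B h1 h2 => hB B h1 h2) 1)
  | succ N ih =>
    intro S hS hP hX hL
    by_cases hB : ∃ B ⊆ S, dt w B ≠ 0 ∧ Fe w ξ B
    · obtain ⟨B, hBS, hBd, hBF⟩ := hB
      by_cases hq : ∀ i ∈ S, w i ⬝ᵥ pt w k B + k i = 0
      · have hq0 : pt w k B ∈ L := hL B hBS hBd hBF
        rw [Finset.sum_eq_single_of_mem (pt w k B) hq0]
        · unfold LT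
          have h1 : Sk w k S (pt w k B) = S := by
            unfold Sk
            exact Finset.filter_true_of_mem hq
          rw [h1]
          simp
        · intro q _ hne
          apply LT_eq_zero
          intro B' hB' hd'
          exfalso
          apply hne
          have e1 : q = pt w k B' := by
            apply pt_uniq hd'
            intro i hi
            have := hB' hi
            unfold Sk at this
            exact (Finset.mem_filter.mp this).2
          have e2 : pt w k B = pt w k B' := by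
            apply pt_uniq hd'
            intro i hi
            exact hq i (Sk_sub w k S q (hB' hi))
          rw [e1, e2]
      · push Not at hq
        obtain ⟨i0, hi0, hne⟩ := hq
        have hi0B : i0 ∉ B := fun h => hne (pt_spec hBd k i0 h)
        obtain ⟨a, ha⟩ := coef_ex hBd (w i0)
        set γ : Fin n → ℚ := fun i => (if i = i0 then 1 else 0) - (if i ∈ B then a i else 0) with hγ
        have hsumv : ∑ i ∈ S, γ i • w i = 0 := by
          have h1 : ∑ i ∈ S, (if i = i0 then (1:ℚ) else 0) • w i = w i0 := by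
            rw [Finset.sum_eq_single_of_mem i0 hi0]
            · simp
            · intro j _ hj
              simp [hj]
          have h2 : ∑ i ∈ S, (if i ∈ B then a i else 0) • w i = w i0 := by
            rw [← ha]
            rw [← Finset.sum_subset hBS]
            · apply Finset.sum_congr rfl
              intro j hj
              simp [hj]
            · intro j _ hj
              simp [hj]
          simp only [hγ, sub_smul, Finset.sum_sub_distrib, h1, h2, sub_self]
        have hΔ : ∑ i ∈ S, γ i * k i = w i0 ⬝ᵥ pt w k B + k i0 := by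
          have h1 : ∑ i ∈ S, (if i = i0 then (1:ℚ) else 0) * k i = k i0 := by
            rw [Finset.sum_eq_single_of_mem i0 hi0]
            · simp
            · intro j _ hj
              simp [hj]
          have h2 : ∑ i ∈ S, (if i ∈ B then a i else 0) * k i = ∑ i ∈ B, a i * k i := by
            rw [← Finset.sum_subset hBS]
            · apply Finset.sum_congr rfl
              intro j hj
              simp [hj]
            · intro j _ hj
              simp [hj]
          have h3 : w i0 ⬝ᵥ pt w k B = - ∑ i ∈ B, a i * k i := by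
            rw [← ha, sum_dotProduct, ← Finset.sum_neg_distrib]
            apply Finset.sum_congr rfl
            intro j hj
            rw [smul_dotProduct, smul_eq_mul]
            have := pt_spec hBd k j hj
            have h4 : w j ⬝ᵥ pt w k B = - k j := by linarith
            rw [h4]
            ring
          simp only [hγ, sub_mul, Finset.sum_sub_distrib, h1, h2, h3]
          ring
        have hcard : r < S.card := by
          have h1 := dt_card hBd
          have h2 : B ⊂ S := by
            refine ⟨hBS, fun h => hi0B (h hi0)⟩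
          have := Finset.card_lt_card h2
          omega
        have hlf : ∑ i ∈ S, C (γ i) * lf (w i) = 0 := by
          have h1 : ∑ i ∈ S, C (γ i) * lf (w i) = lf (∑ i ∈ S, γ i • w i) := by
            rw [lf_sum]
            apply Finset.sum_congr rfl
            intro i _
            rw [lf_smul]
          rw [h1, hsumv]
          unfold lf
          simp
        have hkey : ∀ q : Vec r, (c * (w i0 ⬝ᵥ pt w k B + k i0)) * LT w k ξ S M c q 1 =
            ∑ i ∈ S, γ i * LT w k ξ (S.erase i) M c q 1 := by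
          intro q
          have h1 : (C (c * (w i0 ⬝ᵥ pt w k B + k i0)) : Pol r) * 1 =
              ∑ i ∈ S, C (γ i) * (1 * (lf (w i) + C (c * k i))) := by
            have h2 : ∑ i ∈ S, C (γ i) * (1 * (lf (w i) + C (c * k i))) =
                ∑ i ∈ S, C (γ i) * lf (w i) + ∑ i ∈ S, (C (c * (γ i * k i)) : Pol r) := by
              rw [← Finset.sum_add_distrib]
              apply Finset.sum_congr rfl
              intro i _
              have : (C (c * (γ i * k i)) : Pol r) = C (γ i) * C (c * k i) := by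
                rw [← C_mul]
                congr 1
                ring
              rw [this]
              ring
            rw [h2, hlf, zero_add, ← map_sum, ← Finset.mul_sum, hΔ, mul_one]
          rw [← LT_smul, h1, LT_sum]
          apply Finset.sum_congr rfl
          intro i hi
          rw [LT_smul, LT_del hP hX hM hc q hi 1]
        have hsum : (c * (w i0 ⬝ᵥ pt w k B + k i0)) * ∑ q ∈ L, LT w k ξ S M c q 1 = 0 := by
          rw [Finset.mul_sum, Finset.sum_congr rfl (fun q _ => hkey q), Finset.sum_comm]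
          have h1 : ∀ i ∈ S, ∑ q ∈ L, γ i * LT w k ξ (S.erase i) M c q 1 =
              jf w ξ S (C (γ i) * lf (w i)) := by
            intro i hi
            rw [← Finset.mul_sum, ih (S.erase i) (by rw [Finset.card_erase_of_mem hi, hS]; rfl)
              (hP.mono (erase_sub i)) (hX.mono (erase_sub i))
              (fun B' hB' => hL B' (hB'.trans (erase_sub i))), jf_smul, ← jf_del hP hX hi 1,
              one_mul]
          rw [Finset.sum_congr rfl h1, ← jf_sum, hlf, jf_zero]
        have h0 : ∑ q ∈ L, LT w k ξ S M c q 1 = 0 := by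
          rcases mul_eq_zero.mp hsum with h | h
          · exact absurd h (mul_ne_zero hc hne)
          · exact h
        rw [h0, jf_hom_ne w ξ (isHomogeneous_one _ _) (by omega)]
    · push Not at hB
      rw [jf_eq_zero (fun B h1 h2 => hB B h1 h2)]
      exact Finset.sum_eq_zero (fun q _ => LT_nofeas M c q (fun B h1 h2 => hB B h1 h2) 1)

theorem locU_one {w : Fin n → Vec r} {k : Fin n → ℚ} {ξ : Vec r} {S : Finset (Fin n)}
    (hP : Pnt w S) (hX : GX w ξ S) {M : ℕ} (hM : n ≤ M) {L : Finset (Vec r)}
    (hL : ∀ B ⊆ S, dt w B ≠ 0 → Fe w ξ B → pt w k B ∈ L) {c : ℚ} (hc : c ≠ 0) :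
    ∑ q ∈ L, LT w k ξ S M c q 1 = jf w ξ S 1 :=
  locU_aux w k ξ hM L hc S.card S rfl hP hX hL

private theorem locU_hom (w : Fin n → Vec r) (k : Fin n → ℚ) (ξ : Vec r) {M : ℕ} (hM : n ≤ M)
    (L : Finset (Vec r)) : ∀ (d : ℕ) (S : Finset (Fin n)),
    Pnt w S → GX w ξ S → (∀ B ⊆ S, dt w B ≠ 0 → Fe w ξ B → pt w k B ∈ L) → ∀ Z : Pol r,
    Z.IsHomogeneous d → ∃ p : Polynomial ℚ, p.eval 0 = jf w ξ S Z ∧
      ∀ c : ℚ, c ≠ 0 → ∑ q ∈ L, LT w k ξ S M c q Z = p.eval c := by
  intro d
  induction d with
  | zero =>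
    intro S hP hX hL Z hZ
    obtain ⟨z, rfl⟩ : ∃ z : ℚ, Z = C z := by
      refine ⟨coeff 0 Z, ?_⟩
      exact totalDegree_eq_zero_iff_eq_C.mp (Nat.le_zero.mp hZ.totalDegree_le)
    refine ⟨Polynomial.C (z * jf w ξ S 1), ?_, ?_⟩
    · rw [Polynomial.eval_C, ← jf_smul, mul_one]
    · intro c hc
      rw [Polynomial.eval_C, ← locU_one hP hX hM hL hc, Finset.mul_sum]
      apply Finset.sum_congr rfl
      intro q _
      rw [← LT_smul, mul_one]
  | succ d ih =>
    intro S hP hX hL Z hZ
    by_cases hsp : Submodule.span ℚ (w '' (S : Set (Fin n))) = ⊤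
    · obtain ⟨Y, hY, hZY⟩ := hom_decomp hsp hZ
      have hE : ∀ i : Fin n, ∃ p : Polynomial ℚ, i ∈ S → (p.eval 0 = jf w ξ (S.erase i) (Y i) ∧
          ∀ c : ℚ, c ≠ 0 → ∑ q ∈ L, LT w k ξ (S.erase i) M c q (Y i) = p.eval c) := by
        intro i
        obtain ⟨p, h1, h2⟩ := ih (S.erase i) (hP.mono (erase_sub i)) (hX.mono (erase_sub i))
          (fun B' hB' => hL B' (hB'.trans (erase_sub i))) (Y i) (hY i)
        exact ⟨p, fun _ => ⟨h1, h2⟩⟩
      choose pE hpE using hE
      have hS' : ∀ i : Fin n, ∃ p : Polynomial ℚ, (p.eval 0 = jf w ξ S (Y i) ∧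
          ∀ c : ℚ, c ≠ 0 → ∑ q ∈ L, LT w k ξ S M c q (Y i) = p.eval c) := by
        intro i
        exact ih S hP hX hL (Y i) (hY i)
      choose pS hpS using hS'
      refine ⟨∑ i ∈ S, (pE i - Polynomial.X * Polynomial.C (k i) * pS i), ?_, ?_⟩
      · rw [Polynomial.eval_finsetSum, hZY, jf_sum]
        apply Finset.sum_congr rfl
        intro i hi
        rw [jf_del hP hX hi, ← (hpE i hi).1]
        simp
      · intro c hc
        rw [Polynomial.eval_finsetSum, hZY]
        have h1 : ∀ q : Vec r, LT w k ξ S M c q (∑ i ∈ S, Y i * lf (w i)) =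
            ∑ i ∈ S, (LT w k ξ (S.erase i) M c q (Y i) - c * k i * LT w k ξ S M c q (Y i)) := by
          intro q
          rw [LT_sum]
          apply Finset.sum_congr rfl
          intro i hi
          have h2 := LT_del (k := k) hP hX hM hc q hi (Y i)
          have h3 : Y i * (lf (w i) + C (c * k i)) = Y i * lf (w i) + C (c * k i) * Y i := by ring
          rw [h3, LT_add, LT_smul] at h2
          linarith
        rw [Finset.sum_congr rfl (fun q _ => h1 q), Finset.sum_comm]
        apply Finset.sum_congr rfl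
        intro i hi
        rw [Finset.sum_sub_distrib, ← Finset.mul_sum, (hpE i hi).2 c hc, (hpS i).2 c hc]
        simp only [Polynomial.eval_sub, Polynomial.eval_mul, Polynomial.eval_X, Polynomial.eval_C]
    · have hno : ∀ B ⊆ S, dt w B ≠ 0 → ¬ Fe w ξ B := by
        intro B hBS hd
        exfalso
        apply hsp
        rw [eq_top_iff, ← span_of_dt hd]
        exact Submodule.span_mono (Set.image_mono (by exact_mod_cast hBS))
      refine ⟨0, ?_, ?_⟩
      · rw [jf_eq_zero hno]
        simp
      · intro c _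
        rw [Polynomial.eval_zero]
        exact Finset.sum_eq_zero (fun q _ => LT_nofeas M c q hno Z)

theorem locU_poly {w : Fin n → Vec r} {k : Fin n → ℚ} {ξ : Vec r} {S : Finset (Fin n)}
    (hP : Pnt w S) (hX : GX w ξ S) {M : ℕ} (hM : n ≤ M) {L : Finset (Vec r)}
    (hL : ∀ B ⊆ S, dt w B ≠ 0 → Fe w ξ B → pt w k B ∈ L) (Z : Pol r) :
    ∃ p : Polynomial ℚ, p.eval 0 = jf w ξ S Z ∧
      ∀ c : ℚ, c ≠ 0 → ∑ q ∈ L, LT w k ξ S M c q Z = p.eval c := by
  have hH : ∀ d : ℕ, ∃ p : Polynomial ℚ, p.eval 0 = jf w ξ S (homogeneousComponent d Z) ∧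
      ∀ c : ℚ, c ≠ 0 → ∑ q ∈ L, LT w k ξ S M c q (homogeneousComponent d Z) = p.eval c :=
    fun d => locU_hom w k ξ hM L d S hP hX hL _ (homogeneousComponent_isHomogeneous d Z)
  choose p hp using hH
  refine ⟨∑ d ∈ Finset.range (Z.totalDegree + 1), p d, ?_, ?_⟩
  · conv_rhs => rw [← sum_homogeneousComponent Z]
    rw [Polynomial.eval_finsetSum, jf_sum]
    exact Finset.sum_congr rfl (fun d _ => (hp d).1)
  · intro c hc
    conv_lhs => rw [← sum_homogeneousComponent Z]
    rw [Polynomial.eval_finsetSum, Finset.sum_congr rfl (fun q _ => LT_sum w k ξ S M c q _ _),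
      Finset.sum_comm]
    exact Finset.sum_congr rfl (fun d _ => (hp d).2 c hc)

theorem locU {w : Fin n → Vec r} {k : Fin n → ℚ} {ξ : Vec r} {S : Finset (Fin n)}
    (hP : Pnt w S) (hX : GX w ξ S) {M : ℕ} (hM : n ≤ M) {L : Finset (Vec r)}
    (hL : ∀ B ⊆ S, dt w B ≠ 0 → Fe w ξ B → pt w k B ∈ L) (Z : Polynomial (Pol r)) :
    ∃ p : Polynomial ℚ, p.eval 0 = jf w ξ S (Z.eval 0) ∧
      ∀ c : ℚ, c ≠ 0 → ∑ q ∈ L, LT w k ξ S M c q (Z.eval (C c)) = p.eval c := by
  have hH : ∀ m : ℕ, ∃ p : Polynomial ℚ, p.eval 0 = jf w ξ S (Z.coeff m) ∧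
      ∀ c : ℚ, c ≠ 0 → ∑ q ∈ L, LT w k ξ S M c q (Z.coeff m) = p.eval c :=
    fun m => locU_poly hP hX hM hL (Z.coeff m)
  choose p hp using hH
  refine ⟨∑ m ∈ Finset.range (Z.natDegree + 1), Polynomial.X ^ m * p m, ?_, ?_⟩
  · rw [Polynomial.eval_finsetSum, Finset.sum_eq_single_of_mem 0 (by simp)]
    · rw [Polynomial.eval_mul, (hp 0).1, Polynomial.coeff_zero_eq_eval_zero]
      simp
    · intro m _ hm
      simp [hm]
  · intro c hc
    have h1 : Z.eval (C c) = ∑ m ∈ Finset.range (Z.natDegree + 1), C (c ^ m) * Z.coeff m := by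
      rw [Polynomial.eval_eq_sum_range]
      apply Finset.sum_congr rfl
      intro m _
      rw [← C_pow, mul_comm]
    rw [h1, Polynomial.eval_finsetSum, Finset.sum_congr rfl (fun q _ => LT_sum w k ξ S M c q _ _),
      Finset.sum_comm]
    apply Finset.sum_congr rfl
    intro m _
    rw [Finset.sum_congr rfl (fun q _ => LT_smul w k ξ S M c q (c ^ m) (Z.coeff m)),
      ← Finset.mul_sum, (hp m).2 c hc]
    simp

end LibHK51
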