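import Pool.Agent.LibHK51.GB
import Pool.Agent.LibHK51.THb

/-! Row GC: local terms in terms of `Th`, and restrictions of tautological classes. Uses only the
statements of TC, TE, THa, GA, TL, GB.

`Ed m` is the polynomial with `Ed m (c) = ∏_{a·m ≤ 0} a · ∏_{a·m ≥ 1} (c - a)`.
* `Ed_zero`: at `c = 0` it is `± et`: by integrality every root has `a·m ≤ 0` or `a·m ≥ 1`, the sign is
  `(-1)` to the number of the latter.
* `LT_Th`: `sh (c q)` of a factor `lf a` is `lf a + C (c a·q)`, of `C c - lf a` is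
  `- lf a + C (c (1 - a·q))`; split the roots with `a·m ≤ 0` into `a·q = 0` and `a·q ≠ 0`, the roots with
  `a·m ≥ 1` into `a·q = 1` and `a·q ≠ 1`; the first parts give `D.El q m`.
* `LT_Th_self` (`q = m` integral): `El m m` and the rest is `Dq m c`; and
  `∏_{i ∉ Sk} ti M (c (wl i · m + kl i)) (wl i) = TI M m c`: the `i` not in
  `Sk (wl m) (kl m) univ m` are those with `al i · m < 0` (`wl = al`, `kl = 0`) or `al i · m > 1`
  (`wl = -al`, `kl = 1`).
* `res_ev`: induction on `X` (`Polynomial.induction_on'`); `res_kappa`, `res_u`. -/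

namespace LibHK51

open MvPolynomial

open scoped Classical

variable {W : Type} [Group W] [Fintype W] {r n : ℕ} (D : Datum W r n)

namespace Datum

/-- the Euler class of the equations for `V^{≤ 0}` (of `m`) and of the roots, with the equivariant
parameter as variable -/
noncomputable def Ed (m : Vec r) : Polynomial (Pol r) :=
  Polynomial.C (∏ a ∈ D.roots.filter (fun a => a ⬝ᵥ m ≤ 0), lf a) *
    ∏ a ∈ D.roots.filter (fun a => 1 ≤ a ⬝ᵥ m), (Polynomial.X - Polynomial.C (lf a))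

/-- a polynomial with coefficients in the invariants, evaluated at `c` -/
noncomputable def ev (X : Polynomial D.inv) (c : ℚ) : Pol r :=
  (X.map (algebraMap D.inv (Pol r))).eval (C c)

private theorem Ed_eval (m : Vec r) (c : ℚ) : (D.Ed m).eval (C c) =
    (∏ a ∈ D.roots.filter (fun a => a ⬝ᵥ m ≤ 0), lf a) *
      ∏ a ∈ D.roots.filter (fun a => 1 ≤ a ⬝ᵥ m), (C c - lf a) := by
  rw [Ed, Polynomial.eval_mul, Polynomial.eval_C, Polynomial.eval_prod]
  congr 1
  apply Finset.prod_congr rfl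
  intro a _
  rw [Polynomial.eval_sub, Polynomial.eval_X, Polynomial.eval_C]

theorem Ed_zero {m : Vec r} (hm : IsInt m) :
    ∃ ε : ℚ, (ε = 1 ∨ ε = -1) ∧ (D.Ed m).eval 0 = C ε * D.et := by
  refine ⟨(-1) ^ (D.roots.filter (fun a => 1 ≤ a ⬝ᵥ m)).card, neg_one_pow_eq_or ℚ _, ?_⟩
  have h0 := D.Ed_eval m 0
  rw [C_0] at h0
  rw [h0]
  have h1 : ∏ a ∈ D.roots.filter (fun a => 1 ≤ a ⬝ᵥ m), ((0 : Pol r) - lf a) =
      (-1) ^ (D.roots.filter (fun a => 1 ≤ a ⬝ᵥ m)).card *
        ∏ a ∈ D.roots.filter (fun a => 1 ≤ a ⬝ᵥ m), lf a := by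
    rw [← Finset.prod_const, ← Finset.prod_mul_distrib]
    apply Finset.prod_congr rfl
    intro a _
    ring
  have h2 : D.roots.filter (fun a => 1 ≤ a ⬝ᵥ m) = D.roots.filter (fun a => ¬ a ⬝ᵥ m ≤ 0) := by
    apply Finset.filter_congr
    intro a ha
    constructor
    · intro h h'
      linarith
    · intro h
      rcases not_between (D.roots_int a ha) hm with h' | h'
      · exact absurd h' h
      · exact h'
  have h3 : D.et = (∏ a ∈ D.roots.filter (fun a => a ⬝ᵥ m ≤ 0), lf a) *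
      ∏ a ∈ D.roots.filter (fun a => 1 ≤ a ⬝ᵥ m), lf a := by
    rw [h2, et]
    exact (Finset.prod_filter_mul_prod_filter_not _ _ _).symm
  rw [h1, h3]
  simp only [map_pow, map_neg, map_one]
  ring

private theorem ev_eq (X : Polynomial D.inv) (c : ℚ) :
    D.ev X c = ((X.eval (algebraMap ℚ D.inv c) : D.inv) : Pol r) := by
  have h1 : (C c : Pol r) = algebraMap D.inv (Pol r) (algebraMap ℚ D.inv c) := rfl
  rw [ev, Polynomial.eval_map, h1, Polynomial.eval₂_at_apply]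
  rfl

theorem ev_mem (X : Polynomial D.inv) (c : ℚ) : D.ev X c ∈ D.inv := by
  rw [D.ev_eq]
  exact Subtype.property _

theorem ev_zero (X : Polynomial D.inv) : D.ev X 0 = ((X.coeff 0 : D.inv) : Pol r) := by
  rw [D.ev_eq, map_zero, Polynomial.coeff_zero_eq_eval_zero]

private theorem sh_Ed (c : ℚ) (q m : Vec r) : sh (c • q) ((D.Ed m).eval (C c)) =
    (∏ a ∈ D.roots.filter (fun a => a ⬝ᵥ m ≤ 0), (lf a + C (c * (a ⬝ᵥ q)))) *
      ∏ a ∈ D.roots.filter (fun a => 1 ≤ a ⬝ᵥ m), (- lf a + C (c * (1 - a ⬝ᵥ q))) := by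
  rw [D.Ed_eval, map_mul, map_prod, map_prod]
  congr 1
  · apply Finset.prod_congr rfl
    intro a _
    rw [sh_lf, dotProduct_smul, smul_eq_mul]
  · apply Finset.prod_congr rfl
    intro a _
    have h1 : sh (c • q) (C c) = C c := by
      rw [sh]; exact aeval_C _ _
    rw [map_sub, sh_lf, dotProduct_smul, smul_eq_mul, h1, mul_sub, mul_one, C_sub]
    ring

/-- splitting off the factors of `El` -/
private theorem sh_Ed_split (c : ℚ) (q m : Vec r) : sh (c • q) ((D.Ed m).eval (C c)) =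
    D.El q m *
      ((∏ a ∈ D.roots.filter (fun a => a ⬝ᵥ q ≠ 0 ∧ a ⬝ᵥ m ≤ 0), (lf a + C (c * (a ⬝ᵥ q)))) *
      ∏ a ∈ D.roots.filter (fun a => a ⬝ᵥ q ≠ 1 ∧ 1 ≤ a ⬝ᵥ m),
        (- lf a + C (c * (1 - a ⬝ᵥ q)))) := by
  have h1 : ∏ a ∈ D.roots.filter (fun a => a ⬝ᵥ m ≤ 0), (lf a + C (c * (a ⬝ᵥ q))) =
      (∏ a ∈ D.roots.filter (fun a => a ⬝ᵥ q = 0 ∧ a ⬝ᵥ m ≤ 0), lf a) *
        ∏ a ∈ D.roots.filter (fun a => a ⬝ᵥ q ≠ 0 ∧ a ⬝ᵥ m ≤ 0), (lf a + C (c * (a ⬝ᵥ q))) := by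
    rw [← Finset.prod_filter_mul_prod_filter_not (D.roots.filter (fun a => a ⬝ᵥ m ≤ 0))
      (fun a => a ⬝ᵥ q = 0), Finset.filter_filter, Finset.filter_filter]
    congr 1
    · apply Finset.prod_congr
      · ext a; simp only [Finset.mem_filter]; tauto
      · intro a ha
        have : a ⬝ᵥ q = 0 := (Finset.mem_filter.mp ha).2.1
        rw [this, mul_zero, C_0, add_zero]
    · apply Finset.prod_congr _ (fun _ _ => rfl)
      ext a; simp only [Finset.mem_filter]; tauto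
  have h2 : ∏ a ∈ D.roots.filter (fun a => 1 ≤ a ⬝ᵥ m), (- lf a + C (c * (1 - a ⬝ᵥ q))) =
      (∏ a ∈ D.roots.filter (fun a => a ⬝ᵥ q = 1 ∧ 1 ≤ a ⬝ᵥ m), (- lf a)) *
        ∏ a ∈ D.roots.filter (fun a => a ⬝ᵥ q ≠ 1 ∧ 1 ≤ a ⬝ᵥ m),
          (- lf a + C (c * (1 - a ⬝ᵥ q))) := by
    rw [← Finset.prod_filter_mul_prod_filter_not (D.roots.filter (fun a => 1 ≤ a ⬝ᵥ m))
      (fun a => a ⬝ᵥ q = 1), Finset.filter_filter, Finset.filter_filter]
    congr 1
    · apply Finset.prod_congr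
      · ext a; simp only [Finset.mem_filter]; tauto
      · intro a ha
        have : a ⬝ᵥ q = 1 := (Finset.mem_filter.mp ha).2.1
        rw [this, sub_self, mul_zero, C_0, add_zero]
    · apply Finset.prod_congr _ (fun _ _ => rfl)
      ext a; simp only [Finset.mem_filter]; tauto
  rw [D.sh_Ed, h1, h2, El]
  ring

theorem LT_Th (M : ℕ) (c : ℚ) (q m : Vec r) (X Y : Pol r) : ∃ R : Pol r,
    LT (D.wl m) (D.kl m) D.xi Finset.univ M c q (X * Y * (D.Ed m).eval (C c)) =
      D.Th q m (sh (c • q) X * R) := by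
  refine ⟨sh (c • q) Y *
      ((∏ a ∈ D.roots.filter (fun a => a ⬝ᵥ q ≠ 0 ∧ a ⬝ᵥ m ≤ 0), (lf a + C (c * (a ⬝ᵥ q)))) *
      ∏ a ∈ D.roots.filter (fun a => a ⬝ᵥ q ≠ 1 ∧ 1 ≤ a ⬝ᵥ m),
        (- lf a + C (c * (1 - a ⬝ᵥ q)))) *
      ∏ i ∈ Finset.univ \ Sk (D.wl m) (D.kl m) Finset.univ q,
        ti M (c * (D.wl m i ⬝ᵥ q + D.kl m i)) (D.wl m i), ?_⟩
  rw [LT, Th, map_mul, map_mul, D.sh_Ed_split]
  congr 1
  ring

theorem LT_Th_self (M : ℕ) (c : ℚ) {m : Vec r} (hm : IsInt m) (X Y : Pol r) :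
    LT (D.wl m) (D.kl m) D.xi Finset.univ M c m (X * Y * (D.Ed m).eval (C c)) =
      D.Th m m (sh (c • m) X * (sh (c • m) Y * (D.Dq m c * D.TI M m c))) := by
  have h1 : (∏ a ∈ D.roots.filter (fun a => a ⬝ᵥ m ≠ 0 ∧ a ⬝ᵥ m ≤ 0),
        (lf a + C (c * (a ⬝ᵥ m)))) *
      ∏ a ∈ D.roots.filter (fun a => a ⬝ᵥ m ≠ 1 ∧ 1 ≤ a ⬝ᵥ m),
        (- lf a + C (c * (1 - a ⬝ᵥ m))) = D.Dq m c := by
    rw [Dq]
    congr 1
    · apply Finset.prod_congr _ (fun _ _ => rfl)
      apply Finset.filter_congr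
      intro a _
      constructor
      · rintro ⟨h1, h2⟩; exact lt_of_le_of_ne h2 h1
      · intro h; exact ⟨h.ne, h.le⟩
    · apply Finset.prod_congr _ (fun _ _ => rfl)
      apply Finset.filter_congr
      intro a _
      constructor
      · rintro ⟨h1, h2⟩; exact lt_of_le_of_ne h2 (Ne.symm h1)
      · intro h; exact ⟨h.ne', h.le⟩
  have h2 : ∏ i ∈ Finset.univ \ Sk (D.wl m) (D.kl m) Finset.univ m,
      ti M (c * (D.wl m i ⬝ᵥ m + D.kl m i)) (D.wl m i) = D.TI M m c := by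
    have hS : Finset.univ \ Sk (D.wl m) (D.kl m) Finset.univ m =
        Finset.univ.filter (fun i => D.al i ⬝ᵥ m < 0) ∪
          Finset.univ.filter (fun i => 1 < D.al i ⬝ᵥ m) := by
      ext i
      simp only [Finset.mem_sdiff, Finset.mem_univ, true_and, Sk, Finset.mem_filter,
        Finset.mem_union]
      by_cases h : D.al i ⬝ᵥ m ≤ 0
      · rw [wl, kl, if_pos h, if_pos h, add_zero]
        constructor
        · intro h'; exact Or.inl (lt_of_le_of_ne h h')
        · rintro (h' | h')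
          · exact h'.ne
          · intro h''; linarith
      · rw [wl, kl, if_neg h, if_neg h, neg_dotProduct]
        have h3 : 1 ≤ D.al i ⬝ᵥ m := by
          rcases not_between (D.al_int i) hm with h' | h'
          · exact absurd h' h
          · exact h'
        constructor
        · intro h'
          refine Or.inr (lt_of_le_of_ne h3 ?_)
          intro h''
          apply h'
          rw [← h'']; norm_num
        · rintro (h' | h')
          · intro _; linarith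
          · intro h''; linarith
    have hdis : Disjoint (Finset.univ.filter (fun i => D.al i ⬝ᵥ m < 0))
        (Finset.univ.filter (fun i => 1 < D.al i ⬝ᵥ m)) := by
      rw [Finset.disjoint_left]
      intro i hi hj
      have h3 := (Finset.mem_filter.mp hi).2
      have h4 := (Finset.mem_filter.mp hj).2
      linarith
    have hA : ∏ i ∈ Finset.univ.filter (fun i => D.al i ⬝ᵥ m < 0),
        ti M (c * (D.wl m i ⬝ᵥ m + D.kl m i)) (D.wl m i) =
        ∏ i ∈ Finset.univ.filter (fun i => D.al i ⬝ᵥ m < 0),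
          ti M (c * (D.al i ⬝ᵥ m)) (D.al i) := by
      apply Finset.prod_congr rfl
      intro i hi
      have h : D.al i ⬝ᵥ m ≤ 0 := (Finset.mem_filter.mp hi).2.le
      have hw : D.wl m i = D.al i := if_pos h
      have hk : D.kl m i = 0 := if_pos h
      rw [hw, hk, add_zero]
    have hB : ∏ i ∈ Finset.univ.filter (fun i => 1 < D.al i ⬝ᵥ m),
        ti M (c * (D.wl m i ⬝ᵥ m + D.kl m i)) (D.wl m i) =
        ∏ i ∈ Finset.univ.filter (fun i => 1 < D.al i ⬝ᵥ m),
          ti M (c * (1 - D.al i ⬝ᵥ m)) (- D.al i) := by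
      apply Finset.prod_congr rfl
      intro i hi
      have h : ¬ D.al i ⬝ᵥ m ≤ 0 := by
        have := (Finset.mem_filter.mp hi).2
        intro h'; linarith
      have hw : D.wl m i = - D.al i := if_neg h
      have hk : D.kl m i = 1 := if_neg h
      rw [hw, hk, neg_dotProduct, neg_add_eq_sub]
    rw [hS, Finset.prod_union hdis, hA, hB]
    rfl
  rw [LT, Th, map_mul, map_mul, D.sh_Ed_split, h1, h2]
  congr 1
  ring

/-- the sum formula for the configuration of `m` -/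
theorem sum_LT {m : Vec r} (hm : IsInt m) {M : ℕ} (hM : n ≤ M) {L : Finset (Vec r)}
    (hL : ∀ q, D.Feas q → q ∈ L) (Z : Polynomial (Pol r)) :
    ∃ p : Polynomial ℚ, p.eval 0 = jf (D.wl m) D.xi Finset.univ (Z.eval 0) ∧
      ∀ c : ℚ, c ≠ 0 → ∑ q ∈ L, LT (D.wl m) (D.kl m) D.xi Finset.univ M c q (Z.eval (C c)) =
        p.eval c := by
  apply locU (D.Pnt_wl hm) (D.GX_wl m) hM _ Z
  intro B _ hd hF
  apply hL
  refine (D.kempf hm ?_ hd hF).1
  intro i hi
  rw [Sk, Finset.mem_filter]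
  exact ⟨Finset.mem_univ _, pt_spec hd (D.kl m) i hi⟩

end Datum

variable {D} {H : Type} [CommRing H] [Algebra ℚ H] {B : Vec r → Type} [∀ q, CommRing (B q)]
  [∀ q, Algebra ℚ (B q)] (Γ : Geo D H B)

namespace Geo

theorem res_ev {q : Vec r} (hq : D.Feas q) (X : Polynomial D.inv) (c : ℚ) (g : D.invq q)
    (hg : (g : Pol r) = sh (c • q) (D.ev X c)) :
    (Γ.res q (X.eval₂ Γ.kappa.toRingHom Γ.u)).eval (algebraMap ℚ (B q) c) = Γ.kap q g := by
  rw [D.ev_eq] at hg
  rw [← Γ.res_kappa q hq c _ g hg]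
  let Φ : H →+* B q := (Polynomial.evalRingHom (algebraMap ℚ (B q) c)).comp (Γ.res q).toRingHom
  have hΦ : ∀ h : H, (Γ.res q h).eval (algebraMap ℚ (B q) c) = Φ h := fun h => rfl
  have h1 : Γ.kappa (X.eval (algebraMap ℚ D.inv c)) =
      X.eval₂ Γ.kappa.toRingHom (algebraMap ℚ H c) := by
    have h2 : algebraMap ℚ H c = Γ.kappa.toRingHom (algebraMap ℚ D.inv c) :=
      (Γ.kappa.commutes c).symm
    rw [h2, Polynomial.eval₂_at_apply]
    rfl
  rw [h1, hΦ, hΦ, Polynomial.hom_eval₂, Polynomial.hom_eval₂]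
  congr 1
  have h3 : Φ Γ.u = algebraMap ℚ (B q) c := by
    rw [← hΦ, Γ.res_u q hq, Polynomial.eval_X]
  have h4 : Φ (algebraMap ℚ H c) = algebraMap ℚ (B q) c := by
    rw [← hΦ, AlgHom.commutes, Polynomial.algebraMap_apply, Polynomial.eval_C]
  rw [h3, h4]

/-- polynomial functions on `ℚ` with values in a `ℚ`-algebra agree at `0` if they agree elsewhere -/
theorem int_eval {q : Vec r} (f : Polynomial (B q)) (Y : Polynomial (B q)) :
    ∃ p : Polynomial ℚ, ∀ c : ℚ, p.eval c =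
      Γ.int q (f.eval (algebraMap ℚ (B q) c) * Y.eval (algebraMap ℚ (B q) c)) := by
  refine ⟨∑ i ∈ Finset.range ((f * Y).natDegree + 1),
    Polynomial.monomial i (Γ.int q ((f * Y).coeff i)), ?_⟩
  intro c
  rw [← Polynomial.eval_mul, Polynomial.eval_finsetSum, Polynomial.eval_eq_sum_range, map_sum]
  apply Finset.sum_congr rfl
  intro i _
  rw [Polynomial.eval_monomial, ← map_pow, mul_comm ((f * Y).coeff i), ← Algebra.smul_def,
    map_smul, smul_eq_mul, mul_comm]

end Geo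

end LibHK51
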