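import Pool.Agent.LibHK51.THa

/-! Row GC2: shifts by a variable multiple. Uses only the statement of `sh_lf`, Mathlib.

`sh_sh` on generators. `shp_ex`: `Yp = aeval (fun j => Polynomial.C (X j) - Polynomial.X *
Polynomial.C (C (m j))) y` in `Polynomial (Pol r)` (as a `ℚ`-algebra); check on generators.
`poly_eq_zero`: infinitely many rational zeros. -/

namespace LibHK51

open MvPolynomial

variable {r : ℕ}

theorem sh_sh (p q : Vec r) (y : Pol r) : sh p (sh q y) = sh (p + q) y := by
  have h : (sh p).comp (sh q) = sh (p + q) := by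
    apply MvPolynomial.algHom_ext
    intro j
    simp only [sh, AlgHom.comp_apply, aeval_X, map_add, Pi.add_apply]
    have h1 : aeval (fun j => X j + C (p j)) (C (q j) : Pol r) = (C (q j) : Pol r) := by
      rw [aeval_C]; rfl
    rw [h1]
    ring
  exact DFunLike.congr_fun h y

theorem sh_zero (y : Pol r) : sh 0 y = y := by
  have h : (sh (0 : Vec r)) = AlgHom.id ℚ (Pol r) := by
    apply MvPolynomial.algHom_ext
    intro j
    simp [sh]
  rw [h]; rfl

theorem sh_smul_neg (c : ℚ) (m : Vec r) (y : Pol r) : sh (c • m) (sh (-(c • m)) y) = y := by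
  rw [sh_sh, add_neg_cancel, sh_zero]

theorem shp_ex (m : Vec r) (y : Pol r) : ∃ Y : Polynomial (Pol r),
    ∀ c : ℚ, Y.eval (C c) = sh (-(c • m)) y := by
  refine ⟨aeval (fun j => Polynomial.C (X j) - Polynomial.X *
    Polynomial.C (C (m j))) y, fun c => ?_⟩
  induction y using MvPolynomial.induction_on with
  | C a =>
    rw [aeval_C, sh, aeval_C]
    have h1 : algebraMap ℚ (Polynomial (Pol r)) a = Polynomial.C (C a) := rfl
    rw [h1, Polynomial.eval_C]; rfl
  | add p q hp hq => rw [map_add, map_add, Polynomial.eval_add, hp, hq]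
  | mul_X p i hp =>
    rw [map_mul, map_mul, Polynomial.eval_mul, hp, aeval_X]
    congr 1
    simp only [sh, aeval_X, Polynomial.eval_sub, Polynomial.eval_mul, Polynomial.eval_C,
      Polynomial.eval_X, Pi.neg_apply, Pi.smul_apply, smul_eq_mul, map_neg, map_mul]
    ring

theorem poly_eq_of {p q : Polynomial ℚ} (h : ∀ c : ℚ, c ≠ 0 → p.eval c = q.eval c) : p = q := by
  apply Polynomial.eq_of_infinite_eval_eq
  apply Set.Infinite.mono (s := {c : ℚ | c ≠ 0})
  · intro c hc; exact h c hc
  · have : ({c : ℚ | c ≠ 0}) = ({0} : Set ℚ)ᶜ := by ext; simp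
    rw [this]
    exact (Set.finite_singleton 0).infinite_compl

end LibHK51
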