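import Pool.Agent.LibHK51.GC
import Pool.Agent.LibHK51.GC2

/-! Row GD: the key formula and surjectivity for the fixed components. Uses only the statements of the
earlier files.

`kf`. Let `h = X(kappa, u)`, `L = Feas_fin.toFinset`, `M ≥ n, M0` (`kap_NqTI`), `Y` from `shp_ex m y`,
`Z = X.map _ * Y * Ed m`, `p` from `sum_LT`. Let `c ≠ 0`, `q ∈ L`.
* `q ≠ m`: if no feasible basis is contained in `Sk (wl m) (kl m) univ q`, the term is `0`
  (`LT_eq_zero`). Otherwise `kempf` gives `xi ⬝ᵥ m < xi ⬝ᵥ q`, so `res q h = 0`, so (`res_ev`) the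
  class `kap q (sh (c q) (ev X c))` is `0` and the term `Th q m (sh (c q) (ev X c) * R)` (`LT_Th`)
  vanishes by `int2`.
* `q = m`: by `LT_Th_self`, `sh_smul_neg` the term is `Th m m (sh (c m) (ev X c) * (y * (Dq * TI)))`,
  by `int1` it is `|stab| * int (kap (sh (c m) (ev X c)) * kap y * kap Dq * kap TI)`, and
  `kap (sh ..) = eu(c) f(c)` (`res_ev`, `hf`), `eu(c) kap Dq = kap Nq` (`eu_eq`), `kap Nq * kap TI = 1`
  (`kap_NqTI`): it is `|stab| * int (f(c) * kap y)`.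
So `p(c) = |stab| * int (f(c) * kap y)` for `c ≠ 0`, hence for `c = 0` (`int_eval`, `poly_eq_of`); and
`p(0) = jf (X(0) * y * Ed(0))`, `Ed(0) = ± et` (`Ed_zero`).

`kap_surj`: `ab2` for the constant polynomial `b` gives `h` with `res q h = eu q * C b`, `h = X(kappa,u)`
by surjectivity; at `c = 1`: `kap (sh q (ev X 1)) = eu(1) * b`; multiply by `kap Dq * kap TI`. -/

namespace LibHK51

open MvPolynomial

open scoped Classical

variable {W : Type} [Group W] [Fintype W] {r n : ℕ} {D : Datum W r n} {H : Type} [CommRing H]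
  [Algebra ℚ H] {B : Vec r → Type} [∀ q, CommRing (B q)] [∀ q, Algebra ℚ (B q)] (Γ : Geo D H B)

namespace Geo

/-- Kirwan surjectivity: `H` is generated by the tautological classes and `u` -/
def Surj : Prop := ∀ h : H, ∃ X : Polynomial D.inv, h = X.eval₂ Γ.kappa.toRingHom Γ.u

/-- the local terms away from the component of `m` vanish -/
private theorem term_zero {m : Vec r} (hmI : IsInt m) (X : Polynomial D.inv) (M : ℕ) (c : ℚ)
    (q : Vec r) (hz : D.Feas q → (D.xi ⬝ᵥ m < D.xi ⬝ᵥ q ∨ q = m) →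
      Γ.res q (X.eval₂ Γ.kappa.toRingHom Γ.u) = 0) (Y : Pol r) :
    LT (D.wl m) (D.kl m) D.xi Finset.univ M c q (D.ev X c * Y * (D.Ed m).eval (C c)) = 0 := by
  by_cases hB : ∀ B ⊆ Sk (D.wl m) (D.kl m) Finset.univ q, dt (D.wl m) B ≠ 0 →
      ¬ Fe (D.wl m) D.xi B
  · exact LT_eq_zero M c hB _
  · push Not at hB
    obtain ⟨B, hBs, hBd, hBF⟩ := hB
    obtain ⟨hq, hlt⟩ := D.kempf hmI hBs hBd hBF
    obtain ⟨R, hR⟩ := D.LT_Th M c q m (D.ev X c) Y
    rw [hR]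
    have h1 := Γ.res_ev hq X c ⟨sh (c • q) (D.ev X c), D.sh_mem q c (D.ev_mem X c)⟩ rfl
    rw [hz hq hlt, Polynomial.eval_zero] at h1
    exact Γ.int2 q hq m hmI ⟨sh (c • q) (D.ev X c), D.sh_mem q c (D.ev_mem X c)⟩ h1.symm R

theorem kf {m : Vec r} (hm : D.Feas m) (X : Polynomial D.inv)
    (hz : ∀ p, D.Feas p → D.xi ⬝ᵥ m < D.xi ⬝ᵥ p →
      Γ.res p (X.eval₂ Γ.kappa.toRingHom Γ.u) = 0)
    (f : Polynomial (B m)) (hf : Γ.res m (X.eval₂ Γ.kappa.toRingHom Γ.u) = Γ.eu m * f)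
    (y : D.invq m) : ∃ ε : ℚ, (ε = 1 ∨ ε = -1) ∧
      ε * jf (D.wl m) D.xi Finset.univ (((X.coeff 0 : D.inv) : Pol r) * y * D.et) =
        (D.stab m).card * Γ.int m (f.eval 0 * Γ.kap m y) := by
  have hmI : IsInt m := D.Feas_int hm
  obtain ⟨M0, hM0⟩ := Γ.kap_NqTI hm
  obtain ⟨Y, hY⟩ := shp_ex m (y : Pol r)
  obtain ⟨ε, hε, hEd⟩ := D.Ed_zero hmI
  refine ⟨ε, hε, ?_⟩
  obtain ⟨p, hp0, hp⟩ := D.sum_LT hmI (le_max_left n M0) (L := D.Feas_fin.toFinset)
    (fun q hq => by simpa using hq) (X.map (algebraMap D.inv (Pol r)) * Y * D.Ed m)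
  obtain ⟨P, hP⟩ := Γ.int_eval f (Polynomial.C (Γ.kap m y))
  have key : ∀ c : ℚ, c ≠ 0 → p.eval c =
      (Polynomial.C ((D.stab m).card : ℚ) * P).eval c := by
    intro c hc
    rw [← hp c hc]
    have hterm : ∀ q, LT (D.wl m) (D.kl m) D.xi Finset.univ (max n M0) c q
        ((X.map (algebraMap D.inv (Pol r)) * Y * D.Ed m).eval (C c)) =
        LT (D.wl m) (D.kl m) D.xi Finset.univ (max n M0) c q
          (D.ev X c * Y.eval (C c) * (D.Ed m).eval (C c)) := by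
      intro q
      rw [Polynomial.eval_mul, Polynomial.eval_mul]
      rfl
    rw [Finset.sum_eq_single m]
    · rw [hterm, D.LT_Th_self _ _ hmI, hY, sh_smul_neg]
      rw [Polynomial.eval_mul, Polynomial.eval_C, hP, Polynomial.eval_C]
      have e1 := Γ.int1 m hm
        (⟨sh (c • m) (D.ev X c), D.sh_mem m c (D.ev_mem X c)⟩ *
          (y * (⟨D.Dq m c, D.Dq_mem m c⟩ * ⟨D.TI (max n M0) m c, D.TI_mem _ m c⟩)))
      have e2 : (((⟨sh (c • m) (D.ev X c), D.sh_mem m c (D.ev_mem X c)⟩ *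
          (y * (⟨D.Dq m c, D.Dq_mem m c⟩ * ⟨D.TI (max n M0) m c, D.TI_mem _ m c⟩)) : D.invq m)) :
            Pol r) = sh (c • m) (D.ev X c) * ((y : Pol r) * (D.Dq m c * D.TI (max n M0) m c)) :=
        rfl
      rw [e2] at e1
      rw [e1]
      congr 2
      rw [map_mul, map_mul, map_mul, ← Γ.res_ev hm X c
        ⟨sh (c • m) (D.ev X c), D.sh_mem m c (D.ev_mem X c)⟩ rfl, hf, Polynomial.eval_mul]
      have e3 := Γ.eu_eq m hm c ⟨D.Dq m c, D.Dq_mem m c⟩ ⟨D.Nq m c, D.Nq_mem m c⟩ rfl rfl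
      have e4 := hM0 (max n M0) (le_max_right _ _) c hc ⟨D.Nq m c, D.Nq_mem m c⟩
        ⟨D.TI (max n M0) m c, D.TI_mem _ m c⟩ rfl rfl
      linear_combination (Polynomial.eval (algebraMap ℚ (B m) c) f * Γ.kap m y) *
        (Γ.kap m ⟨D.TI (max n M0) m c, D.TI_mem _ m c⟩) * e3 +
        (Polynomial.eval (algebraMap ℚ (B m) c) f * Γ.kap m y) * e4
    · intro q _ hqm
      rw [hterm]
      apply Γ.term_zero hmI X
      intro hq hor
      rcases hor with h | h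
      · exact hz q hq h
      · exact absurd h hqm
    · intro hmem
      exact absurd (by simpa using hm) hmem
  have hpP := poly_eq_of key
  have h0 := congrArg (Polynomial.eval 0) hpP
  rw [hp0, Polynomial.eval_mul, Polynomial.eval_mul, hEd, Polynomial.eval_mul, Polynomial.eval_C,
    hP] at h0
  have hX0 : (X.map (algebraMap D.inv (Pol r))).eval 0 = ((X.coeff 0 : D.inv) : Pol r) := by
    rw [← Polynomial.coeff_zero_eq_eval_zero, Polynomial.coeff_map]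
    rfl
  have hY0 : Y.eval 0 = (y : Pol r) := by
    have := hY 0
    rw [zero_smul, neg_zero, sh_zero, map_zero] at this
    exact this
  rw [hX0, hY0, show ((X.coeff 0 : D.inv) : Pol r) * (y : Pol r) * (C ε * D.et) =
    C ε * (((X.coeff 0 : D.inv) : Pol r) * (y : Pol r) * D.et) by ring, jf_smul] at h0
  rw [h0, map_zero, Polynomial.eval_C]

theorem kap_surj (hS : Γ.Surj) {q : Vec r} (hq : D.Feas q) (b : B q) :
    ∃ y : D.invq q, Γ.kap q y = b := by
  obtain ⟨M0, hM0⟩ := Γ.kap_NqTI hq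
  obtain ⟨h, hh, -⟩ := Γ.ab2 q hq (Polynomial.C b)
  obtain ⟨X, rfl⟩ := hS h
  have e1 := Γ.res_ev hq X 1 ⟨sh ((1 : ℚ) • q) (D.ev X 1), D.sh_mem q 1 (D.ev_mem X 1)⟩ rfl
  rw [hh, Polynomial.eval_mul, Polynomial.eval_C] at e1
  have e3 := Γ.eu_eq q hq 1 ⟨D.Dq q 1, D.Dq_mem q 1⟩ ⟨D.Nq q 1, D.Nq_mem q 1⟩ rfl rfl
  have e4 := hM0 M0 le_rfl 1 one_ne_zero ⟨D.Nq q 1, D.Nq_mem q 1⟩
    ⟨D.TI M0 q 1, D.TI_mem _ q 1⟩ rfl rfl
  refine ⟨⟨sh ((1 : ℚ) • q) (D.ev X 1), D.sh_mem q 1 (D.ev_mem X 1)⟩ * (⟨D.Dq q 1, D.Dq_mem q 1⟩ *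
    ⟨D.TI M0 q 1, D.TI_mem _ q 1⟩), ?_⟩
  rw [map_mul, map_mul, ← e1]
  linear_combination (b * Γ.kap q ⟨D.TI M0 q 1, D.TI_mem _ q 1⟩) * e3 + b * e4

/-- classes divisible by `u` have vanishing integrals against `et` -/
theorem dir1 (hS : Γ.Surj) (x : D.inv) (hx : Γ.kappa x ∈ Ideal.span {Γ.u}) {m : Vec r}
    (hm : IsInt m) (y : Pol r) :
    jf (D.wl m) D.xi Finset.univ ((x : Pol r) * y * D.et) = 0 := by
  obtain ⟨h, hh⟩ := Ideal.mem_span_singleton.mp hx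
  obtain ⟨X', hX'⟩ := hS h
  obtain ⟨ε, hε, hEd⟩ := D.Ed_zero hm
  set X : Polynomial D.inv := Polynomial.C x - Polynomial.X * X' with hXdef
  have hX0 : X.eval₂ Γ.kappa.toRingHom Γ.u = 0 := by
    rw [hXdef, Polynomial.eval₂_sub, Polynomial.eval₂_mul, Polynomial.eval₂_C, Polynomial.eval₂_X,
      ← hX']
    have : Γ.kappa.toRingHom x = Γ.kappa x := rfl
    rw [this, hh]; ring
  obtain ⟨p, hp0, hp⟩ := D.sum_LT hm le_rfl (L := D.Feas_fin.toFinset)
    (fun q hq => by simpa using hq)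
    (X.map (algebraMap D.inv (Pol r)) * Polynomial.C y * D.Ed m)
  have key : ∀ c : ℚ, c ≠ 0 → p.eval c = (0 : Polynomial ℚ).eval c := by
    intro c hc
    rw [← hp c hc, Polynomial.eval_zero]
    apply Finset.sum_eq_zero
    intro q _
    rw [Polynomial.eval_mul, Polynomial.eval_mul]
    apply Γ.term_zero hm X
    intro _ _
    rw [hX0, map_zero]
  have h0 := congrArg (Polynomial.eval 0) (poly_eq_of key)
  rw [hp0, Polynomial.eval_zero, Polynomial.eval_mul, Polynomial.eval_mul, hEd] at h0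
  have hXc : (X.map (algebraMap D.inv (Pol r))).eval 0 = (x : Pol r) := by
    rw [← Polynomial.coeff_zero_eq_eval_zero, Polynomial.coeff_map]
    have : X.coeff 0 = x := by simp [hXdef]
    rw [this]; rfl
  rw [hXc, Polynomial.eval_C, show (x : Pol r) * y * (C ε * D.et) =
    C ε * ((x : Pol r) * y * D.et) by ring, jf_smul] at h0
  rcases hε with h | h <;> rw [h] at h0 <;> linarith

end Geo

end LibHK51
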