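import Pool.Agent.LibHK51.TL

/-! Row GF: the lowest stratum on which a class does not vanish modulo `u`. Uses only `Geo`,
`Feas_fin`, `Feas_tact`, `xi_tact`.

Let `L = Feas_fin.toFinset`. For a finset `T ⊆ L` which is upper closed (`p ∈ T`, `p' ∈ L`,
`xi·p < xi·p'` imply `p' ∈ T`) show: either the conclusion holds or there is `h` with
`x = h + u h'` and `res p h = 0` for all `p ∈ T`. Induction with `Finset.induction_on_min_value`
(`insert a s` with `xi·a ≤ xi·y` for `y ∈ s`; if `insert a s` is upper closed so is `s`). For `s` we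
have `h`. All `p ∈ L` with `xi·a < xi·p` are in `s`, so `ab1` applies: `res a h = eu a * f`. If
`f.eval 0 ≠ 0` the conclusion holds. Otherwise `f = X * f'`; take `h''` from `ab2 a f'` and replace `h`
by `h - u h''`: `res a (h - u h'') = eu * X f' - X * eu f' = 0` (`res_u`); for `p ∈ s`: if
`p = g a` use `res_W`; otherwise `res p h'' = 0` by `ab2` and `res p h = 0`.
For `T = L`: `res p h = 0` for all feasible `p`, so `h = 0` (`inj`) and `x = u h'`, a contradiction. -/

namespace LibHK51

open MvPolynomial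

open scoped Classical

variable {W : Type} [Group W] [Fintype W] {r n : ℕ} {D : Datum W r n} {H : Type} [CommRing H]
  [Algebra ℚ H] {B : Vec r → Type} [∀ q, CommRing (B q)] [∀ q, Algebra ℚ (B q)] (Γ : Geo D H B)

namespace Geo

theorem lattice (x : H) (hx : x ∉ Ideal.span {Γ.u}) : ∃ q, D.Feas q ∧ ∃ h h' : H,
    x = h + Γ.u * h' ∧
    (∀ p, D.Feas p → D.xi ⬝ᵥ q < D.xi ⬝ᵥ p → Γ.res p h = 0) ∧
    ∃ f, Γ.res q h = Γ.eu q * f ∧ f.eval 0 ≠ 0 := by
  have key : ∀ T : Finset (Vec r), T ⊆ D.Feas_fin.toFinset →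
      (∀ p ∈ T, ∀ p' ∈ D.Feas_fin.toFinset, D.xi ⬝ᵥ p < D.xi ⬝ᵥ p' → p' ∈ T) →
      (∃ q, D.Feas q ∧ ∃ h h' : H, x = h + Γ.u * h' ∧
        (∀ p, D.Feas p → D.xi ⬝ᵥ q < D.xi ⬝ᵥ p → Γ.res p h = 0) ∧
        ∃ f, Γ.res q h = Γ.eu q * f ∧ f.eval 0 ≠ 0) ∨
      ∃ h h' : H, x = h + Γ.u * h' ∧ ∀ p ∈ T, Γ.res p h = 0 := by
    intro T
    induction T using Finset.induction_on_min_value (fun p : Vec r => D.xi ⬝ᵥ p) with
    | empty =>
      intro _ _
      exact Or.inr ⟨x, 0, by simp, by simp⟩
    | insert a s ha hmin ih =>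
      intro hsub hup
      have hsub' : s ⊆ D.Feas_fin.toFinset := fun p hp => hsub (Finset.mem_insert_of_mem hp)
      have haF : D.Feas a := by
        have := hsub (Finset.mem_insert_self a s)
        simpa using this
      have hup' : ∀ p ∈ s, ∀ p' ∈ D.Feas_fin.toFinset, D.xi ⬝ᵥ p < D.xi ⬝ᵥ p' → p' ∈ s := by
        intro p hp p' hp' hlt
        rcases Finset.mem_insert.mp (hup p (Finset.mem_insert_of_mem hp) p' hp' hlt) with h | h
        · subst h
          exact absurd (hmin p hp) (not_le.mpr hlt)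
        · exact h
      rcases ih hsub' hup' with h | ⟨h, h', hx', hv⟩
      · exact Or.inl h
      · have hab : ∀ p, D.Feas p → D.xi ⬝ᵥ a < D.xi ⬝ᵥ p → Γ.res p h = 0 := by
          intro p hp hlt
          have hpL : p ∈ D.Feas_fin.toFinset := by simpa using hp
          rcases Finset.mem_insert.mp (hup a (Finset.mem_insert_self a s) p hpL hlt) with h1 | h1
          · subst h1; exact absurd hlt (lt_irrefl _)
          · exact hv p h1
        obtain ⟨f, hf⟩ := Γ.ab1 a haF h hab
        by_cases h0 : f.eval 0 = 0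
        · right
          have hdvd : Polynomial.X ∣ f := by
            rw [Polynomial.X_dvd_iff, Polynomial.coeff_zero_eq_eval_zero]; exact h0
          obtain ⟨f', rfl⟩ := hdvd
          obtain ⟨k, hk1, hk2⟩ := Γ.ab2 a haF f'
          have hva : Γ.res a (h - Γ.u * k) = 0 := by
            rw [map_sub, map_mul, Γ.res_u a haF, hf, hk1]; ring
          refine ⟨h - Γ.u * k, h' + k, by rw [hx']; ring, ?_⟩
          intro p hp
          rcases Finset.mem_insert.mp hp with h1 | h1
          · rw [h1]; exact hva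
          · by_cases hg : ∃ g, p = D.tact g a
            · obtain ⟨g, rfl⟩ := hg
              exact Γ.res_W g a haF _ hva
            · have hpF : D.Feas p := by
                have := hsub' h1
                simpa using this
              have hk0 : Γ.res p k = 0 :=
                hk2 p hpF (hmin p h1) (fun g h2 => hg ⟨g, h2⟩)
              rw [map_sub, map_mul, hk0, hv p h1]; ring
        · exact Or.inl ⟨a, haF, h, h', hx', hab, f, hf, h0⟩
  rcases key D.Feas_fin.toFinset (Finset.Subset.refl _) (fun p _ p' hp' _ => hp') with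
    h | ⟨h, h', hx', hv⟩
  · exact h
  · exfalso
    apply hx
    have h0 : h = 0 := Γ.inj h (fun q hq => hv q (by simpa using hq))
    rw [hx', h0, zero_add]
    exact Ideal.mem_span_singleton.mpr (Dvd.intro _ rfl)

end Geo

end LibHK51
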