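import Pool.Agent.LibHK51.Defs

/-!
# LibHK51, the datum of `(A, G, T, ξ)` and the localisation data of `T^*A////G`
-/

namespace LibHK51

open MvPolynomial

open scoped Classical

/-- The combinatorial datum of a representation `A` of a compact group `G` with maximal torus `T`,
Weyl group `W` and a central parameter `xi`. -/
structure Datum (W : Type) [Group W] [Fintype W] (r n : ℕ) where
  /-- the weights of `A` -/
  al : Fin n → Vec r
  /-- the roots of `G` -/
  roots : Finset (Vec r)
  /-- the action of the Weyl group on `𝔱*` -/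
  M : W →* Matrix (Fin r) (Fin r) ℚ
  /-- the parameter of the quotients, a central element of `𝔤*` -/
  xi : Vec r
  al_int : ∀ i, IsInt (al i)
  roots_int : ∀ a ∈ roots, IsInt a
  al_perm : ∀ g : W, ∃ σ : Equiv.Perm (Fin n), ∀ i, (M g).mulVec (al i) = al (σ i)
  roots_perm : ∀ g : W, ∀ a ∈ roots, (M g).mulVec a ∈ roots
  xi_fix : ∀ g : W, (M g).mulVec xi = xi
  /-- `T^*A////T` is smooth: the weights are unimodular -/
  unimod : ∀ B : Finset (Fin n), dt al B ≠ 0 → dt al B = 1
  /-- `xi` is generic for `T` -/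
  generic : GX al xi Finset.univ
  /-- `ℂ[A]^T = ℂ` -/
  pointed : Pnt al Finset.univ

namespace Datum

variable {W : Type} [Group W] [Fintype W] {r n : ℕ} (D : Datum W r n)

/-- the action of `W` on `Sym 𝔱*` -/
noncomputable def act (g : W) : Pol r →ₐ[ℚ] Pol r := aeval (fun j => lf (fun i => D.M g i j))

/-- the action of `W` on `𝔱` -/
noncomputable def tact (g : W) (q : Vec r) : Vec r := Matrix.vecMul q (D.M g⁻¹)

/-- the stabiliser of `q` -/
noncomputable def stab (q : Vec r) : Finset W := Finset.univ.filter (fun g => D.tact g q = q)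

/-- `(Sym 𝔱*)^W` -/
def inv : Subalgebra ℚ (Pol r) where
  carrier := {f | ∀ g : W, D.act g f = f}
  mul_mem' := fun {a b} ha hb g => by rw [map_mul, ha g, hb g]
  add_mem' := fun {a b} ha hb g => by rw [map_add, ha g, hb g]
  algebraMap_mem' := fun c g => by rw [AlgHom.commutes]

/-- the invariants of the stabiliser of `q` in `Sym 𝔱*` -/
def invq (q : Vec r) : Subalgebra ℚ (Pol r) where
  carrier := {f | ∀ g : W, D.tact g q = q → D.act g f = f}
  mul_mem' := fun {a b} ha hb g hg => by rw [map_mul, ha g hg, hb g hg]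
  add_mem' := fun {a b} ha hb g hg => by rw [map_add, ha g hg, hb g hg]
  algebraMap_mem' := fun c g _ => by rw [AlgHom.commutes]

/-- the product of the roots -/
noncomputable def et : Pol r := ∏ a ∈ D.roots, lf a

/-- The fixed components of the circle on `T^*A////T` are indexed by the cocharacters `q` such that
`xi` lies in the open cone over linearly independent weights of the zero weight space of `T^*A`
for the circle action twisted by `q` (weights `a_i · q` on `A`, `1 - a_i · q` on `A*`). -/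
def Feas (q : Vec r) : Prop :=
  ∃ (B : Finset (Fin n)) (c : Fin n → ℚ), dt D.al B ≠ 0 ∧
    (∀ i ∈ B, (D.al i ⬝ᵥ q = 0 ∧ 0 < c i) ∨ (D.al i ⬝ᵥ q = 1 ∧ c i < 0)) ∧
    ∑ i ∈ B, c i • D.al i = D.xi

/-- the weights of the Lagrangian subspace `V^{≤ 0}` of `T^*A` of weights `≤ 0` for the circle action
twisted by `m`: `a_i` if `a_i · m ≤ 0`, and `-a_i` if `a_i · m ≥ 1` -/
noncomputable def wl (m : Vec r) (i : Fin n) : Vec r := if D.al i ⬝ᵥ m ≤ 0 then D.al i else - D.al i

/-- the weight of the fibre scaling circle on the corresponding coordinate (`0` on `A`, `1` on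
`A*`) -/
noncomputable def kl (m : Vec r) (i : Fin n) : ℚ := if D.al i ⬝ᵥ m ≤ 0 then 0 else 1

/-- the Euler class of the equations and of the roots for the cycle of `m` over the component of
`q` -/
noncomputable def El (q m : Vec r) : Pol r :=
  (∏ a ∈ D.roots.filter (fun a => a ⬝ᵥ q = 0 ∧ a ⬝ᵥ m ≤ 0), lf a) *
    ∏ a ∈ D.roots.filter (fun a => a ⬝ᵥ q = 1 ∧ 1 ≤ a ⬝ᵥ m), (- lf a)

/-- the abelianised integral over the cycle of `m` over the component of `q` -/
noncomputable def Th (q m : Vec r) (z : Pol r) : ℚ :=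
  jf (D.wl m) D.xi (Sk (D.wl m) (D.kl m) Finset.univ q) (z * D.El q m)

/-- the negative weights of `T^*A` at the component of `q`, evaluated at `u = c` -/
noncomputable def Nq (q : Vec r) (c : ℚ) : Pol r :=
  (∏ i ∈ Finset.univ.filter (fun i => D.al i ⬝ᵥ q < 0), (lf (D.al i) + C (c * (D.al i ⬝ᵥ q)))) *
    ∏ i ∈ Finset.univ.filter (fun i => 1 < D.al i ⬝ᵥ q),
      (- lf (D.al i) + C (c * (1 - D.al i ⬝ᵥ q)))

/-- the negative weights of `𝔤 ⊕ 𝔤*` at the component of `q`, evaluated at `u = c` -/
noncomputable def Dq (q : Vec r) (c : ℚ) : Pol r :=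
  (∏ a ∈ D.roots.filter (fun a => a ⬝ᵥ q < 0), (lf a + C (c * (a ⬝ᵥ q)))) *
    ∏ a ∈ D.roots.filter (fun a => 1 < a ⬝ᵥ q), (- lf a + C (c * (1 - a ⬝ᵥ q)))

end Datum

/-- Localisation data of `M = T^*A////G` with the circle scaling the fibres: `H = H_{U(1)}(M)` and
`B q = H(F_q)`, `F_q` the fixed component of `q`. -/
structure Geo {W : Type} [Group W] [Fintype W] {r n : ℕ} (D : Datum W r n)
    (H : Type) [CommRing H] [Algebra ℚ H]
    (B : Vec r → Type) [∀ q, CommRing (B q)] [∀ q, Algebra ℚ (B q)] where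
  /-- the equivariant parameter -/
  u : H
  /-- the Kirwan map of `M` -/
  kappa : D.inv →ₐ[ℚ] H
  /-- the Kirwan map of `F_q` -/
  kap : ∀ q, D.invq q →ₐ[ℚ] B q
  /-- the integral over `F_q` -/
  int : ∀ q, B q →ₗ[ℚ] ℚ
  /-- the restriction to `F_q` -/
  res : ∀ q, H →ₐ[ℚ] Polynomial (B q)
  /-- the Euler class of the negative normal bundle of `F_q` -/
  eu : ∀ q, Polynomial (B q)
  /-- Poincaré duality -/
  int_nd : ∀ q, D.Feas q → ∀ b, (∀ b', int q (b * b') = 0) → b = 0
  /-- `H(F_q)` vanishes in high degree -/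
  kap_top : ∀ q, D.Feas q → ∃ N : ℕ, ∀ f : D.invq q, ∀ d, N ≤ d →
    (f : Pol r).IsHomogeneous d → kap q f = 0
  /-- restriction of the equivariant parameter -/
  res_u : ∀ q, D.Feas q → res q u = Polynomial.X
  /-- restriction of tautological classes -/
  res_kappa : ∀ q, D.Feas q → ∀ (c : ℚ) (f : D.inv) (g : D.invq q),
    (g : Pol r) = sh (c • q) (f : Pol r) →
    (res q (kappa f)).eval (algebraMap ℚ (B q) c) = kap q g
  /-- `F_q` and `F_{g q}` are the same component -/
  res_W : ∀ (g : W) (q : Vec r), D.Feas q → ∀ h, res q h = 0 → res (D.tact g q) h = 0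
  /-- injectivity of the restriction to the fixed components -/
  inj : ∀ h, (∀ q, D.Feas q → res q h = 0) → h = 0
  /-- the Euler class in terms of the weights of `T^*A` and of `𝔤 ⊕ 𝔤*` -/
  eu_eq : ∀ q, D.Feas q → ∀ (c : ℚ) (x y : D.invq q), (x : Pol r) = D.Dq q c →
    (y : Pol r) = D.Nq q c → (eu q).eval (algebraMap ℚ (B q) c) * kap q x = kap q y
  /-- a class which vanishes on the lower strata restricts to a multiple of the Euler class -/
  ab1 : ∀ q, D.Feas q → ∀ h, (∀ p, D.Feas p → D.xi ⬝ᵥ q < D.xi ⬝ᵥ p → res p h = 0) →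
    ∃ f, res q h = eu q * f
  /-- perfection: every multiple of the Euler class lifts to a class which vanishes on the lower
  strata and on the other components of the same level -/
  ab2 : ∀ q, D.Feas q → ∀ f, ∃ h, res q h = eu q * f ∧
    ∀ p, D.Feas p → D.xi ⬝ᵥ q ≤ D.xi ⬝ᵥ p → (∀ g, p ≠ D.tact g q) → res p h = 0
  /-- the integration formula for `F_q` -/
  int1 : ∀ q, D.Feas q → ∀ x : D.invq q, D.Th q q x = (D.stab q).card * int q (kap q x)
  /-- the integration formula for the cycles over `F_q`: they do not see classes which vanish on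
  `F_q` -/
  int2 : ∀ q, D.Feas q → ∀ m, IsInt m → ∀ x : D.invq q, kap q x = 0 → ∀ y : Pol r,
    D.Th q m (x * y) = 0

end LibHK51
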