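import Pool.Agent.LibHK51.GA

/-! # LibHK51: the ring `H(T^*A////T)` with its Weyl group action -/

namespace LibHK51

open MvPolynomial

open scoped Classical

variable {W : Type} [Group W] [Fintype W] {r n : ℕ} (D : Datum W r n)

namespace Datum

/-- the ideal of relations of the hypertoric variety `T^*A////T` -/
noncomputable def I : Ideal (Pol r) := I0 D.al Finset.univ

/-- the cohomology ring of the hypertoric variety `T^*A////T` -/
abbrev R0 : Type := Pol r ⧸ D.I

theorem act_gen (g : W) (η : Vec r) :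
    D.act g (∏ i ∈ Finset.univ.filter (fun i => D.al i ⬝ᵥ η ≠ 0), lf (D.al i)) =
      ∏ i ∈ Finset.univ.filter (fun i => D.al i ⬝ᵥ D.tact g η ≠ 0), lf (D.al i) := by
  obtain ⟨σ, hσ⟩ := D.al_perm g
  rw [map_prod]
  apply Finset.prod_bij (fun i _ => σ i)
  · intro i hi
    simp only [Finset.mem_filter, Finset.mem_univ, true_and] at hi ⊢
    rw [← hσ i, D.pair]
    exact hi
  · intro i _ j _ h
    exact σ.injective h
  · intro j hj
    refine ⟨σ.symm j, ?_, by simp⟩
    simp only [Finset.mem_filter, Finset.mem_univ, true_and] at hj ⊢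
    have := D.pair g (D.al (σ.symm j)) η
    rw [hσ, Equiv.apply_symm_apply] at this
    rw [← this]
    exact hj
  · intro i _
    rw [D.act_lf, hσ i]

theorem tact_ne (g : W) {η : Vec r} (h : η ≠ 0) : D.tact g η ≠ 0 := by
  intro h0
  apply h
  have h1 : D.tact g⁻¹ (D.tact g η) = η := by
    rw [← D.tact_mul, inv_mul_cancel, D.tact_one]
  rw [← h1, h0]
  simp [tact]

theorem I_act (g : W) : D.I ≤ Ideal.comap (D.act g).toRingHom D.I := by
  rw [I, I0, Ideal.span_le]
  rintro _ ⟨η, hη, rfl⟩
  rw [SetLike.mem_coe, Ideal.mem_comap]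
  have h1 := D.act_gen g η
  apply Ideal.subset_span
  exact ⟨D.tact g η, D.tact_ne g hη, h1⟩

/-- the action of the Weyl group on `H(T^*A////T)` -/
noncomputable def actR (g : W) : D.R0 →+* D.R0 :=
  Ideal.quotientMap D.I (D.act g).toRingHom (D.I_act g)

theorem actR_mk (g : W) (f : Pol r) :
    D.actR g (Ideal.Quotient.mk D.I f) = Ideal.Quotient.mk D.I (D.act g f) := rfl

/-- `H(T^*A////T)^W` -/
noncomputable def RW : Subring D.R0 where
  carrier := {x | ∀ g : W, D.actR g x = x}
  mul_mem' := fun {a b} ha hb g => by rw [map_mul, ha g, hb g]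
  add_mem' := fun {a b} ha hb g => by rw [map_add, ha g, hb g]
  one_mem' := fun g => map_one _
  zero_mem' := fun g => map_zero _
  neg_mem' := fun {a} ha g => by rw [map_neg, ha g]

/-- the Kirwan map of `T^*A////T` on the invariants -/
noncomputable def kT (f : D.inv) : D.RW :=
  ⟨Ideal.Quotient.mk D.I (f : Pol r), fun g => by rw [D.actR_mk, (D.mem_inv _).mp f.2 g]⟩

/-- the Kirwan map of `T^*A////T` on the invariants, as a ring homomorphism -/
noncomputable def kTh : D.inv →+* D.RW where
  toFun := D.kT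
  map_one' := Subtype.ext (by simp [kT])
  map_mul' := fun a b => Subtype.ext (by simp [kT])
  map_zero' := Subtype.ext (by simp [kT])
  map_add' := fun a b => Subtype.ext (by simp [kT])

/-- the class of the product of the roots in `H(T^*A////T)^W` -/
noncomputable def eW : D.RW := D.kT ⟨D.et, D.et_mem⟩

/-- the annihilator of `eW` in `H(T^*A////T)^W` -/
noncomputable def Ann : Ideal D.RW where
  carrier := {x | x * D.eW = 0}
  add_mem' := fun {a b} ha hb => by
    simp only [Set.mem_ofPred_eq] at ha hb ⊢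
    rw [add_mul, ha, hb, add_zero]
  zero_mem' := zero_mul _
  smul_mem' := fun c x hx => by
    simp only [Set.mem_ofPred_eq, smul_eq_mul] at hx ⊢
    rw [mul_assoc, hx, mul_zero]

theorem kT_surj (x : D.RW) : ∃ f : D.inv, D.kT f = x := by
  obtain ⟨f, hf⟩ := Ideal.Quotient.mk_surjective (I := D.I) (x : D.R0)
  obtain ⟨g, hg, hgf⟩ := D.avg_ex 0 f
  have hst : D.stab 0 = Finset.univ := by
    ext g; simp [stab, tact]
  have hginv : g ∈ D.inv := by
    rw [D.mem_inv]; intro h
    exact (D.mem_invq 0 g).mp hg h (by simp [tact])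
  refine ⟨⟨g, hginv⟩, Subtype.ext ?_⟩
  have hcard : ((D.stab 0).card : ℚ) ≠ 0 := by
    rw [hst]; exact_mod_cast Fintype.card_ne_zero
  have h1 : Ideal.Quotient.mk D.I (C ((D.stab 0).card : ℚ) * g) =
      ((D.stab 0).card : D.R0) * (x : D.R0) := by
    rw [hgf, map_sum]
    have : ∀ h ∈ D.stab 0, Ideal.Quotient.mk D.I (D.act h f) = (x : D.R0) := by
      intro h _
      rw [← D.actR_mk, hf]
      exact x.2 h
    rw [Finset.sum_congr rfl this, Finset.sum_const, nsmul_eq_mul]
  have h2 : Ideal.Quotient.mk D.I (C ((D.stab 0).card : ℚ)) = ((D.stab 0).card : D.R0) := by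
    rw [map_natCast, map_natCast]
  rw [map_mul, h2] at h1
  have h3 : IsUnit (((D.stab 0).card : D.R0)) := by
    have : ((D.stab 0).card : D.R0) = algebraMap ℚ D.R0 ((D.stab 0).card : ℚ) := by
      rw [map_natCast]
    rw [this]
    exact (isUnit_iff_ne_zero.mpr hcard).map _
  exact h3.mul_left_cancel h1

theorem kT_ann (x : D.inv) : D.kT x ∈ D.Ann ↔ (x : Pol r) * D.et ∈ I0 D.al Finset.univ := by
  have h1 : (D.kT x ∈ D.Ann) ↔ D.kT x * D.eW = 0 := Iff.rfl
  rw [h1, ← Subtype.coe_inj]
  change Ideal.Quotient.mk D.I (x : Pol r) * Ideal.Quotient.mk D.I D.et = 0 ↔ _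
  rw [← map_mul, Ideal.Quotient.eq_zero_iff_mem]
  rfl

end Datum

end LibHK51
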