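import Pool.Agent.LibHK51.Main
import Pool.Agent.LibHK51.Rings

/-! # LibHK51: the isomorphism -/

namespace LibHK51

open MvPolynomial

open scoped Classical

variable {W : Type} [Group W] [Fintype W] {r n : ℕ} {D : Datum W r n} {H : Type} [CommRing H]
  [Algebra ℚ H] {B : Vec r → Type} [∀ q, CommRing (B q)] [∀ q, Algebra ℚ (B q)] (Γ : Geo D H B)

namespace Geo

theorem iso (hS : Γ.Surj) : ∃ Φ : (H ⧸ Ideal.span {Γ.u}) ≃+* (D.RW ⧸ D.Ann),
    ∀ f : D.inv, Φ (Ideal.Quotient.mk _ (Γ.kappa f)) = Ideal.Quotient.mk _ (D.kT f) := by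
  let φ₁ : D.inv →+* H ⧸ Ideal.span {Γ.u} := (Ideal.Quotient.mk _).comp Γ.kappa.toRingHom
  let φ₂ : D.inv →+* D.RW ⧸ D.Ann := (Ideal.Quotient.mk _).comp D.kTh
  have s₁ : Function.Surjective φ₁ := by
    intro y
    obtain ⟨h, rfl⟩ := Ideal.Quotient.mk_surjective y
    obtain ⟨X, rfl⟩ := hS h
    refine ⟨X.coeff 0, ?_⟩
    change Ideal.Quotient.mk _ (Γ.kappa (X.coeff 0)) = _
    rw [Ideal.Quotient.mk_eq_mk_iff_sub_mem]
    rw [Ideal.mem_span_singleton]
    have h1 : X = Polynomial.C (X.coeff 0) + Polynomial.X * X.divX := by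
      rw [add_comm, Polynomial.X_mul_divX_add]
    rw [h1, Polynomial.eval₂_add, Polynomial.eval₂_mul, Polynomial.eval₂_C, Polynomial.eval₂_X]
    simp only [Polynomial.coeff_add, Polynomial.coeff_C_zero, Polynomial.mul_coeff_zero,
      Polynomial.coeff_X_zero, zero_mul, add_zero]
    refine ⟨-(X.divX.eval₂ Γ.kappa.toRingHom Γ.u), ?_⟩
    have : Γ.kappa.toRingHom (X.coeff 0) = Γ.kappa (X.coeff 0) := rfl
    rw [this]; ring
  have s₂ : Function.Surjective φ₂ := by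
    intro y
    obtain ⟨x, rfl⟩ := Ideal.Quotient.mk_surjective y
    obtain ⟨f, rfl⟩ := D.kT_surj x
    exact ⟨f, rfl⟩
  have hk : RingHom.ker φ₁ = RingHom.ker φ₂ := by
    ext x
    rw [RingHom.mem_ker, RingHom.mem_ker]
    have e1 : φ₁ x = 0 ↔ Γ.kappa x ∈ Ideal.span {Γ.u} := Ideal.Quotient.eq_zero_iff_mem
    have e2 : φ₂ x = 0 ↔ D.kT x ∈ D.Ann := Ideal.Quotient.eq_zero_iff_mem
    rw [e1, e2, Γ.ker_iff hS, D.kT_ann]
  refine ⟨((RingHom.quotientKerEquivOfSurjective s₁).symm.trans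
    (Ideal.quotEquivOfEq hk)).trans (RingHom.quotientKerEquivOfSurjective s₂), ?_⟩
  intro f
  have h1 : (RingHom.quotientKerEquivOfSurjective s₁).symm (Ideal.Quotient.mk _ (Γ.kappa f)) =
      Ideal.Quotient.mk _ f := by
    rw [RingEquiv.symm_apply_eq]
    rfl
  rw [RingEquiv.trans_apply, RingEquiv.trans_apply, h1]
  rfl

end Geo

end LibHK51
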