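import Pool.Agent.LibHK51.GD
import Pool.Agent.LibHK51.Iso

/-! # LibHK51: equivariant surjectivity from ordinary surjectivity -/

namespace LibHK51

open MvPolynomial

open scoped Classical

variable {W : Type} [Group W] [Fintype W] {r n : ℕ} {D : Datum W r n} {H : Type} [CommRing H]
  [Algebra ℚ H] {B : Vec r → Type} [∀ q, CommRing (B q)] [∀ q, Algebra ℚ (B q)] (Γ : Geo D H B)

theorem Datum.comp_mem (D : Datum W r n) (d : ℕ) {f : Pol r} (hf : f ∈ D.inv) :
    homogeneousComponent d f ∈ D.inv := by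
  rw [D.mem_inv] at hf ⊢
  intro g
  rw [D.act_hom, hf g]

namespace Geo

/-- the degree `d` part of a tautological class -/
private theorem dec_kappa (𝒜 : ℕ → Submodule ℚ H) [GradedAlgebra 𝒜]
    (hk : ∀ (f : D.inv) (d : ℕ), (f : Pol r).IsHomogeneous d → Γ.kappa f ∈ 𝒜 d)
    (f : D.inv) (d : ℕ) : ((DirectSum.decompose 𝒜 (Γ.kappa f) d : 𝒜 d) : H) =
      Γ.kappa ⟨homogeneousComponent d (f : Pol r), D.comp_mem d f.2⟩ := by
  have h1 : f = ∑ e ∈ Finset.range ((f : Pol r).totalDegree + 1),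
      (⟨homogeneousComponent e (f : Pol r), D.comp_mem e f.2⟩ : D.inv) := by
    apply Subtype.ext
    rw [AddSubmonoidClass.coe_finsetSum]
    exact (sum_homogeneousComponent (f : Pol r)).symm
  have h2 : Γ.kappa f = ∑ e ∈ Finset.range ((f : Pol r).totalDegree + 1),
      Γ.kappa (⟨homogeneousComponent e (f : Pol r), D.comp_mem e f.2⟩ : D.inv) := by
    conv_lhs => rw [h1]
    rw [map_sum]
  rw [h2, DirectSum.decompose_sum, DFinsupp.finsetSum_apply, AddSubmonoidClass.coe_finsetSum]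
  have h3 : ∀ e, ((DirectSum.decompose 𝒜 (Γ.kappa
      (⟨homogeneousComponent e (f : Pol r), D.comp_mem e f.2⟩ : D.inv)) d : 𝒜 d) : H) =
      if e = d then Γ.kappa ⟨homogeneousComponent d (f : Pol r), D.comp_mem d f.2⟩ else 0 := by
    intro e
    have hm := hk ⟨homogeneousComponent e (f : Pol r), D.comp_mem e f.2⟩ e
      (homogeneousComponent_isHomogeneous e _)
    split_ifs with h
    · subst h
      exact DirectSum.decompose_of_mem_same 𝒜 hm
    · exact DirectSum.decompose_of_mem_ne 𝒜 hm h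
  rw [Finset.sum_congr rfl (fun e _ => h3 e), Finset.sum_ite_eq']
  split_ifs with h
  · rfl
  · have h0 : homogeneousComponent d (f : Pol r) = 0 := by
      apply homogeneousComponent_eq_zero
      simp only [Finset.mem_range, not_lt] at h
      omega
    have : (⟨homogeneousComponent d (f : Pol r), D.comp_mem d f.2⟩ : D.inv) = 0 :=
      Subtype.ext h0
    rw [this, map_zero]

/-- graded Nakayama: surjectivity modulo `u` implies equivariant surjectivity -/
theorem surj_of_mod (𝒜 : ℕ → Submodule ℚ H) [GradedAlgebra 𝒜] (hu : Γ.u ∈ 𝒜 1)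
    (hk : ∀ (f : D.inv) (d : ℕ), (f : Pol r).IsHomogeneous d → Γ.kappa f ∈ 𝒜 d)
    (hm : ∀ h : H, ∃ f : D.inv, h - Γ.kappa f ∈ Ideal.span {Γ.u}) : Γ.Surj := by
  have claim : ∀ d : ℕ, ∀ h ∈ 𝒜 d, ∃ X : Polynomial D.inv,
      h = X.eval₂ Γ.kappa.toRingHom Γ.u := by
    intro d
    induction d using Nat.strong_induction_on with
    | _ d ih =>
      intro h hh
      obtain ⟨f, hf⟩ := hm h
      obtain ⟨h', hh'⟩ := Ideal.mem_span_singleton.mp hf
      have e1 : h = Γ.kappa f + Γ.u * h' := by rw [← hh']; ring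
      have e2 : ((DirectSum.decompose 𝒜 h d : 𝒜 d) : H) = h :=
        DirectSum.decompose_of_mem_same 𝒜 hh
      have e3 : h = Γ.kappa ⟨homogeneousComponent d (f : Pol r), D.comp_mem d f.2⟩ +
          ((DirectSum.decompose 𝒜 (Γ.u * h') d : 𝒜 d) : H) := by
        rw [← Γ.dec_kappa 𝒜 hk f d]
        conv_lhs => rw [← e2, e1]
        rw [DirectSum.decompose_add]
        rfl
      by_cases hd : 1 ≤ d
      · rw [DirectSum.coe_decompose_mul_of_left_mem_of_le 𝒜 hu hd] at e3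
        obtain ⟨X, hX⟩ := ih (d - 1) (by omega) _ (DirectSum.decompose 𝒜 h' (d - 1)).2
        refine ⟨Polynomial.C ⟨homogeneousComponent d (f : Pol r), D.comp_mem d f.2⟩ +
          Polynomial.X * X, ?_⟩
        rw [Polynomial.eval₂_add, Polynomial.eval₂_mul, Polynomial.eval₂_C, Polynomial.eval₂_X,
          ← hX]
        exact e3
      · rw [DirectSum.coe_decompose_mul_of_left_mem_of_not_le 𝒜 hu hd, add_zero] at e3
        refine ⟨Polynomial.C ⟨homogeneousComponent d (f : Pol r), D.comp_mem d f.2⟩, ?_⟩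
        rw [Polynomial.eval₂_C]
        exact e3
  intro h
  have key : ∀ s : Finset ℕ, ∃ X : Polynomial D.inv,
      ∑ d ∈ s, ((DirectSum.decompose 𝒜 h d : 𝒜 d) : H) = X.eval₂ Γ.kappa.toRingHom Γ.u := by
    intro s
    induction s using Finset.induction_on with
    | empty => exact ⟨0, by simp⟩
    | insert a s ha ih =>
      obtain ⟨X, hX⟩ := ih
      obtain ⟨Y, hY⟩ := claim a _ (DirectSum.decompose 𝒜 h a).2
      refine ⟨Y + X, ?_⟩
      rw [Finset.sum_insert ha, Polynomial.eval₂_add, ← hX, ← hY]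
  obtain ⟨X, hX⟩ := key (DirectSum.decompose 𝒜 h).support
  refine ⟨X, ?_⟩
  rw [← hX]
  exact (DirectSum.sum_support_decompose 𝒜 h).symm

/-- Kirwan surjectivity is equivalent to the abelianization isomorphism -/
theorem iso_iff (𝒜 : ℕ → Submodule ℚ H) [GradedAlgebra 𝒜] (hu : Γ.u ∈ 𝒜 1)
    (hk : ∀ (f : D.inv) (d : ℕ), (f : Pol r).IsHomogeneous d → Γ.kappa f ∈ 𝒜 d) :
    (Function.Surjective fun f : D.inv => Ideal.Quotient.mk (Ideal.span {Γ.u}) (Γ.kappa f)) ↔
      ∃ Φ : (H ⧸ Ideal.span {Γ.u}) ≃+* (D.RW ⧸ D.Ann),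
        ∀ f : D.inv, Φ (Ideal.Quotient.mk _ (Γ.kappa f)) = Ideal.Quotient.mk _ (D.kT f) := by
  constructor
  · intro h
    apply Γ.iso
    apply Γ.surj_of_mod 𝒜 hu hk
    intro y
    obtain ⟨f, hf⟩ := h (Ideal.Quotient.mk _ y)
    exact ⟨f, (Ideal.Quotient.mk_eq_mk_iff_sub_mem _ _).mp hf.symm⟩
  · rintro ⟨Φ, hΦ⟩ y
    obtain ⟨x, hx⟩ := Ideal.Quotient.mk_surjective (Φ y)
    obtain ⟨f, hf⟩ := D.kT_surj x
    refine ⟨f, ?_⟩
    apply Φ.injective
    rw [hΦ, hf, hx]

end Geo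

end LibHK51
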