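import Pool.Agent.LibHK51.TJ

/-! Row TK: duality of Dahmen-Micchelli type. Uses only the statements of TA - TJ.

Induction on `S.card`, for all `r`, `n`, `al`, `ξ`. Hypothesis `(h)` for `(S, z)`.
* `S = ∅`: if `r = 0` then `jf w ξ ∅ z = z` (a constant, by `jf_basis`; `w` arbitrary), so `z = 0`. If
  `r > 0` the empty product is a generator of `I0 al ∅` (take any `η ≠ 0`), so `I0 = ⊤`.
* `S` nonempty, `i ∈ S`, `a = al i ≠ 0`, so `r = r' + 1`. Take `P` (`contr_ex`), `κ` (`contr_dt`).
  (1) `(h)` for `(S, z)` implies `(h)` for `(S.erase j, z)`, any `j ∈ S`: a signed family `w` on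
  `S.erase j` pointed by `l` extends to `S` (replace `w j` by `± al j`, after perturbing `l` so that
  `al j ⬝ᵥ l ≠ 0`), and `jf w (S.erase j) (z * y) = jf w S (z * y * lf (w j))` (`jf_del`,
  `jf_congr`). More generally if `z * lf (al j)` satisfies `(h)` on `S` then `z` satisfies `(h)` on
  `S.erase j`.
  (2) Let `S' = {j ∈ S.erase i | P (al j) ≠ 0}`. Claim: `rho P z ∈ I0 (P al) S'`.
   - If some `j ∈ S.erase i` has `P (al j) = 0` (parallel to `a`): by (1) and induction
     `z ∈ I0 al (S.erase j)`; a generator of it for `η` maps under `rho P` to `0` if `a ⬝ᵥ η ≠ 0` (the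
     factor `lf a`, `i ≠ j`), and if `a ⬝ᵥ η = 0` then `η = Pᵀ η'` with `η' ≠ 0` and it maps to the
     generator of `I0 (P al) S'` for `η'` (the vectors parallel to `a` do not occur in the product).
   - Otherwise `S' = S.erase i`. Use induction for `(P al, P ξ, S.erase i)` (`contr_GX`): let `v` be a
     signed family of `P al` on `S.erase i`, pointed by `l'`. Then `l = Pᵀ l'` satisfies
     `(± al j) ⬝ᵥ l > 0` for `j ≠ i` and `a ⬝ᵥ l = 0`; let `w j = ± al j` (the same signs),
     `w i = a`: `l ± ε a` points `w` and `Function.update w i (-a)` (`a ⬝ᵥ a > 0`), and `P w = v` on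
     `S.erase i`. For `y' = rho P y` (`rho_surj`): `jf v (rho z * y') = κ (jf w (z y) + jf w' (z y)) = 0`
     by `flip` and `(h)`.
  (3) Lift: generators of `I0 (P al) S'` (for `η'`) are images of generators of `I0 al S` (for
  `η = Pᵀ η'`; then `al j ⬝ᵥ η = P (al j) ⬝ᵥ η'`, `i` and the vectors parallel to `a` do not occur).
  With `rho_surj` there is `z0 ∈ I0 al S` with `rho z0 = rho z`, so `z = z0 + z1 * lf a` (`rho_ker`).
  `z0` satisfies `(h)` (`jf_I0`), so `z1 * lf a` satisfies `(h)`, so `z1` satisfies `(h)` on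
  `S.erase i`, so `z1 ∈ I0 al (S.erase i)` by induction, and `z1 * lf a ∈ I0 al S`: a generator of
  `I0 al (S.erase i)` for `η` times `lf a` is the generator of `I0 al S` for `η` if `a ⬝ᵥ η ≠ 0`, and a
  multiple of it otherwise. -/

namespace LibHK51

open MvPolynomial

open scoped Classical


private theorem lf_neg' {r : ℕ} (a : Vec r) : lf (-a) = - lf a := by
  unfold lf
  rw [← Finset.sum_neg_distrib]
  refine Finset.sum_congr rfl fun j _ => ?_
  rw [Pi.neg_apply, map_neg, neg_mul]

private theorem lf_zero' {r : ℕ} : lf (0 : Vec r) = 0 := by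
  unfold lf
  refine Finset.sum_eq_zero fun j _ => ?_
  rw [Pi.zero_apply, map_zero, zero_mul]

private theorem dot_self_pos {r : ℕ} {a : Vec r} (ha : a ≠ 0) : 0 < a ⬝ᵥ a := by
  obtain ⟨j, hj⟩ := Function.ne_iff.mp ha
  have hj' : a j ≠ 0 := hj
  unfold dotProduct
  exact Finset.sum_pos' (fun k _ => mul_self_nonneg _) ⟨j, Finset.mem_univ _, mul_self_pos.mpr hj'⟩

private theorem eps_ex {ι : Type*} (T : Finset ι) (f g : ι → ℚ) (h : ∀ i ∈ T, 0 < f i) :
    ∃ ε : ℚ, 0 < ε ∧ ∀ δ : ℚ, 0 < δ → δ ≤ ε → ∀ i ∈ T, 0 < f i + δ * g i ∧ 0 < f i - δ * g i := by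
  induction T using Finset.induction_on with
  | empty => exact ⟨1, one_pos, fun δ _ _ i hi => absurd hi (Finset.notMem_empty i)⟩
  | insert k T hk ih =>
    obtain ⟨ε, hε, h1⟩ := ih fun i hi => h i (Finset.mem_insert_of_mem hi)
    have hfk := h k (Finset.mem_insert_self k T)
    have hg : 0 < |g k| + 1 := by positivity
    refine ⟨min ε (f k / (2 * (|g k| + 1))), lt_min hε (by positivity), ?_⟩
    intro δ hδ hδ' i hi
    rcases Finset.mem_insert.mp hi with rfl | hi'
    · have h2 : δ ≤ f i / (2 * (|g i| + 1)) := le_trans hδ' (min_le_right _ _)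
      rw [le_div_iff₀ (by positivity)] at h2
      have h3 : δ * |g i| < f i := by nlinarith
      have h4 : |δ * g i| < f i := by rw [abs_mul, abs_of_pos hδ]; exact h3
      have h5 := abs_lt.mp h4
      constructor <;> linarith [h5.1, h5.2]
    · exact h1 δ hδ (le_trans hδ' (min_le_left _ _)) i hi'

private theorem dot_add_smul {r : ℕ} (v l a : Vec r) (t : ℚ) :
    v ⬝ᵥ (l + t • a) = v ⬝ᵥ l + t * (v ⬝ᵥ a) := by
  rw [dotProduct_add, dotProduct_smul, smul_eq_mul]

private theorem pert {r n : ℕ} {w : Fin n → Vec r} {T : Finset (Fin n)} (hP : Pnt w T) {a : Vec r}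
    (ha : a ≠ 0) : ∃ l : Vec r, (∀ i ∈ T, 0 < w i ⬝ᵥ l) ∧ a ⬝ᵥ l ≠ 0 := by
  obtain ⟨l, hl⟩ := hP
  by_cases h : a ⬝ᵥ l = 0
  · obtain ⟨ε, hε, h1⟩ := eps_ex T (fun i => w i ⬝ᵥ l) (fun i => w i ⬝ᵥ a) hl
    refine ⟨l + ε • a, fun i hi => ?_, ?_⟩
    · rw [dot_add_smul]; exact (h1 ε hε le_rfl i hi).1
    · rw [dot_add_smul, h, zero_add]
      exact mul_ne_zero hε.ne' (dot_self_pos ha).ne'
  · exact ⟨l, hl, h⟩

private theorem HH_erase {r n : ℕ} {al : Fin n → Vec r} {ξ : Vec r} {S : Finset (Fin n)}
    (h0 : ∀ i ∈ S, al i ≠ 0) (hX : GX al ξ S) {j : Fin n} (hj : j ∈ S) (z : Pol r)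
    (h : ∀ w : Fin n → Vec r, (∀ i ∈ S, w i = al i ∨ w i = - al i) → Pnt w S →
      ∀ y, jf w ξ S (z * lf (al j) * y) = 0) :
    ∀ w : Fin n → Vec r, (∀ i ∈ S.erase j, w i = al i ∨ w i = - al i) → Pnt w (S.erase j) →
      ∀ y, jf w ξ (S.erase j) (z * y) = 0 := by
  intro w hw hP y
  obtain ⟨l, hl, hlj⟩ := pert hP (h0 j hj)
  have key : ∀ (a' : Vec r) (u : Pol r), (a' = al j ∨ a' = - al j) → 0 < a' ⬝ᵥ l →
      y * lf a' = lf (al j) * u → jf w ξ (S.erase j) (z * y) = 0 := by
    intro a' u ha' hpos hu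
    have e1 : ∀ i ∈ S.erase j, w i = Function.update w j a' i := by
      intro i hi
      rw [Function.update_of_ne (Finset.ne_of_mem_erase hi)]
    have hsg : ∀ i ∈ S, Function.update w j a' i = al i ∨ Function.update w j a' i = - al i := by
      intro i hi
      by_cases hij : i = j
      · subst hij; rw [Function.update_self]; exact ha'
      · rw [Function.update_of_ne hij]; exact hw i (Finset.mem_erase.mpr ⟨hij, hi⟩)
    have hPn : Pnt (Function.update w j a') S := by
      refine ⟨l, fun i hi => ?_⟩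
      by_cases hij : i = j
      · subst hij; rw [Function.update_self]; exact hpos
      · rw [Function.update_of_ne hij]; exact hl i (Finset.mem_erase.mpr ⟨hij, hi⟩)
    have hXe : GX w ξ (S.erase j) := (hX.mono (Finset.erase_subset j S)).signs hw
    have hXn : GX (Function.update w j a') ξ S := hX.signs hsg
    rw [jf_congr e1 hP hXe, ← jf_del hPn hXn hj, Function.update_self, mul_assoc, hu, ← mul_assoc]
    exact h _ hsg hPn u
  rcases lt_or_gt_of_ne hlj with hneg | hpos
  · refine key (- al j) (- y) (Or.inr rfl) ?_ ?_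
    · rw [neg_dotProduct]; linarith
    · rw [lf_neg']; ring
  · exact key (al j) y (Or.inl rfl) hpos (mul_comm _ _)

private theorem I0_mul {r n : ℕ} {al : Fin n → Vec r} {S : Finset (Fin n)} {i : Fin n} (hi : i ∈ S)
    {z : Pol r} (hz : z ∈ I0 al (S.erase i)) : z * lf (al i) ∈ I0 al S := by
  unfold I0 at hz
  induction hz using Submodule.span_induction with
  | mem x hx =>
    obtain ⟨η, hη, rfl⟩ := hx
    have hg : (∏ k ∈ S.filter (fun k => al k ⬝ᵥ η ≠ 0), lf (al k)) ∈ I0 al S :=
      Ideal.subset_span ⟨η, hη, rfl⟩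
    by_cases h : al i ⬝ᵥ η ≠ 0
    · have e : S.filter (fun k => al k ⬝ᵥ η ≠ 0) =
          insert i ((S.erase i).filter (fun k => al k ⬝ᵥ η ≠ 0)) := by
        ext k
        simp only [Finset.mem_filter, Finset.mem_insert, Finset.mem_erase]
        constructor
        · rintro ⟨h1, h2⟩
          by_cases hk : k = i
          · exact Or.inl hk
          · exact Or.inr ⟨⟨hk, h1⟩, h2⟩
        · rintro (rfl | ⟨⟨_, h1⟩, h2⟩)
          · exact ⟨hi, h⟩
          · exact ⟨h1, h2⟩
      rw [e, Finset.prod_insert (by simp), mul_comm] at hg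
      exact hg
    · have e : S.filter (fun k => al k ⬝ᵥ η ≠ 0) =
          (S.erase i).filter (fun k => al k ⬝ᵥ η ≠ 0) := by
        ext k
        simp only [Finset.mem_filter, Finset.mem_erase]
        constructor
        · rintro ⟨h1, h2⟩
          refine ⟨⟨?_, h1⟩, h2⟩
          rintro rfl
          exact h h2
        · rintro ⟨⟨_, h1⟩, h2⟩
          exact ⟨h1, h2⟩
      rw [e] at hg
      exact Ideal.mul_mem_right _ _ hg
  | zero => rw [zero_mul]; exact Submodule.zero_mem _
  | add x y _ _ hx hy => rw [add_mul]; exact Submodule.add_mem _ hx hy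
  | smul c x _ hx =>
    rw [smul_eq_mul, mul_assoc]
    exact Ideal.mul_mem_left _ _ hx

section contr

variable {r n : ℕ} {P : Matrix (Fin r) (Fin (r + 1)) ℚ} {a : Vec (r + 1)}

private theorem dot_tr (P : Matrix (Fin r) (Fin (r + 1)) ℚ) (v : Vec (r + 1)) (η' : Vec r) :
    v ⬝ᵥ P.transpose.mulVec η' = P.mulVec v ⬝ᵥ η' := by
  rw [Matrix.mulVec_transpose, dotProduct_comm, dotProduct_comm (P.mulVec v),
    Matrix.dotProduct_mulVec]

private theorem P_self (hP : IsContr P a) : P.mulVec a = 0 := (hP.1 a).mpr ⟨1, (one_smul _ _).symm⟩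

/-- vectors orthogonal to `a` come from the quotient -/
private theorem orth_ex (hP : IsContr P a) {η : Vec (r + 1)} (hη : a ⬝ᵥ η = 0) :
    ∃ η' : Vec r, η = P.transpose.mulVec η' := by
  choose σ hσ using fun j : Fin r => hP.2 (Pi.single j 1)
  refine ⟨fun j => σ j ⬝ᵥ η, ?_⟩
  have key : ∀ v : Vec (r + 1), v ⬝ᵥ η = v ⬝ᵥ P.transpose.mulVec (fun j => σ j ⬝ᵥ η) := by
    intro v
    rw [dot_tr]
    have e1 : P.mulVec v ⬝ᵥ (fun j => σ j ⬝ᵥ η) = (∑ j, (P.mulVec v) j • σ j) ⬝ᵥ η := by
      rw [sum_dotProduct]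
      refine Finset.sum_congr rfl fun j _ => ?_
      rw [smul_dotProduct, smul_eq_mul]
    have e2 : P.mulVec (v - ∑ j, (P.mulVec v) j • σ j) = 0 := by
      rw [Matrix.mulVec_sub, Matrix.mulVec_sum]
      have : ∑ j, P.mulVec ((P.mulVec v) j • σ j) = P.mulVec v := by
        have e3 : ∀ j, P.mulVec ((P.mulVec v) j • σ j) = (P.mulVec v) j • Pi.single j (1 : ℚ) := by
          intro j
          rw [Matrix.mulVec_smul, hσ]
        rw [Finset.sum_congr rfl fun j _ => e3 j]
        funext k
        rw [Finset.sum_apply]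
        simp [Pi.single_apply]
      rw [this, sub_self]
    obtain ⟨t, ht⟩ := (hP.1 _).mp e2
    have e4 : (v - ∑ j, (P.mulVec v) j • σ j) ⬝ᵥ η = 0 := by
      rw [ht, smul_dotProduct, hη, smul_zero]
    rw [sub_dotProduct] at e4
    rw [e1]
    linarith
  funext k
  have := key (Pi.single k 1)
  rw [single_dotProduct, single_dotProduct, one_mul, one_mul] at this
  exact this

private theorem tr_ne (hP : IsContr P a) {η' : Vec r} (hη : η' ≠ 0) :
    P.transpose.mulVec η' ≠ 0 := by
  intro h
  obtain ⟨v, hv⟩ := hP.2 η'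
  have e1 : η' ⬝ᵥ η' = 0 := by
    have := dot_tr P v η'
    rw [h, dotProduct_zero, hv] at this
    exact this.symm
  exact (dot_self_pos hη).ne' e1

/-- the generators for vectors orthogonal to `a` -/
private theorem rho_gen (al : Fin n → Vec (r + 1)) (hP : IsContr P a) {i : Fin n} (hi : al i = a)
    (S T : Finset (Fin n)) (hT : T ⊆ S)
    (hT' : ∀ k ∈ S, k ∉ T → P.mulVec (al k) = 0) (η' : Vec r) :
    rho P (∏ k ∈ T.filter (fun k => al k ⬝ᵥ P.transpose.mulVec η' ≠ 0), lf (al k)) =
      ∏ k ∈ ((S.erase i).filter (fun k => P.mulVec (al k) ≠ 0)).filter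
        (fun k => P.mulVec (al k) ⬝ᵥ η' ≠ 0), lf (P.mulVec (al k)) := by
  rw [map_prod]
  have e : T.filter (fun k => al k ⬝ᵥ P.transpose.mulVec η' ≠ 0) =
      ((S.erase i).filter (fun k => P.mulVec (al k) ≠ 0)).filter
        (fun k => P.mulVec (al k) ⬝ᵥ η' ≠ 0) := by
    ext k
    simp only [Finset.mem_filter, Finset.mem_erase, dot_tr]
    constructor
    · rintro ⟨h1, h2⟩
      refine ⟨⟨⟨?_, hT h1⟩, ?_⟩, h2⟩
      · rintro rfl
        apply h2
        rw [hi, P_self hP, zero_dotProduct]
      · intro h3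
        apply h2
        rw [h3, zero_dotProduct]
    · rintro ⟨⟨⟨_, h1⟩, h3⟩, h2⟩
      refine ⟨?_, h2⟩
      by_contra h4
      exact h3 (hT' k h1 h4)
  rw [e]
  exact Finset.prod_congr rfl fun k _ => rho_lf P (al k)

/-- surjectivity of `I0 al S → I0 (P al) S'` -/
private theorem lift_I0 (al : Fin n → Vec (r + 1)) (hP : IsContr P a) {i : Fin n} (hi : al i = a)
    (S : Finset (Fin n)) {f : Pol r}
    (hf : f ∈ I0 (fun k => P.mulVec (al k))
      ((S.erase i).filter (fun k => P.mulVec (al k) ≠ 0))) :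
    ∃ z0 ∈ I0 al S, rho P z0 = f := by
  have hs : Function.Surjective (rho P : Pol (r + 1) → Pol r) := fun y => rho_surj hP y
  have hle : I0 (fun k => P.mulVec (al k)) ((S.erase i).filter (fun k => P.mulVec (al k) ≠ 0)) ≤
      Ideal.map (rho P) (I0 al S) := by
    refine Ideal.span_le.mpr ?_
    rintro _ ⟨η', hη', rfl⟩
    have := rho_gen al hP hi S S (Finset.Subset.refl _) (fun k h1 h2 => absurd h1 h2) η'
    change _ ∈ Ideal.map (rho P) (I0 al S)
    rw [← this]
    exact Ideal.mem_map_of_mem _ (Ideal.subset_span ⟨_, tr_ne hP hη', rfl⟩)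
  have := hle hf
  rw [Ideal.mem_map_iff_of_surjective _ hs] at this
  exact this

/-- case A: a vector parallel to `a` -/
private theorem caseA (al : Fin n → Vec (r + 1)) (hP : IsContr P a) {i j : Fin n} (hi : al i = a)
    (S : Finset (Fin n)) (hiS : i ∈ S) (hj : j ∈ S.erase i) (hPj : P.mulVec (al j) = 0)
    {z : Pol (r + 1)} (hz : z ∈ I0 al (S.erase j)) :
    rho P z ∈ I0 (fun k => P.mulVec (al k))
      ((S.erase i).filter (fun k => P.mulVec (al k) ≠ 0)) := by
  have hle : I0 al (S.erase j) ≤ Ideal.comap (rho P) (I0 (fun k => P.mulVec (al k))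
      ((S.erase i).filter (fun k => P.mulVec (al k) ≠ 0))) := by
    refine Ideal.span_le.mpr ?_
    rintro _ ⟨η, hη, rfl⟩
    rw [SetLike.mem_coe, Ideal.mem_comap]
    by_cases h : a ⬝ᵥ η = 0
    · obtain ⟨η', rfl⟩ := orth_ex hP h
      have hη' : η' ≠ 0 := by
        rintro rfl
        exact hη (Matrix.mulVec_zero _)
      rw [rho_gen al hP hi S (S.erase j) (Finset.erase_subset _ _) ?_ η']
      · exact Ideal.subset_span ⟨η', hη', rfl⟩
      · intro k h1 h2
        have : k = j := by
          by_contra hk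
          exact h2 (Finset.mem_erase.mpr ⟨hk, h1⟩)
        rw [this]; exact hPj
    · have hmem : i ∈ (S.erase j).filter (fun k => al k ⬝ᵥ η ≠ 0) := by
        refine Finset.mem_filter.mpr ⟨Finset.mem_erase.mpr ⟨?_, hiS⟩, ?_⟩
        · exact (Finset.ne_of_mem_erase hj).symm
        · rw [hi]; exact h
      rw [map_prod, Finset.prod_eq_zero hmem]
      · exact Submodule.zero_mem _
      · rw [rho_lf, hi, P_self hP, lf_zero']
  exact hle hz

end contr

private theorem dm_aux {n : ℕ} (m : ℕ) : ∀ (r : ℕ) (al : Fin n → Vec r) (ξ : Vec r)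
    (S : Finset (Fin n)), S.card = m → (∀ i ∈ S, al i ≠ 0) → GX al ξ S → ∀ z : Pol r,
    (∀ w : Fin n → Vec r, (∀ i ∈ S, w i = al i ∨ w i = - al i) → Pnt w S →
      ∀ y, jf w ξ S (z * y) = 0) → z ∈ I0 al S := by
  induction m with
  | zero =>
    intro r al ξ S hS h0 hX z h
    have hSe : S = ∅ := Finset.card_eq_zero.mp hS
    subst hSe
    rcases Nat.eq_zero_or_pos r with rfl | hr
    · have h1 := h al (fun i hi => absurd hi (Finset.notMem_empty i))
        ⟨0, fun i hi => absurd hi (Finset.notMem_empty i)⟩ 1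
      have hz : z = C (MvPolynomial.isEmptyAlgEquiv ℚ (Fin 0) z) := by
        have := (MvPolynomial.isEmptyAlgEquiv ℚ (Fin 0)).symm_apply_apply z
        conv_lhs => rw [← this]
        rfl
      have hdt : dt al (∅ : Finset (Fin n)) ≠ 0 := by
        rw [dt_ne_iff]
        refine ⟨rfl, ?_⟩
        have : IsEmpty (↥(∅ : Finset (Fin n))) := ⟨fun x => absurd x.2 (Finset.notMem_empty _)⟩
        exact linearIndependent_empty_type
      have hF : Fe al ξ (∅ : Finset (Fin n)) := by
        refine ⟨0, fun i hi => absurd hi (Finset.notMem_empty i), ?_⟩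
        exact Subsingleton.elim _ _
      rw [hz, jf_smul, jf_basis hdt hF] at h1
      have h2 : MvPolynomial.isEmptyAlgEquiv ℚ (Fin 0) z = 0 := by
        rcases mul_eq_zero.mp h1 with h3 | h3
        · exact h3
        · exact absurd (inv_eq_zero.mp h3) hdt
      rw [hz, h2, map_zero]
      exact Submodule.zero_mem _
    · have hg : (1 : Pol r) ∈ I0 al (∅ : Finset (Fin n)) := by
        refine Ideal.subset_span ⟨fun _ => 1, ?_, ?_⟩
        · intro h3
          have := congrFun h3 ⟨0, hr⟩
          exact one_ne_zero this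
        · rw [Finset.filter_empty, Finset.prod_empty]
      rw [(Ideal.eq_top_iff_one _).mpr hg]
      exact Submodule.mem_top
  | succ m ih =>
    intro r al ξ S hS h0 hX z h
    have hne : S.Nonempty := by
      rw [← Finset.card_pos, hS]; exact Nat.succ_pos m
    obtain ⟨i, hi⟩ := hne
    have ha : al i ≠ 0 := h0 i hi
    rcases r with _ | r
    · exact absurd (Subsingleton.elim _ _) ha
    obtain ⟨P, hP⟩ := contr_ex ha
    obtain ⟨κ, hκ, hdt⟩ := contr_dt ha hP
    have hcard : ∀ j ∈ S, (S.erase j).card = m := by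
      intro j hj
      rw [Finset.card_erase_of_mem hj, hS]; rfl
    -- the claim
    have hclaim : rho P z ∈ I0 (fun k => P.mulVec (al k))
        ((S.erase i).filter (fun k => P.mulVec (al k) ≠ 0)) := by
      by_cases hA : ∃ j ∈ S.erase i, P.mulVec (al j) = 0
      · obtain ⟨j, hj, hPj⟩ := hA
        have hjS : j ∈ S := Finset.mem_of_mem_erase hj
        refine caseA al hP rfl S hi hj hPj ?_
        refine ih (r + 1) al ξ (S.erase j) (hcard j hjS)
          (fun k hk => h0 k (Finset.mem_of_mem_erase hk)) (hX.mono (Finset.erase_subset _ _)) z ?_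
        refine HH_erase h0 hX hjS z ?_
        intro w hw hPw y
        rw [mul_assoc]
        exact h w hw hPw _
      · have hA' : ∀ j ∈ S.erase i, P.mulVec (al j) ≠ 0 := fun j hj h1 => hA ⟨j, hj, h1⟩
        have hfil : (S.erase i).filter (fun k => P.mulVec (al k) ≠ 0) = S.erase i :=
          Finset.filter_true_of_mem hA'
        rw [hfil]
        have hXP := contr_GX (w := al) hP hi hX
        refine ih r (fun k => P.mulVec (al k)) (P.mulVec ξ) (S.erase i) (hcard i hi) hA' hXP
          (rho P z) ?_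
        intro v hv hPv y'
        obtain ⟨y, rfl⟩ := rho_surj hP y'
        obtain ⟨l', hl'⟩ := hPv
        -- the lifted family
        let w : Fin n → Vec (r + 1) := fun j => if j = i then al i else
          if v j = P.mulVec (al j) then al j else - al j
        have hwi : w i = al i := if_pos rfl
        have hw : ∀ j ∈ S, w j = al j ∨ w j = - al j := by
          intro j _
          by_cases hji : j = i
          · subst hji; exact Or.inl hwi
          · by_cases hvj : v j = P.mulVec (al j)
            · left; simp only [w, if_neg hji, if_pos hvj]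
            · right; simp only [w, if_neg hji, if_neg hvj]
        have hPw : ∀ j ∈ S.erase i, v j = P.mulVec (w j) := by
          intro j hj
          have hji := Finset.ne_of_mem_erase hj
          by_cases hvj : v j = P.mulVec (al j)
          · simp only [w, if_neg hji, if_pos hvj]; exact hvj
          · simp only [w, if_neg hji, if_neg hvj]
            rw [Matrix.mulVec_neg]
            exact (hv j hj).resolve_left hvj
        have hdot : ∀ j ∈ S.erase i, 0 < w j ⬝ᵥ P.transpose.mulVec l' := by
          intro j hj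
          rw [dot_tr, ← hPw j hj]
          exact hl' j hj
        have hdoti : w i ⬝ᵥ P.transpose.mulVec l' = 0 := by
          rw [dot_tr, hwi, P_self hP, zero_dotProduct]
        obtain ⟨ε, hε, heps⟩ := eps_ex (S.erase i) (fun j => w j ⬝ᵥ P.transpose.mulVec l')
          (fun j => w j ⬝ᵥ al i) hdot
        have hPn : Pnt w S := by
          refine ⟨P.transpose.mulVec l' + ε • al i, fun j hj => ?_⟩
          rw [dot_add_smul]
          by_cases hji : j = i
          · subst hji
            rw [hdoti, zero_add, hwi]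
            exact mul_pos hε (dot_self_pos ha)
          · exact (heps ε hε le_rfl j (Finset.mem_erase.mpr ⟨hji, hj⟩)).1
        have hPn' : Pnt (Function.update w i (- w i)) S := by
          refine ⟨P.transpose.mulVec l' + (-ε) • al i, fun j hj => ?_⟩
          rw [dot_add_smul]
          by_cases hji : j = i
          · subst hji
            rw [Function.update_self, neg_dotProduct, neg_dotProduct, hdoti, hwi]
            have := mul_pos hε (dot_self_pos ha)
            linarith
          · rw [Function.update_of_ne hji]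
            have := (heps ε hε le_rfl j (Finset.mem_erase.mpr ⟨hji, hj⟩)).2
            linarith
        have hPv' : Pnt v (S.erase i) := ⟨l', hl'⟩
        have hPw' : Pnt (fun j => P.mulVec (w j)) (S.erase i) := by
          refine ⟨l', fun j hj => ?_⟩
          change 0 < P.mulVec (w j) ⬝ᵥ l'
          rw [← hPw j hj]; exact hl' j hj
        have hw' : ∀ j ∈ S, Function.update w i (- w i) j = al j ∨
            Function.update w i (- w i) j = - al j := by
          intro j hj
          by_cases hji : j = i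
          · subst hji; right; rw [Function.update_self, hwi]
          · rw [Function.update_of_ne hji]; exact hw j hj
        have hXw : GX w ξ S := hX.signs hw
        have hPwi : IsContr P (w i) := by rw [hwi]; exact hP
        have hwi0 : w i ≠ 0 := by rw [hwi]; exact ha
        have hfl := flip hwi0 hPwi hκ (fun B hB => hdt w i B hwi hB) hi hXw hPn hPn' hPw' (z * y)
        rw [h w hw hPn y, h _ hw' hPn' y, add_zero] at hfl
        have h5 : jf (fun j => P.mulVec (w j)) (P.mulVec ξ) (S.erase i) (rho P (z * y)) = 0 := by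
          rcases mul_eq_zero.mp hfl.symm with h6 | h6
          · exact absurd (inv_eq_zero.mp h6) hκ.ne'
          · exact h6
        have hXv : GX v (P.mulVec ξ) (S.erase i) := hXP.signs hv
        rw [jf_congr hPw hPv' hXv, ← map_mul]
        exact h5
    -- lifting
    obtain ⟨z0, hz0, hrz⟩ := lift_I0 al hP rfl S hclaim
    have hk : rho P (z - z0) = 0 := by rw [map_sub, hrz, sub_self]
    obtain ⟨z1, hz1⟩ := rho_ker hP hk
    have hz1I : z1 ∈ I0 al (S.erase i) := by
      refine ih (r + 1) al ξ (S.erase i) (hcard i hi)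
        (fun k hk => h0 k (Finset.mem_of_mem_erase hk)) (hX.mono (Finset.erase_subset _ _)) z1 ?_
      refine HH_erase h0 hX hi z1 ?_
      intro w hw hPw y
      rw [← hz1, sub_mul, sub_eq_add_neg, jf_add, jf_neg, h w hw hPw y,
        jf_I0 hw hPw (hX.signs hw) (Ideal.mul_mem_right _ _ hz0), neg_zero, add_zero]
    have hfin := I0_mul hi hz1I
    rw [← hz1] at hfin
    have := Ideal.add_mem _ hfin hz0
    rwa [sub_add_cancel] at this

/-- duality: if all the integrals of multiples of `z` over the pointed signed families vanish, then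
`z` lies in the ideal `I0` -/
theorem dm {r n : ℕ} (al : Fin n → Vec r) (ξ : Vec r) (S : Finset (Fin n))
    (h0 : ∀ i ∈ S, al i ≠ 0) (hX : GX al ξ S) (z : Pol r)
    (h : ∀ w : Fin n → Vec r, (∀ i ∈ S, w i = al i ∨ w i = - al i) → Pnt w S →
      ∀ y, jf w ξ S (z * y) = 0) : z ∈ I0 al S :=
  dm_aux S.card r al ξ S rfl h0 hX z h

end LibHK51
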