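import Pool.Agent.LibHK51.GD
import Pool.Agent.LibHK51.GF
import Pool.Agent.LibHK51.TK

/-! The kernel of the Kirwan map (assembly) -/

namespace LibHK51

open MvPolynomial

open scoped Classical

variable {W : Type} [Group W] [Fintype W] {r n : ℕ} {D : Datum W r n} {H : Type} [CommRing H]
  [Algebra ℚ H] {B : Vec r → Type} [∀ q, CommRing (B q)] [∀ q, Algebra ℚ (B q)] (Γ : Geo D H B)

namespace Geo

theorem ker_iff (hS : Γ.Surj) (x : D.inv) :
    Γ.kappa x ∈ Ideal.span {Γ.u} ↔ (x : Pol r) * D.et ∈ I0 D.al Finset.univ := by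
  constructor
  · intro hx
    apply dm D.al D.xi Finset.univ (fun i _ => D.al_ne i) D.generic
    intro w hw hP y
    obtain ⟨m, hm, rfl⟩ := D.wl_of_Pnt (fun i => hw i (Finset.mem_univ i)) hP
    have := Γ.dir1 hS x hx hm y
    rw [show (x : Pol r) * D.et * y = (x : Pol r) * y * D.et by ring]
    exact this
  · intro hx
    by_contra hn
    obtain ⟨q, hq, h, h', hxh, hz, f, hf, hf0⟩ := Γ.lattice _ hn
    obtain ⟨X', hX'⟩ := hS h'
    have key : h = (Polynomial.C x - Polynomial.X * X').eval₂ Γ.kappa.toRingHom Γ.u := by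
      rw [Polynomial.eval₂_sub, Polynomial.eval₂_mul, Polynomial.eval₂_C, Polynomial.eval₂_X, ← hX']
      have : Γ.kappa.toRingHom x = Γ.kappa x := rfl
      rw [this, hxh]; ring
    obtain ⟨b, hb⟩ : ∃ b, Γ.int q (f.eval 0 * b) ≠ 0 := by
      by_contra hne
      push Not at hne
      exact hf0 (Γ.int_nd q hq _ hne)
    obtain ⟨y, hy⟩ := Γ.kap_surj hS hq b
    obtain ⟨ε, -, hε⟩ := Γ.kf hq (Polynomial.C x - Polynomial.X * X')
      (fun p hp hlt => by rw [← key]; exact hz p hp hlt) f (by rw [← key]; exact hf) y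
    have h1 : ((((Polynomial.C x - Polynomial.X * X').coeff 0 : D.inv)) : Pol r) = x := by
      simp
    rw [h1] at hε
    have h2 : jf (D.wl q) D.xi Finset.univ ((x : Pol r) * y * D.et) = 0 := by
      apply jf_I0 (al := D.al) (fun i _ => D.wl_sign q i) (D.Pnt_wl (D.Feas_int hq)) (D.GX_wl q)
      rw [show (x : Pol r) * (y : Pol r) * D.et = (y : Pol r) * ((x : Pol r) * D.et) by ring]
      exact Ideal.mul_mem_left _ _ hx
    rw [h2, mul_zero, hy] at hε
    have h3 : ((D.stab q).card : ℚ) ≠ 0 := by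
      have : (1 : W) ∈ D.stab q := by
        simp [Datum.stab, D.tact_one]
      exact_mod_cast (Finset.card_pos.mpr ⟨1, this⟩).ne'
    exact mul_ne_zero h3 hb hε.symm

end Geo

end LibHK51
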