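import Pool.Agent.LibHK51.Rings2

/-!
# LibHK51: the abelianization isomorphism implies Kirwan surjectivity

After hyperkähler rotation `M = T^*A////G` is `μ_G⁻¹(ξ) / G_ℂ` and `T^*A////T` is `μ_T⁻¹(ξ) / T_ℂ`
(complex moment maps). `Y = μ_G⁻¹(ξ) / T_ℂ` is a closed submanifold of `T^*A////T`, the transversal
zero locus of a section of the sum of the line bundles of the roots, and a `G_ℂ/T_ℂ`-bundle over `M`.
-/

namespace LibHK51

open MvPolynomial

variable {W : Type} [Group W] [Fintype W] {r n : ℕ}

/-- the maps between `HM = H(T^*A////G)`, `HY = H(Y)` and `Coh D = H(T^*A////T)` -/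
structure RotData (D : Datum W r n) (HM HY : Type) [CommRing HM] [CommRing HY] where
  /-- the Kirwan map of `T^*A////G` -/
  kM : Inv D →+* HM
  /-- restriction from `T^*A////T` to `Y` -/
  iY : Coh D →+* HY
  /-- the Gysin map of `Y` in `T^*A////T` -/
  jY : HY →+ Coh D
  /-- pull back along `Y → T^*A////G` -/
  pY : HM →+* HY
  /-- the two ways to restrict a tautological class to `Y` agree -/
  comm : ∀ f : Inv D, iY (cl D (Inv.val D f)) = pY (kM f)
  /-- the Euler class of the normal bundle of `Y` is the product of the roots -/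
  euler : ∀ x : Coh D, jY (iY x) = x * cl D D.et

namespace RotData

variable {D : Datum W r n} {HM HY : Type} [CommRing HM] [CommRing HY] (R : RotData D HM HY)

theorem ker_le (f : Inv D) (h : R.kM f = 0) : kTA D f = 0 := by
  rw [kTA_eq_zero]
  have h1 : R.jY (R.iY (cl D (Inv.val D f))) = 0 := by
    rw [R.comm, h, map_zero, map_zero]
  rw [R.euler, ← map_mul] at h1
  exact Ideal.Quotient.eq_zero_iff_mem.mp h1

/-- linear algebra: two maps onto and into a finite dimensional space with the same target -/
private theorem surj_of_ker_le {V F : Type} [AddCommGroup V] [Module ℚ V] [AddCommGroup F]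
    [Module ℚ F] [FiniteDimensional ℚ F] (a b : V →ₗ[ℚ] F)
    (hab : LinearMap.ker a ≤ LinearMap.ker b) (hb : Function.Surjective b) :
    Function.Surjective a := by
  have h1 : ∃ g : LinearMap.range a →ₗ[ℚ] F, ∀ v, g ⟨a v, LinearMap.mem_range_self a v⟩ = b v := by
    refine ⟨(LinearMap.ker a).liftQ b hab ∘ₗ a.quotKerEquivRange.symm.toLinearMap, ?_⟩
    intro v
    have h2 : a.quotKerEquivRange.symm ⟨a v, LinearMap.mem_range_self a v⟩ =
        Submodule.Quotient.mk v := by
      rw [LinearEquiv.symm_apply_eq]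
      rfl
    rw [LinearMap.comp_apply, LinearEquiv.coe_coe, h2]
    rfl
  obtain ⟨g, hg⟩ := h1
  have hgs : Function.Surjective g := by
    intro y
    obtain ⟨v, hv⟩ := hb y
    exact ⟨⟨a v, LinearMap.mem_range_self a v⟩, by rw [hg, hv]⟩
  have h3 : Module.finrank ℚ F ≤ Module.finrank ℚ (LinearMap.range a) :=
    LinearMap.finrank_le_finrank_of_surjective hgs
  have h4 : LinearMap.range a = ⊤ := by
    apply Submodule.eq_top_of_finrank_eq
    exact le_antisymm (Submodule.finrank_le _) h3
  exact LinearMap.range_eq_top.mp h4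

theorem surj_of_iso [Algebra ℚ HM] [FiniteDimensional ℚ HM] (Φ : HM ≃+* HT D) :
    Function.Surjective R.kM := by
  let k : D.inv →+* HM := R.kM
  let t : D.inv →+* HT D := kTA D
  have h := surj_of_ker_le k.toRatAlgHom.toLinearMap
    (Φ.symm.toRingHom.comp t).toRatAlgHom.toLinearMap
    (by
      intro f hf
      have h1 : R.kM (f : Inv D) = 0 := hf
      have h2 : Φ.symm (kTA D (f : Inv D)) = 0 := by rw [R.ker_le f h1, map_zero]
      exact h2)
    (by
      intro y
      obtain ⟨f, hf⟩ := kTA_surj D (Φ y)
      refine ⟨f, ?_⟩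
      change Φ.symm (kTA D f) = y
      rw [hf, RingEquiv.symm_apply_apply])
  exact h

end RotData

end LibHK51
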