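import Pool.Agent.LibHK51.Defs

/-! Row TA: linear algebra of `dt`, `pt`. Only Mathlib + Defs. (The statements follow; the plan:
`dt w B` is the absolute value of the determinant of the matrix with rows `w i`, `i ∈ B`, in
increasing order, zero when `B.card ≠ r`.)

* `dt_image`: for an injective enumeration `b` the finset `univ.image b` has `r` elements and
  `b = orderEmbOfFin ∘ e` for a permutation `e` (`Equiv.ofBijective`), and
  `Matrix.det_permute'`/`Matrix.det_permute` changes the determinant by a sign, invisible in `|·|`.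
* `dt_ne_iff`: `Matrix.det ≠ 0` iff rows linearly independent
  (`Matrix.linearIndependent_rows_iff_isUnit`), transported along `B.orderIsoOfFin`.
* `pt_spec`, `pt_uniq`: the matrix with rows `w i` is invertible.
* `coef_ex`, `coef_uniq`: `r` independent vectors in `ℚ^r` are a basis.
* `dt_swap`: Cramer: write the determinant with `b` = an enumeration of `B` and
  `Function.update b j₀ i`; by multilinearity in row `j₀` it is `c j * det` (`Matrix.det_updateRow_sum`
  or `Matrix.cramer`).
-/

namespace LibHK51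

open scoped Classical

variable {r n : ℕ}

private lemma enum_sum {M : Type*} [AddCommMonoid M] (B : Finset (Fin n)) (h : B.card = r)
    (f : Fin n → M) : ∑ i ∈ B, f i = ∑ j, f (B.orderEmbOfFin h j) := by
  conv_lhs => rw [← Finset.map_orderEmbOfFin_univ B h]
  rw [Finset.sum_map]
  rfl

private lemma enum_surj (B : Finset (Fin n)) (h : B.card = r) {i : Fin n} (hi : i ∈ B) :
    ∃ j, B.orderEmbOfFin h j = i := by
  rw [← Finset.map_orderEmbOfFin_univ B h] at hi
  rw [Finset.mem_map] at hi
  obtain ⟨j, _, hj⟩ := hi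
  exact ⟨j, hj⟩

private lemma abs_sign (σ : Equiv.Perm (Fin r)) : |(((Equiv.Perm.sign σ : ℤˣ) : ℤ) : ℚ)| = 1 := by
  rcases Int.units_eq_one_or (Equiv.Perm.sign σ) with h | h
  · rw [h]
    simp
  · rw [h]
    simp

theorem dt_nonneg (w : Fin n → Vec r) (B : Finset (Fin n)) : 0 ≤ dt w B := by
  unfold dt
  split_ifs
  · exact abs_nonneg _
  · exact le_refl _

theorem dt_congr {w w' : Fin n → Vec r} {B : Finset (Fin n)} (h : ∀ i ∈ B, w i = w' i) :
    dt w B = dt w' B := by
  unfold dt
  split_ifs with hc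
  · congr 2
    ext j k
    rw [Matrix.of_apply, Matrix.of_apply, h _ (Finset.orderEmbOfFin_mem B hc j)]
  · rfl

theorem dt_image (w : Fin n → Vec r) (b : Fin r → Fin n) (hb : Function.Injective b) :
    dt w (Finset.univ.image b) = |Matrix.det (Matrix.of (fun j => w (b j)))| := by
  have hc : (Finset.univ.image b).card = r := by
    rw [Finset.card_image_of_injective _ hb, Finset.card_univ, Fintype.card_fin]
  have hex : ∀ j, ∃ k, (Finset.univ.image b).orderEmbOfFin hc k = b j := fun j =>
    enum_surj _ hc (Finset.mem_image_of_mem _ (Finset.mem_univ j))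
  choose σ hσ using hex
  have hinj : Function.Injective σ := by
    intro x y hxy
    apply hb
    rw [← hσ x, ← hσ y, hxy]
  let τ : Equiv.Perm (Fin r) := Equiv.ofBijective σ (Finite.injective_iff_bijective.mp hinj)
  unfold dt
  rw [dif_pos hc]
  have e : (Matrix.of (fun j => w (b j)) : Matrix (Fin r) (Fin r) ℚ) =
      (Matrix.of (fun j => w ((Finset.univ.image b).orderEmbOfFin hc j)) :
        Matrix (Fin r) (Fin r) ℚ).submatrix τ id := by
    ext j k
    show w (b j) k = w ((Finset.univ.image b).orderEmbOfFin hc (σ j)) k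
    rw [hσ]
  rw [e, Matrix.det_permute, abs_mul, abs_sign, one_mul]

theorem dt_card {w : Fin n → Vec r} {B : Finset (Fin n)} (h : dt w B ≠ 0) : B.card = r := by
  by_contra hc
  apply h
  unfold dt
  rw [dif_neg hc]

theorem dt_ne_iff (w : Fin n → Vec r) (B : Finset (Fin n)) :
    dt w B ≠ 0 ↔ B.card = r ∧ LinearIndependent ℚ (fun i : B => w i) := by
  by_cases hc : B.card = r
  · unfold dt
    rw [dif_pos hc, abs_ne_zero, ← isUnit_iff_ne_zero, ← Matrix.isUnit_iff_isUnit_det,
      ← Matrix.linearIndependent_rows_iff_isUnit]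
    have e := linearIndependent_equiv (R := ℚ) (B.orderIsoOfFin hc).toEquiv (f := fun i : B => w i)
    constructor
    · intro h
      refine ⟨hc, e.mp ?_⟩
      exact h
    · intro h
      exact e.mpr h.2
  · constructor
    · intro h
      exact absurd (dt_card h) hc
    · intro h
      exact absurd h.1 hc

/-- the determinant does not see signs -/
theorem dt_signs {w w' : Fin n → Vec r} {B : Finset (Fin n)}
    (h : ∀ i ∈ B, w' i = w i ∨ w' i = - w i) : dt w' B = dt w B := by
  by_cases hc : B.card = r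
  · unfold dt
    rw [dif_pos hc, dif_pos hc]
    have hex : ∀ j, ∃ e : ℚ, |e| = 1 ∧ w' (B.orderEmbOfFin hc j) = e • w (B.orderEmbOfFin hc j) := by
      intro j
      rcases h _ (Finset.orderEmbOfFin_mem B hc j) with h1 | h1
      · exact ⟨1, by simp, by rw [h1, one_smul]⟩
      · exact ⟨-1, by simp, by rw [h1, neg_one_smul]⟩
    choose e he1 he2 using hex
    have e3 : (Matrix.of (fun j => w' (B.orderEmbOfFin hc j)) : Matrix (Fin r) (Fin r) ℚ) =
        Matrix.of (fun j k => e j *
          (Matrix.of (fun j => w (B.orderEmbOfFin hc j)) : Matrix (Fin r) (Fin r) ℚ) j k) := by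
      ext j k
      rw [Matrix.of_apply, Matrix.of_apply, he2]
      rfl
    rw [e3, Matrix.det_mul_column, abs_mul, Finset.abs_prod]
    simp [he1]
  · unfold dt
    rw [dif_neg hc, dif_neg hc]

theorem pt_spec {w : Fin n → Vec r} {B : Finset (Fin n)} (h : dt w B ≠ 0) (s : Fin n → ℚ) :
    ∀ i ∈ B, w i ⬝ᵥ pt w s B + s i = 0 := by
  have hc := dt_card h
  have hd : Matrix.det (Matrix.of (fun j : Fin r => w (B.orderEmbOfFin hc j))) ≠ 0 := by
    unfold dt at h
    rw [dif_pos hc, abs_ne_zero] at h
    exact h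
  have hex : ∃ p : Vec r, ∀ i ∈ B, w i ⬝ᵥ p + s i = 0 := by
    refine ⟨(Matrix.of (fun j : Fin r => w (B.orderEmbOfFin hc j)))⁻¹.mulVec
      (fun j => - s (B.orderEmbOfFin hc j)), ?_⟩
    intro i hi
    obtain ⟨j, rfl⟩ := enum_surj B hc hi
    have e : (Matrix.of (fun j : Fin r => w (B.orderEmbOfFin hc j))).mulVec
        ((Matrix.of (fun j : Fin r => w (B.orderEmbOfFin hc j)))⁻¹.mulVec
      (fun j => - s (B.orderEmbOfFin hc j))) = fun j => - s (B.orderEmbOfFin hc j) := by
      rw [Matrix.mulVec_mulVec, Matrix.mul_nonsing_inv _ (isUnit_iff_ne_zero.mpr hd),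
        Matrix.one_mulVec]
    have e2 := congrFun e j
    have e3 : w (B.orderEmbOfFin hc j) ⬝ᵥ ((Matrix.of (fun j : Fin r =>
      w (B.orderEmbOfFin hc j)))⁻¹.mulVec (fun j => - s (B.orderEmbOfFin hc j))) =
        - s (B.orderEmbOfFin hc j) := e2
    rw [e3]
    ring
  unfold pt
  rw [dif_pos hex]
  exact hex.choose_spec

theorem pt_uniq {w : Fin n → Vec r} {B : Finset (Fin n)} (h : dt w B ≠ 0) {s : Fin n → ℚ}
    {p : Vec r} (hp : ∀ i ∈ B, w i ⬝ᵥ p + s i = 0) : p = pt w s B := by
  have hc := dt_card h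
  have hd : Matrix.det (Matrix.of (fun j : Fin r => w (B.orderEmbOfFin hc j))) ≠ 0 := by
    unfold dt at h
    rw [dif_pos hc, abs_ne_zero] at h
    exact h
  have h1 := pt_spec h s
  rw [← sub_eq_zero]
  apply Matrix.eq_zero_of_mulVec_eq_zero hd
  funext j
  have h2 := hp _ (Finset.orderEmbOfFin_mem B hc j)
  have h3 := h1 _ (Finset.orderEmbOfFin_mem B hc j)
  show w (B.orderEmbOfFin hc j) ⬝ᵥ (p - pt w s B) = 0
  rw [dotProduct_sub]
  linarith

theorem coef_ex {w : Fin n → Vec r} {B : Finset (Fin n)} (h : dt w B ≠ 0) (v : Vec r) :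
    ∃ c : Fin n → ℚ, ∑ i ∈ B, c i • w i = v := by
  obtain ⟨hc, hli⟩ := (dt_ne_iff w B).mp h
  have hs : Submodule.span ℚ (w '' (B : Set (Fin n))) = ⊤ := by
    have h1 := hli.span_eq_top_of_card_eq_finrank' (by
      rw [Fintype.card_coe, hc, Module.finrank_fin_fun])
    rw [← h1, Set.image_eq_range]
    rfl
  have hv : v ∈ Submodule.span ℚ (w '' (B : Set (Fin n))) := by
    rw [hs]
    trivial
  rw [Submodule.mem_span_image_finset_iff_exists_fun] at hv
  obtain ⟨c, hcv⟩ := hv
  refine ⟨fun i => if hi : i ∈ B then c ⟨i, hi⟩ else 0, ?_⟩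
  rw [← Finset.sum_coe_sort B, ← hcv]
  apply Finset.sum_congr rfl
  intro i _
  show (if hi : (i : Fin n) ∈ B then c ⟨i, hi⟩ else 0) • w i = c i • w i
  rw [dif_pos i.2]

theorem coef_uniq {w : Fin n → Vec r} {B : Finset (Fin n)} (h : dt w B ≠ 0) {c c' : Fin n → ℚ}
    (hc : ∑ i ∈ B, c i • w i = ∑ i ∈ B, c' i • w i) : ∀ i ∈ B, c i = c' i := by
  obtain ⟨hcd, hli⟩ := (dt_ne_iff w B).mp h
  intro i hi
  have h1 := Fintype.linearIndependent_iff.mp hli (fun i => c i - c' i) (by
    have h2 := Finset.sum_coe_sort B (fun i => (c i - c' i) • w i)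
    rw [h2]
    simp only [sub_smul, Finset.sum_sub_distrib]
    rw [hc, sub_self]) ⟨i, hi⟩
  exact sub_eq_zero.mp h1

theorem span_of_dt {w : Fin n → Vec r} {B : Finset (Fin n)} (h : dt w B ≠ 0) :
    Submodule.span ℚ (w '' (B : Set (Fin n))) = ⊤ := by
  rw [eq_top_iff]
  intro v _
  obtain ⟨c, rfl⟩ := coef_ex h v
  apply Submodule.sum_mem
  intro i hi
  exact Submodule.smul_mem _ _ (Submodule.subset_span ⟨i, hi, rfl⟩)

/-- a spanning family contains a basis -/
theorem dt_of_span {w : Fin n → Vec r} {S : Finset (Fin n)}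
    (h : Submodule.span ℚ (w '' (S : Set (Fin n))) = ⊤) : ∃ B ⊆ S, dt w B ≠ 0 := by
  obtain ⟨b, hbS, _, hsp, hli⟩ := exists_linearIndepOn_extension
    (linearIndepOn_empty ℚ w) (Set.empty_subset (S : Set (Fin n)))
  have htop : Submodule.span ℚ (w '' b) = ⊤ := by
    rw [eq_top_iff, ← h]
    exact Submodule.span_le.mpr hsp
  refine ⟨b.toFinset, ?_, ?_⟩
  · intro i hi
    exact hbS (Set.mem_toFinset.mp hi)
  · rw [dt_ne_iff]
    have hli' : LinearIndependent ℚ (fun i : b => w i) := hli
    have hcard : b.toFinset.card = r := by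
      have h1 := finrank_span_eq_card hli'
      have h2 : Set.range (fun i : b => w i) = w '' b := by
        rw [Set.image_eq_range]
      rw [h2, htop, finrank_top, Module.finrank_fin_fun] at h1
      rw [Set.toFinset_card, ← h1]
    refine ⟨hcard, ?_⟩
    have e : ∀ i : Fin n, i ∈ b.toFinset ↔ i ∈ b := fun i => Set.mem_toFinset
    exact hli'.comp (fun i : b.toFinset => (⟨i.1, (e i.1).mp i.2⟩ : b)) (by
      intro x y hxy
      apply Subtype.ext
      exact congrArg (fun z : b => z.1) hxy)

/-- Cramer's rule -/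
theorem dt_swap {w : Fin n → Vec r} {B : Finset (Fin n)} {i j : Fin n} (hB : B.card = r)
    (hj : j ∈ B) (hi : i ∉ B) {c : Fin n → ℚ} (hc : w i = ∑ k ∈ B, c k • w k) :
    dt w (insert i (B.erase j)) = |c j| * dt w B := by
  obtain ⟨j₀, rfl⟩ := enum_surj B hB hj
  have hne : ∀ k, B.orderEmbOfFin hB k ≠ i := by
    intro k hk
    exact hi (hk ▸ Finset.orderEmbOfFin_mem B hB k)
  have hinj0 : Function.Injective (B.orderEmbOfFin hB) := (B.orderEmbOfFin hB).injective
  have hinj : Function.Injective (Function.update (B.orderEmbOfFin hB) j₀ i) := by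
    intro x y hxy
    by_cases hx : x = j₀
    · by_cases hy : y = j₀
      · rw [hx, hy]
      · rw [hx, Function.update_self, Function.update_of_ne hy] at hxy
        exact absurd hxy.symm (hne y)
    · by_cases hy : y = j₀
      · rw [hy, Function.update_self, Function.update_of_ne hx] at hxy
        exact absurd hxy (hne x)
      · rw [Function.update_of_ne hx, Function.update_of_ne hy] at hxy
        exact hinj0 hxy
  have himg : insert i (B.erase (B.orderEmbOfFin hB j₀)) =
      Finset.univ.image (Function.update (B.orderEmbOfFin hB) j₀ i) := by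
    ext x
    rw [Finset.mem_insert, Finset.mem_erase, Finset.mem_image]
    constructor
    · rintro (rfl | ⟨h1, h2⟩)
      · exact ⟨j₀, Finset.mem_univ _, Function.update_self _ _ _⟩
      · obtain ⟨k, rfl⟩ := enum_surj B hB h2
        have hk : k ≠ j₀ := fun hk => h1 (by rw [hk])
        exact ⟨k, Finset.mem_univ _, Function.update_of_ne hk _ _⟩
    · rintro ⟨k, _, rfl⟩
      by_cases hk : k = j₀
      · left
        rw [hk, Function.update_self]
      · right
        rw [Function.update_of_ne hk]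
        exact ⟨fun h => hk (hinj0 h), Finset.orderEmbOfFin_mem B hB k⟩
  rw [himg, dt_image w _ hinj]
  have e : (Matrix.of (fun k => w (Function.update (B.orderEmbOfFin hB) j₀ i k)) :
      Matrix (Fin r) (Fin r) ℚ) =
      (Matrix.of (fun k => w (B.orderEmbOfFin hB k)) : Matrix (Fin r) (Fin r) ℚ).updateRow j₀
        (∑ k, c (B.orderEmbOfFin hB k) •
          (Matrix.of (fun k => w (B.orderEmbOfFin hB k)) : Matrix (Fin r) (Fin r) ℚ) k) := by
    have hw : w i = ∑ k, c (B.orderEmbOfFin hB k) •
          (Matrix.of (fun k => w (B.orderEmbOfFin hB k)) : Matrix (Fin r) (Fin r) ℚ) k := by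
      rw [hc, enum_sum B hB]
      rfl
    rw [← hw]
    ext k l
    by_cases hk : k = j₀
    · rw [hk, Matrix.updateRow_self, Matrix.of_apply, Function.update_self]
    · rw [Matrix.updateRow_ne hk, Matrix.of_apply, Matrix.of_apply, Function.update_of_ne hk]
  rw [e, Matrix.det_updateRow_sum, smul_eq_mul, abs_mul]
  congr 1
  unfold dt
  rw [dif_pos hB]

end LibHK51
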