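import Pool.Agent.LibHK51.TA

/-! Row TB: generic parameters exist. Uses only the statements of TA.

Plan: for every `B ⊆ S` with `dt w B ≠ 0` and `i ∈ S \ B` write `w i = ∑ k ∈ B, c k • w k`
(`coef_ex`); then `w i ⬝ᵥ pt w s B + s i = s i - ∑ k ∈ B, c k * s k` for every `s` (`pt_spec`). This is
the evaluation at `s` of a nonzero polynomial in `MvPolynomial (Fin n) ℚ` (coefficient of `X i` is 1).
The product over all pairs `(B, i)` is nonzero, so it has a point where it does not vanish
(`MvPolynomial.funext` over an infinite field). For `gen_exists_zero` use instead the polynomial with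
`X i0` replaced by `0`: it is still nonzero, for `i ≠ i0` because of the coefficient of `X i`, for
`i = i0` because `w i0 ≠ 0` forces some `c k ≠ 0` with `k ∈ B`, `k ≠ i0`.
(Alternatively `s j = t ^ (j+1)` for all but finitely many `t`, with `s i0 = 0`.) -/

namespace LibHK51

open scoped Classical

variable {r n : ℕ}

private theorem TB_lin {ι : Type*} (T : Finset ι) (b : ι → Fin n → ℚ) (hb : ∀ t ∈ T, ∃ j, b t j ≠ 0) :
    ∃ s : Fin n → ℚ, ∀ t ∈ T, ∑ j, b t j * s j ≠ 0 := by
  set P : ι → MvPolynomial (Fin n) ℚ := fun t =>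
    ∑ j, MvPolynomial.C (b t j) * MvPolynomial.X j with hP
  have heval : ∀ t (s : Fin n → ℚ), MvPolynomial.eval s (P t) = ∑ j, b t j * s j := by
    intro t s
    rw [hP]
    simp only [map_sum, map_mul, MvPolynomial.eval_C, MvPolynomial.eval_X]
  have hne : ∏ t ∈ T, P t ≠ 0 := by
    rw [Finset.prod_ne_zero_iff]
    intro t ht h0
    obtain ⟨j, hj⟩ := hb t ht
    apply hj
    have h1 := heval t (Pi.single j 1)
    rw [h0, map_zero] at h1
    rw [Finset.sum_eq_single j] at h1
    · simpa using h1.symm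
    · intro l _ hl
      rw [Pi.single_eq_of_ne hl, mul_zero]
    · intro h
      exact absurd (Finset.mem_univ j) h
  by_contra hcon
  push Not at hcon
  apply hne
  apply MvPolynomial.funext
  intro s
  obtain ⟨t, ht, h0⟩ := hcon s
  rw [map_prod, map_zero]
  apply Finset.prod_eq_zero ht
  rw [heval, h0]

private theorem TB_main (w : Fin n → Vec r) (S Z : Finset (Fin n))
    (hZ : ∀ B ⊆ S, dt w B ≠ 0 → ∀ i ∈ S \ B, ∀ c : Fin n → ℚ, ∑ k ∈ B, c k • w k = w i →
      ∃ j, j ∉ Z ∧ (if j = i then (1 : ℚ) else if j ∈ B then - c j else 0) ≠ 0) :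
    ∃ s : Fin n → ℚ, (∀ j ∈ Z, s j = 0) ∧ Gen w s S := by
  have hc : ∀ (B : Finset (Fin n)) (i : Fin n), ∃ c : Fin n → ℚ, dt w B ≠ 0 →
      ∑ k ∈ B, c k • w k = w i := by
    intro B i
    by_cases h : dt w B ≠ 0
    · obtain ⟨c, hc⟩ := coef_ex h (w i)
      exact ⟨c, fun _ => hc⟩
    · exact ⟨0, fun h' => absurd h' h⟩
  choose c hc using hc
  set T : Finset (Finset (Fin n) × Fin n) :=
    (S.powerset ×ˢ S).filter (fun t => dt w t.1 ≠ 0 ∧ t.2 ∉ t.1) with hT
  obtain ⟨s₀, hs₀⟩ := TB_lin T (fun t j => if j ∈ Z then 0 else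
      (if j = t.2 then (1 : ℚ) else if j ∈ t.1 then - c t.1 t.2 j else 0)) (by
    intro t ht
    rw [hT, Finset.mem_filter, Finset.mem_product, Finset.mem_powerset] at ht
    obtain ⟨⟨h1, h2⟩, h3, h4⟩ := ht
    obtain ⟨j, hj, hj'⟩ := hZ t.1 h1 h3 t.2 (Finset.mem_sdiff.2 ⟨h2, h4⟩) (c t.1 t.2) (hc t.1 t.2 h3)
    refine ⟨j, ?_⟩
    rw [if_neg hj]
    exact hj')
  refine ⟨fun j => if j ∈ Z then 0 else s₀ j, fun j hj => if_pos hj, ?_⟩
  intro B hB h i hi
  have hiB := (Finset.mem_sdiff.1 hi).2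
  have hkey := hs₀ (B, i) (by
    rw [hT, Finset.mem_filter, Finset.mem_product, Finset.mem_powerset]
    exact ⟨⟨hB, (Finset.mem_sdiff.1 hi).1⟩, h, hiB⟩)
  set s : Fin n → ℚ := fun j => if j ∈ Z then 0 else s₀ j with hs
  have h1 : w i ⬝ᵥ pt w s B = - ∑ k ∈ B, c B i k * s k := by
    rw [← hc B i h, sum_dotProduct, ← Finset.sum_neg_distrib]
    refine Finset.sum_congr rfl fun k hk => ?_
    rw [smul_dotProduct, smul_eq_mul]
    have h2 := pt_spec h s k hk
    have h3 : w k ⬝ᵥ pt w s B = - s k := by linarith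
    rw [h3]
    ring
  have h2 : ∑ j, (if j ∈ Z then (0 : ℚ) else
      (if j = i then (1 : ℚ) else if j ∈ B then - c B i j else 0)) * s₀ j =
      s i - ∑ k ∈ B, c B i k * s k := by
    have h3 : ∀ j, (if j ∈ Z then (0 : ℚ) else
        (if j = i then (1 : ℚ) else if j ∈ B then - c B i j else 0)) * s₀ j =
        (if j = i then s j else 0) - (if j ∈ B then c B i j * s j else 0) := by
      intro j
      by_cases hjZ : j ∈ Z
      · have : s j = 0 := if_pos hjZ
        rw [if_pos hjZ, this]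
        simp
      · have hsj : s j = s₀ j := if_neg hjZ
        rw [if_neg hjZ, hsj]
        by_cases hji : j = i
        · rw [if_pos hji, if_pos hji, if_neg (by rw [hji]; exact hiB)]
          ring
        · rw [if_neg hji, if_neg hji]
          by_cases hjB : j ∈ B
          · rw [if_pos hjB, if_pos hjB]
            ring
          · rw [if_neg hjB, if_neg hjB]
            ring
    rw [Finset.sum_congr rfl fun j _ => h3 j, Finset.sum_sub_distrib, Finset.sum_ite_eq',
      if_pos (Finset.mem_univ i), Finset.sum_ite_mem, Finset.univ_inter]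
  intro h0
  apply hkey
  show ∑ j, (if j ∈ Z then (0 : ℚ) else
      (if j = i then (1 : ℚ) else if j ∈ B then - c B i j else 0)) * s₀ j = 0
  rw [h2]
  rw [h1] at h0
  linarith

theorem gen_exists (w : Fin n → Vec r) (S : Finset (Fin n)) : ∃ s : Fin n → ℚ, Gen w s S := by
  obtain ⟨s, _, hs⟩ := TB_main w S ∅ (by
    intro B _ _ i _ c _
    refine ⟨i, Finset.notMem_empty i, ?_⟩
    rw [if_pos rfl]
    exact one_ne_zero)
  exact ⟨s, hs⟩

theorem gen_exists_zero (w : Fin n → Vec r) (S : Finset (Fin n)) (i0 : Fin n) (h : w i0 ≠ 0) :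
    ∃ s : Fin n → ℚ, s i0 = 0 ∧ Gen w s S := by
  obtain ⟨s, hs0, hs⟩ := TB_main w S {i0} (by
    intro B _ _ i hi c hc
    by_cases hii : i = i0
    · subst hii
      have hiB := (Finset.mem_sdiff.1 hi).2
      obtain ⟨k, hk, hck⟩ : ∃ k ∈ B, c k ≠ 0 := by
        by_contra hcon
        push Not at hcon
        apply h
        rw [← hc]
        exact Finset.sum_eq_zero fun k hk => by rw [hcon k hk, zero_smul]
      have hki : k ≠ i := fun h' => hiB (h' ▸ hk)
      refine ⟨k, by simpa using hki, ?_⟩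
      rw [if_neg hki, if_pos hk]
      exact neg_ne_zero.2 hck
    · refine ⟨i, by simpa using hii, ?_⟩
      rw [if_pos rfl]
      exact one_ne_zero)
  exact ⟨s, hs0 i0 (Finset.mem_singleton_self i0), hs⟩

end LibHK51
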