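import Pool.Agent.LibHK51.TA

/-! Row TC: elementary facts about `Gen`, `Jsum`. Uses only the statements of TA.

* `Jsum_del`: a term with `i ∈ B` vanishes because of the factor `w i ⬝ᵥ p + s i = 0` (`pt_spec`,
  `eval_lf`); in a term with `i ∉ B` the factor cancels the factor of `i` in the denominator, which is
  nonzero by `Gen`; the sets `B ⊆ S`, `i ∉ B` are the subsets of `S.erase i`. -/

namespace LibHK51

open MvPolynomial

open scoped Classical

variable {r n : ℕ}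

theorem eval_lf (a p : Vec r) : eval p (lf a) = a ⬝ᵥ p := by
  simp [lf, dotProduct, map_sum]

theorem Gen.mono {w : Fin n → Vec r} {s : Fin n → ℚ} {S T : Finset (Fin n)} (h : Gen w s S)
    (hT : T ⊆ S) : Gen w s T := by
  intro B hB hd i hi
  rw [Finset.mem_sdiff] at hi
  exact h B (hB.trans hT) hd i (Finset.mem_sdiff.2 ⟨hT hi.1, hi.2⟩)

theorem GX.mono {w : Fin n → Vec r} {ξ : Vec r} {S T : Finset (Fin n)} (h : GX w ξ S)
    (hT : T ⊆ S) : GX w ξ T :=
  fun U hU => h U (hU.trans hT)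

theorem Pnt.mono {w : Fin n → Vec r} {S T : Finset (Fin n)} (h : Pnt w S) (hT : T ⊆ S) :
    Pnt w T := by
  obtain ⟨l, hl⟩ := h
  exact ⟨l, fun i hi => hl i (hT hi)⟩

private theorem pt_congr' {w w' : Fin n → Vec r} {s : Fin n → ℚ} {B : Finset (Fin n)}
    (h : ∀ i ∈ B, w i = w' i) (hd : dt w B ≠ 0) : pt w' s B = pt w s B := by
  apply pt_uniq hd
  intro i hi
  have hd' : dt w' B ≠ 0 := by rwa [← dt_congr h]
  rw [h i hi]
  exact pt_spec hd' s i hi

/-- `Gen`, `GX`, `Jsum` only see the vectors indexed by `S` -/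
theorem Gen.congr {w w' : Fin n → Vec r} {s : Fin n → ℚ} {S : Finset (Fin n)}
    (h : ∀ i ∈ S, w i = w' i) (hs : Gen w s S) : Gen w' s S := by
  intro B hB hd i hi
  have hB' : ∀ i ∈ B, w i = w' i := fun i hi => h i (hB hi)
  have hd' : dt w B ≠ 0 := by rwa [dt_congr hB']
  rw [pt_congr' hB' hd', ← h i (Finset.mem_sdiff.1 hi).1]
  exact hs B hB hd' i hi

private theorem image_congr' {w w' : Fin n → Vec r} {T : Finset (Fin n)}
    (h : ∀ i ∈ T, w i = w' i) : w '' (T : Set (Fin n)) = w' '' (T : Set (Fin n)) :=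
  Set.image_congr (fun i hi => h i hi)

theorem GX.congr {w w' : Fin n → Vec r} {ξ : Vec r} {S : Finset (Fin n)}
    (h : ∀ i ∈ S, w i = w' i) (hs : GX w ξ S) : GX w' ξ S := by
  intro T hT
  rw [← image_congr' (fun i hi => h i (hT hi))]
  exact hs T hT

/-- genericity of `ξ` does not see signs -/
theorem GX.signs {w w' : Fin n → Vec r} {ξ : Vec r} {S : Finset (Fin n)}
    (h : ∀ i ∈ S, w' i = w i ∨ w' i = - w i) (hs : GX w ξ S) : GX w' ξ S := by
  intro T hT
  have key : Submodule.span ℚ (w' '' (T : Set (Fin n))) =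
      Submodule.span ℚ (w '' (T : Set (Fin n))) := by
    apply le_antisymm
    · rw [Submodule.span_le]
      rintro _ ⟨i, hi, rfl⟩
      have hm : w i ∈ Submodule.span ℚ (w '' (T : Set (Fin n))) :=
        Submodule.subset_span ⟨i, hi, rfl⟩
      rcases h i (hT hi) with e | e
      · rw [SetLike.mem_coe, e]; exact hm
      · rw [SetLike.mem_coe, e]; exact Submodule.neg_mem _ hm
    · rw [Submodule.span_le]
      rintro _ ⟨i, hi, rfl⟩
      have hm : w' i ∈ Submodule.span ℚ (w' '' (T : Set (Fin n))) :=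
        Submodule.subset_span ⟨i, hi, rfl⟩
      rcases h i (hT hi) with e | e
      · rw [SetLike.mem_coe, ← e]; exact hm
      · have e' : w i = - w' i := by rw [e, neg_neg]
        rw [SetLike.mem_coe, e']; exact Submodule.neg_mem _ hm
  rw [key]
  exact hs T hT

private theorem Fe_congr' {w w' : Fin n → Vec r} {ξ : Vec r} {B : Finset (Fin n)}
    (h : ∀ i ∈ B, w i = w' i) : Fe w ξ B ↔ Fe w' ξ B := by
  unfold Fe
  constructor
  · rintro ⟨c, hc, he⟩
    refine ⟨c, hc, ?_⟩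
    rw [← he]
    exact Finset.sum_congr rfl (fun i hi => by rw [h i hi])
  · rintro ⟨c, hc, he⟩
    refine ⟨c, hc, ?_⟩
    rw [← he]
    exact Finset.sum_congr rfl (fun i hi => by rw [h i hi])

theorem Jsum_congr {w w' : Fin n → Vec r} {s : Fin n → ℚ} {ξ : Vec r} {S : Finset (Fin n)}
    (h : ∀ i ∈ S, w i = w' i) (Z : Pol r) : Jsum w s ξ S Z = Jsum w' s ξ S Z := by
  unfold Jsum
  have hf : S.powerset.filter (fun B => dt w B ≠ 0 ∧ Fe w ξ B) =
      S.powerset.filter (fun B => dt w' B ≠ 0 ∧ Fe w' ξ B) := by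
    apply Finset.filter_congr
    intro B hB
    have hB' : ∀ i ∈ B, w i = w' i := fun i hi => h i (Finset.mem_powerset.1 hB hi)
    rw [dt_congr hB', Fe_congr' hB']
  rw [hf]
  apply Finset.sum_congr rfl
  intro B hB
  rw [Finset.mem_filter, Finset.mem_powerset] at hB
  have hB' : ∀ i ∈ B, w i = w' i := fun i hi => h i (hB.1 hi)
  have hd' : dt w B ≠ 0 := by rw [dt_congr hB']; exact hB.2.1
  rw [pt_congr' hB' hd', dt_congr hB']
  congr 2
  apply Finset.prod_congr rfl
  intro i hi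
  rw [h i (Finset.mem_sdiff.1 hi).1]

theorem Jsum_add (w : Fin n → Vec r) (s : Fin n → ℚ) (ξ : Vec r) (S : Finset (Fin n))
    (Y Z : Pol r) : Jsum w s ξ S (Y + Z) = Jsum w s ξ S Y + Jsum w s ξ S Z := by
  unfold Jsum
  rw [← Finset.sum_add_distrib]
  apply Finset.sum_congr rfl
  intro B _
  rw [map_add, add_div]

theorem Jsum_smul (w : Fin n → Vec r) (s : Fin n → ℚ) (ξ : Vec r) (S : Finset (Fin n)) (c : ℚ)
    (Z : Pol r) : Jsum w s ξ S (C c * Z) = c * Jsum w s ξ S Z := by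
  unfold Jsum
  rw [Finset.mul_sum]
  apply Finset.sum_congr rfl
  intro B _
  rw [map_mul, eval_C, mul_div_assoc]

theorem Jsum_sum {ι : Type*} (w : Fin n → Vec r) (s : Fin n → ℚ) (ξ : Vec r) (S : Finset (Fin n))
    (I : Finset ι) (Z : ι → Pol r) :
    Jsum w s ξ S (∑ i ∈ I, Z i) = ∑ i ∈ I, Jsum w s ξ S (Z i) := by
  unfold Jsum
  rw [Finset.sum_comm]
  apply Finset.sum_congr rfl
  intro B _
  rw [map_sum, Finset.sum_div]

/-- no feasible basis, no sum -/
theorem Jsum_eq_zero {w : Fin n → Vec r} {ξ : Vec r} {S : Finset (Fin n)}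
    (h : ∀ B ⊆ S, dt w B ≠ 0 → ¬ Fe w ξ B) (s : Fin n → ℚ) (Z : Pol r) :
    Jsum w s ξ S Z = 0 := by
  unfold Jsum
  apply Finset.sum_eq_zero
  intro B hB
  rw [Finset.mem_filter, Finset.mem_powerset] at hB
  exact absurd hB.2.2 (h B hB.1 hB.2.1)

/-- deletion -/
theorem Jsum_del {w : Fin n → Vec r} {s : Fin n → ℚ} (ξ : Vec r) {S : Finset (Fin n)}
    (hs : Gen w s S) {i : Fin n} (hi : i ∈ S) (Z : Pol r) :
    Jsum w s ξ S (Z * (lf (w i) + C (s i))) = Jsum w s ξ (S.erase i) Z := by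
  unfold Jsum
  symm
  have hsub : (S.erase i).powerset.filter (fun B => dt w B ≠ 0 ∧ Fe w ξ B) ⊆
      S.powerset.filter (fun B => dt w B ≠ 0 ∧ Fe w ξ B) := by
    intro B hB
    rw [Finset.mem_filter, Finset.mem_powerset] at hB ⊢
    exact ⟨hB.1.trans (Finset.erase_subset _ _), hB.2⟩
  have hcalc : ∀ B, eval (pt w s B) (Z * (lf (w i) + C (s i))) =
      eval (pt w s B) Z * (w i ⬝ᵥ pt w s B + s i) := by
    intro B
    rw [map_mul, map_add, eval_lf, eval_C]
  rw [← Finset.sum_subset hsub (f := fun B => eval (pt w s B) (Z * (lf (w i) + C (s i))) /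
    (dt w B * ∏ i ∈ S \ B, (w i ⬝ᵥ pt w s B + s i)))]
  · apply Finset.sum_congr rfl
    intro B hB
    rw [Finset.mem_filter, Finset.mem_powerset] at hB
    have hiB : i ∉ B := fun hi' => (Finset.mem_erase.1 (hB.1 hi')).1 rfl
    have hBS : B ⊆ S := hB.1.trans (Finset.erase_subset _ _)
    have hne : w i ⬝ᵥ pt w s B + s i ≠ 0 :=
      hs B hBS hB.2.1 i (Finset.mem_sdiff.2 ⟨hi, hiB⟩)
    have hprod : ∏ j ∈ S \ B, (w j ⬝ᵥ pt w s B + s j) =
        (w i ⬝ᵥ pt w s B + s i) * ∏ j ∈ S.erase i \ B, (w j ⬝ᵥ pt w s B + s j) := by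
      have e : S.erase i \ B = (S \ B).erase i := by
        ext j
        simp only [Finset.mem_sdiff, Finset.mem_erase]
        tauto
      rw [e, Finset.mul_prod_erase (S \ B) (fun j => w j ⬝ᵥ pt w s B + s j)
        (Finset.mem_sdiff.2 ⟨hi, hiB⟩)]
    rw [hcalc, hprod, mul_left_comm (dt w B), mul_comm (eval _ Z), mul_div_mul_left _ _ hne]
  · intro B hB hB'
    rw [Finset.mem_filter, Finset.mem_powerset] at hB hB'
    have hiB : i ∈ B := by
      by_contra hiB
      exact hB' ⟨fun j hj => Finset.mem_erase.2 ⟨fun e => hiB (e ▸ hj), hB.1 hj⟩, hB.2⟩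
    rw [hcalc, pt_spec hB.2.1 s i hiB, mul_zero, zero_div]

end LibHK51
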