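import Pool.Agent.LibHK51.TC

/-! Row TD: the circuit case (two end points of a segment). Uses only the statements of TA, TC.

Plan. If there is no feasible basis `B ⊆ S` use `Jsum_eq_zero`. Otherwise a feasible basis has `r`
elements, so it is `S.erase i0`; write `w i0 = - ∑ k ∈ S.erase i0, γ k • w k`, `γ i0 = 1`, so that
`∑ k ∈ S, γ k • w k = 0`, and `ξ = ∑ k ∈ S.erase i0, c k • w k` with all `c k > 0`, `c i0 = 0`.
A solution `x : S → ℚ` of `∑ x k • w k = ξ` is `c + t γ` for some `t`. By `Pnt` some `γ k < 0`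
(pair the relation with `l`). For `k` with `γ k < 0` put `t k = c k / (- γ k) > 0`. The minimum of `t k`
is attained at exactly one `j0`: if it were attained at `j ≠ k` the solution `c + t γ` would vanish at
`j` and `k`, so `ξ` would be in the span of `r - 1` vectors, which is not everything (`GX`).
The feasible bases are exactly `S.erase i0` and `S.erase j0`: `S.erase j` with `j ≠ i0` is a basis iff
`γ j ≠ 0`, the solution vanishing at `j` has `t = - c j / γ j`, its `i0` coordinate is `t`, so `t > 0`,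
`γ j < 0`, and positivity of the others says `t < t k` for all other `k` with `γ k < 0`.
Let `Δ = ∑ k ∈ S, γ k * s k`. At `S.erase i0`: `w i0 · p + s i0 = Δ` (nonzero by `Gen`). At
`S.erase j0`: `dt w (S.erase j0) = |γ j0| * dt w (S.erase i0)` (`dt_swap`) and
`w j0 · p + s j0 = Δ / γ j0`. So the two terms are `1 / (d Δ)` and `1 / (|γ j0| d Δ / γ j0) =
- 1 / (d Δ)`. -/

namespace LibHK51

open MvPolynomial

open scoped Classical

variable {r n : ℕ}

private theorem TD_erase {S B : Finset (Fin n)} (hS : S.card = r + 1) (hB : B ⊆ S) (hc : B.card = r) :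
    ∃ i ∈ S, B = S.erase i := by
  obtain ⟨a, ha, hab⟩ := Finset.exists_eq_insert_iff.2 ⟨hB, by rw [hc, hS]⟩
  refine ⟨a, ?_, ?_⟩
  · rw [← hab]
    exact Finset.mem_insert_self _ _
  · rw [← hab, Finset.erase_insert ha]

private theorem TD_pt {w : Fin n → Vec r} {s : Fin n → ℚ} {S : Finset (Fin n)} {γ : Fin n → ℚ}
    (hγ : ∑ k ∈ S, γ k • w k = 0) {j : Fin n} (hj : j ∈ S) (hd : dt w (S.erase j) ≠ 0) :
    γ j * (w j ⬝ᵥ pt w s (S.erase j) + s j) = ∑ k ∈ S, γ k * s k := by
  have h1 : ∑ k ∈ S, γ k * (w k ⬝ᵥ pt w s (S.erase j)) = 0 := by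
    have h2 : (∑ k ∈ S, γ k • w k) ⬝ᵥ pt w s (S.erase j) = 0 := by rw [hγ, zero_dotProduct]
    rw [sum_dotProduct] at h2
    simpa [smul_dotProduct] using h2
  have h3 : ∑ k ∈ S, γ k * (w k ⬝ᵥ pt w s (S.erase j) + s k) = ∑ k ∈ S, γ k * s k := by
    simp only [mul_add, Finset.sum_add_distrib, h1, zero_add]
  rw [← h3, ← Finset.add_sum_erase S _ hj, Finset.sum_eq_zero, add_zero]
  intro k hk
  rw [pt_spec hd s k hk, mul_zero]

private theorem TD_sol {w : Fin n → Vec r} {ξ : Vec r} {S : Finset (Fin n)} {γ c x : Fin n → ℚ}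
    {i0 : Fin n} (hi0 : i0 ∈ S) (hd : dt w (S.erase i0) ≠ 0)
    (hγ : ∑ k ∈ S, γ k • w k = 0) (hγ0 : γ i0 = 1) (hc : ∑ k ∈ S, c k • w k = ξ) (hc0 : c i0 = 0)
    (hx : ∑ k ∈ S, x k • w k = ξ) : ∀ k ∈ S, x k = c k + x i0 * γ k := by
  have h1 : ∑ k ∈ S, (x k - x i0 * γ k) • w k = ξ := by
    simp only [sub_smul, Finset.sum_sub_distrib, mul_smul, ← Finset.smul_sum, hγ, smul_zero,
      sub_zero, hx]
  have h2 : ∑ k ∈ S.erase i0, (x k - x i0 * γ k) • w k = ξ := by
    rw [← Finset.add_sum_erase S _ hi0, hγ0, mul_one, sub_self, zero_smul, zero_add] at h1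
    exact h1
  have h3 : ∑ k ∈ S.erase i0, c k • w k = ξ := by
    rw [← Finset.add_sum_erase S _ hi0, hc0, zero_smul, zero_add] at hc
    exact hc
  intro k hk
  by_cases hki : k = i0
  · rw [hki, hc0, hγ0, mul_one, zero_add]
  · have h4 := coef_uniq hd (h2.trans h3.symm) k (Finset.mem_erase.2 ⟨hki, hk⟩)
    linarith

theorem Jsum_circ {w : Fin n → Vec r} {s : Fin n → ℚ} {ξ : Vec r} {S : Finset (Fin n)}
    (hS : S.card = r + 1) (hP : Pnt w S) (hX : GX w ξ S) (hs : Gen w s S) :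
    Jsum w s ξ S 1 = 0 := by
  by_cases hfe : ∀ B ⊆ S, dt w B ≠ 0 → ¬ Fe w ξ B
  · exact Jsum_eq_zero hfe s 1
  push Not at hfe
  obtain ⟨B0, hB0S, hd0, hFe0⟩ := hfe
  obtain ⟨i0, hi0S, rfl⟩ := TD_erase hS hB0S (dt_card hd0)
  have hd0pos : 0 < dt w (S.erase i0) := lt_of_le_of_ne (dt_nonneg _ _) hd0.symm
  obtain ⟨c1, hc1pos, hc1⟩ := hFe0
  obtain ⟨a, ha⟩ := coef_ex hd0 (w i0)
  -- the coefficients
  obtain ⟨c, hcdef⟩ : ∃ c : Fin n → ℚ, c = Function.update c1 i0 0 := ⟨_, rfl⟩
  obtain ⟨γ, hγdef⟩ : ∃ γ : Fin n → ℚ, γ = Function.update (fun k => - a k) i0 1 := ⟨_, rfl⟩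
  have hc0 : c i0 = 0 := by rw [hcdef, Function.update_self]
  have hγ0 : γ i0 = 1 := by rw [hγdef, Function.update_self]
  have hcne : ∀ k, k ≠ i0 → c k = c1 k := fun k hk => by
    rw [hcdef, Function.update_of_ne hk]
  have hγne : ∀ k, k ≠ i0 → γ k = - a k := fun k hk => by
    rw [hγdef, Function.update_of_ne hk]
  have hcpos : ∀ k ∈ S, k ≠ i0 → 0 < c k := fun k hk hki => by
    rw [hcne k hki]
    exact hc1pos k (Finset.mem_erase.2 ⟨hki, hk⟩)
  have hc : ∑ k ∈ S, c k • w k = ξ := by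
    rw [← Finset.add_sum_erase S _ hi0S, hc0, zero_smul, zero_add, ← hc1]
    exact Finset.sum_congr rfl fun k hk => by rw [hcne k (Finset.ne_of_mem_erase hk)]
  have hγ : ∑ k ∈ S, γ k • w k = 0 := by
    rw [← Finset.add_sum_erase S _ hi0S, hγ0, one_smul]
    have : ∑ k ∈ S.erase i0, γ k • w k = - ∑ k ∈ S.erase i0, a k • w k := by
      rw [← Finset.sum_neg_distrib]
      exact Finset.sum_congr rfl fun k hk => by
        rw [hγne k (Finset.ne_of_mem_erase hk), neg_smul]
    rw [this, ha, add_neg_cancel]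
  -- some coefficient is negative
  obtain ⟨l, hl⟩ := hP
  have hneg : ∃ k ∈ S, γ k < 0 := by
    by_contra hcon
    push Not at hcon
    have h2 : (∑ k ∈ S, γ k • w k) ⬝ᵥ l = 0 := by rw [hγ, zero_dotProduct]
    rw [sum_dotProduct] at h2
    have h3 : 0 < ∑ k ∈ S, (γ k • w k) ⬝ᵥ l := by
      refine Finset.sum_pos' (fun k hk => ?_) ⟨i0, hi0S, ?_⟩
      · rw [smul_dotProduct, smul_eq_mul]
        exact mul_nonneg (hcon k hk) (hl k hk).le
      · rw [smul_dotProduct, smul_eq_mul, hγ0, one_mul]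
        exact hl i0 hi0S
    exact h3.ne' h2
  obtain ⟨N, hNdef⟩ : ∃ N : Finset (Fin n), N = S.filter (fun k => γ k < 0) := ⟨_, rfl⟩
  have hN : ∀ k, k ∈ N ↔ k ∈ S ∧ γ k < 0 := fun k => by rw [hNdef, Finset.mem_filter]
  have hNne : N.Nonempty := by
    obtain ⟨k, hk, hk'⟩ := hneg
    exact ⟨k, (hN k).2 ⟨hk, hk'⟩⟩
  obtain ⟨j0, hj0N, hmin⟩ := Finset.exists_min_image N (fun k => c k / (- γ k)) hNne
  obtain ⟨hj0S, hγj0⟩ := (hN j0).1 hj0N
  have hj0i : j0 ≠ i0 := by
    rintro rfl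
    rw [hγ0] at hγj0
    exact absurd hγj0 (by norm_num)
  obtain ⟨t, htdef⟩ : ∃ t : ℚ, t = c j0 / (- γ j0) := ⟨_, rfl⟩
  have htpos : 0 < t := by
    rw [htdef]
    exact div_pos (hcpos j0 hj0S hj0i) (neg_pos.2 hγj0)
  have htj0 : c j0 + t * γ j0 = 0 := by
    rw [htdef, div_neg, neg_mul, div_mul_cancel₀ _ hγj0.ne, add_neg_cancel]
  have hsolt : ∑ k ∈ S, (c k + t * γ k) • w k = ξ := by
    simp only [add_smul, Finset.sum_add_distrib, mul_smul, ← Finset.smul_sum, hγ, smul_zero,
      add_zero, hc]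
  -- the minimum is attained once
  have hstrict : ∀ k ∈ N, k ≠ j0 → 0 < c k + t * γ k := by
    intro k hk hkj
    obtain ⟨hkS, hγk⟩ := (hN k).1 hk
    have h1 : t ≤ c k / (- γ k) := by
      rw [htdef]
      exact hmin k hk
    have h2 : 0 ≤ c k + t * γ k := by
      rw [le_div_iff₀ (neg_pos.2 hγk)] at h1
      linarith
    refine lt_of_le_of_ne h2 fun h3 => ?_
    have h4 : ξ ∈ Submodule.span ℚ (w '' (((S.erase j0).erase k : Finset (Fin n)) : Set (Fin n))) := by
      have h5 : ∑ i ∈ (S.erase j0).erase k, (c i + t * γ i) • w i = ξ := by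
        rw [← hsolt, ← Finset.add_sum_erase S _ hj0S, htj0, zero_smul, zero_add,
          ← Finset.add_sum_erase (S.erase j0) _ (Finset.mem_erase.2 ⟨hkj, hkS⟩), ← h3, zero_smul,
          zero_add]
      rw [← h5]
      exact Submodule.sum_mem _ fun i hi => Submodule.smul_mem _ _
        (Submodule.subset_span ⟨i, Finset.mem_coe.2 hi, rfl⟩)
    have h5 := hX _ ((Finset.erase_subset _ _).trans (Finset.erase_subset _ _)) h4
    obtain ⟨B, hB, hBd⟩ := dt_of_span h5
    have h6 := Finset.card_le_card hB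
    rw [dt_card hBd, Finset.card_erase_of_mem (Finset.mem_erase.2 ⟨hkj, hkS⟩),
      Finset.card_erase_of_mem hj0S, hS] at h6
    have h7 : 2 ≤ S.card := by
      have h8 : ({j0, k} : Finset (Fin n)) ⊆ S := by
        intro x hx
        rw [Finset.mem_insert, Finset.mem_singleton] at hx
        rcases hx with rfl | rfl
        · exact hj0S
        · exact hkS
      have h9 := Finset.card_le_card h8
      rw [Finset.card_pair (Ne.symm hkj)] at h9
      exact h9
    omega
  -- determinants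
  have hdet : ∀ j ∈ S, j ≠ i0 → dt w (S.erase j) = |γ j| * dt w (S.erase i0) := by
    intro j hj hji
    have h1 := dt_swap (w := w) (B := S.erase i0) (i := i0) (j := j) (dt_card hd0)
      (Finset.mem_erase.2 ⟨hji, hj⟩) (Finset.notMem_erase _ _) ha.symm
    have h2 : insert i0 ((S.erase i0).erase j) = S.erase j := by
      ext x
      simp only [Finset.mem_insert, Finset.mem_erase]
      constructor
      · rintro (rfl | ⟨h3, h4, h5⟩)
        · exact ⟨Ne.symm hji, hi0S⟩
        · exact ⟨h3, h5⟩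
      · rintro ⟨h3, h4⟩
        by_cases hx : x = i0
        · exact Or.inl hx
        · exact Or.inr ⟨h3, hx, h4⟩
    rw [h2] at h1
    rw [h1, hγne j hji, abs_neg]
  have hdj0 : dt w (S.erase j0) = (- γ j0) * dt w (S.erase i0) := by
    rw [hdet j0 hj0S hj0i, abs_of_neg hγj0]
  have hdj0ne : dt w (S.erase j0) ≠ 0 := by
    rw [hdj0]
    exact mul_ne_zero (neg_ne_zero.2 hγj0.ne) hd0
  -- the second feasible basis
  have hFej0 : Fe w ξ (S.erase j0) := by
    refine ⟨fun k => c k + t * γ k, fun k hk => ?_, ?_⟩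
    · obtain ⟨hkj, hkS⟩ := Finset.mem_erase.1 hk
      show 0 < c k + t * γ k
      by_cases hki : k = i0
      · rw [hki, hc0, hγ0, mul_one, zero_add]
        exact htpos
      · by_cases hγk : γ k < 0
        · exact hstrict k ((hN k).2 ⟨hkS, hγk⟩) hkj
        · push Not at hγk
          have := hcpos k hkS hki
          have := mul_nonneg htpos.le hγk
          linarith
    · rw [← Finset.add_sum_erase S _ hj0S, htj0, zero_smul, zero_add] at hsolt
      exact hsolt
  -- the only feasible bases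
  have honly : ∀ j ∈ S, dt w (S.erase j) ≠ 0 → Fe w ξ (S.erase j) → j = i0 ∨ j = j0 := by
    intro j hj hdj hFej
    by_cases hji : j = i0
    · exact Or.inl hji
    right
    by_contra hjj
    obtain ⟨c', hc'pos, hc'⟩ := hFej
    have hx : ∑ k ∈ S, (Function.update c' j 0) k • w k = ξ := by
      rw [← Finset.add_sum_erase S _ hj, Function.update_self, zero_smul, zero_add, ← hc']
      exact Finset.sum_congr rfl fun k hk => by
        rw [Function.update_of_ne (Finset.ne_of_mem_erase hk)]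
    have hsol := TD_sol hi0S hd0 hγ hγ0 hc hc0 hx
    have h1 := hsol j hj
    have h2 := hsol j0 hj0S
    rw [Function.update_self, Function.update_of_ne (Ne.symm hji)] at h1
    rw [Function.update_of_ne (Ne.symm hjj), Function.update_of_ne (Ne.symm hji)] at h2
    have h3 := hc'pos i0 (Finset.mem_erase.2 ⟨Ne.symm hji, hi0S⟩)
    have h4 := hc'pos j0 (Finset.mem_erase.2 ⟨Ne.symm hjj, hj0S⟩)
    have h5 := hcpos j hj hji
    have hγj : γ j < 0 := by
      by_contra hcon
      push Not at hcon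
      have := mul_nonneg h3.le hcon
      linarith
    have h6 := hmin j ((hN j).2 ⟨hj, hγj⟩)
    have h7 : c j / (- γ j) = c' i0 := by
      rw [div_eq_iff (neg_ne_zero.2 hγj.ne)]
      linarith
    have h8 : c j0 / (- γ j0) ≤ c' i0 := by
      rw [← h7]
      exact h6
    rw [div_le_iff₀ (neg_pos.2 hγj0)] at h8
    linarith
  -- the sum
  have hset : S.powerset.filter (fun B => dt w B ≠ 0 ∧ Fe w ξ B) = {S.erase i0, S.erase j0} := by
    ext B
    rw [Finset.mem_filter, Finset.mem_powerset, Finset.mem_insert, Finset.mem_singleton]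
    constructor
    · rintro ⟨hBS, hBd, hBF⟩
      obtain ⟨j, hj, rfl⟩ := TD_erase hS hBS (dt_card hBd)
      rcases honly j hj hBd hBF with rfl | rfl
      · exact Or.inl rfl
      · exact Or.inr rfl
    · rintro (rfl | rfl)
      · exact ⟨Finset.erase_subset _ _, hd0, c1, hc1pos, hc1⟩
      · exact ⟨Finset.erase_subset _ _, hdj0ne, hFej0⟩
  have hne : S.erase i0 ≠ S.erase j0 := by
    intro h
    have h1 : j0 ∈ S.erase i0 := Finset.mem_erase.2 ⟨hj0i, hj0S⟩
    rw [h] at h1
    exact (Finset.notMem_erase _ _) h1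
  have hsd : ∀ j ∈ S, S \ S.erase j = {j} := by
    intro j hj
    ext x
    simp only [Finset.mem_sdiff, Finset.mem_erase, Finset.mem_singleton]
    constructor
    · rintro ⟨h1, h2⟩
      by_contra h3
      exact h2 ⟨h3, h1⟩
    · rintro rfl
      exact ⟨hj, fun h => h.1 rfl⟩
  have hA := TD_pt (s := s) hγ hi0S hd0
  have hB := TD_pt (s := s) hγ hj0S hdj0ne
  rw [hγ0, one_mul] at hA
  unfold Jsum
  rw [hset, Finset.sum_pair hne, hsd i0 hi0S, hsd j0 hj0S, Finset.prod_singleton,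
    Finset.prod_singleton, map_one, map_one, hdj0, hA]
  have hB' : - γ j0 * dt w (S.erase i0) * (w j0 ⬝ᵥ pt w s (S.erase j0) + s j0) =
      - (dt w (S.erase i0) * ∑ k ∈ S, γ k * s k) := by
    rw [← hB]
    ring
  rw [hB', div_neg, add_neg_cancel]

end LibHK51
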