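import Pool.Agent.LibHK51.TC

/-! Row TE: polynomials in terms of spanning linear forms. Uses only the statements of TC (`eval_lf`).

* `hom_decomp`: every `X k` is `lf` of a coordinate vector, which is a combination of the `w i`
  (`Submodule.mem_span_image_iff_exists_fun` or similar), so it is `∑ i ∈ S, C (b k i) * lf (w i)`.
  A homogeneous polynomial of degree `d + 1` is a sum of monomials of degree `d + 1`, each of the form
  `X k * (monomial of degree d)`. (For instance: `Z = ∑ m ∈ support, monomial m (coeff m Z)`, choose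
  for each `m` some `k` with `m k ≠ 0`.)
* `circ_rel`: `S.card > r` gives a nontrivial relation (`exists_nontrivial_relation_of_finrank_lt_card`
  or linear dependence of more than `r` vectors). -/

namespace LibHK51

open MvPolynomial

open scoped Classical

variable {r n : ℕ}

theorem lf_hom (a : Vec r) : (lf a).IsHomogeneous 1 := by
  unfold lf
  apply IsHomogeneous.sum
  intro j _
  exact (isHomogeneous_X ℚ j).C_mul (a j)

theorem lf_add (a b : Vec r) : lf (a + b) = lf a + lf b := by
  simp only [lf, Pi.add_apply, C_add, add_mul, Finset.sum_add_distrib]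

theorem lf_neg (a : Vec r) : lf (-a) = - lf a := by
  simp only [lf, Pi.neg_apply, C_neg, neg_mul, Finset.sum_neg_distrib]

theorem lf_smul (c : ℚ) (a : Vec r) : lf (c • a) = C c * lf a := by
  simp only [lf, Pi.smul_apply, smul_eq_mul, C_mul, Finset.mul_sum, mul_assoc]

theorem lf_sum {ι : Type*} (I : Finset ι) (a : ι → Vec r) :
    lf (∑ i ∈ I, a i) = ∑ i ∈ I, lf (a i) := by
  simp only [lf, Finset.sum_apply, map_sum, Finset.sum_mul]
  rw [Finset.sum_comm]

theorem lf_ne_zero {a : Vec r} (h : a ≠ 0) : lf a ≠ 0 := by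
  intro h0
  apply h
  funext j
  have h1 := eval_lf a (Pi.single j 1)
  rw [h0, map_zero] at h1
  simpa using h1.symm

private theorem X_decomp {w : Fin n → Vec r} {S : Finset (Fin n)}
    (h : Submodule.span ℚ (w '' (S : Set (Fin n))) = ⊤) (k : Fin r) :
    ∃ b : Fin n → ℚ, (X k : Pol r) = ∑ i ∈ S, C (b i) * lf (w i) := by
  have hk : (Pi.single k 1 : Vec r) ∈ Submodule.span ℚ (w '' (S : Set (Fin n))) := by
    rw [h]; trivial
  have : ∃ c : Fin n → ℚ, ∑ i ∈ S, c i • w i = (Pi.single k 1 : Vec r) := by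
    refine Submodule.span_induction (p := fun v _ => ∃ c : Fin n → ℚ, ∑ i ∈ S, c i • w i = v)
      ?_ ?_ ?_ ?_ hk
    · rintro _ ⟨i, hi, rfl⟩
      refine ⟨Pi.single i 1, ?_⟩
      rw [Finset.sum_eq_single i]
      · simp
      · intro j _ hj
        simp [Pi.single_eq_of_ne hj]
      · intro hi'; exact absurd hi hi'
    · exact ⟨0, by simp⟩
    · rintro x y _ _ ⟨c, hc⟩ ⟨d, hd⟩
      exact ⟨c + d, by simp only [Pi.add_apply, add_smul, Finset.sum_add_distrib, hc, hd]⟩
    · rintro a x _ ⟨c, hc⟩
      exact ⟨a • c, by simp only [Pi.smul_apply, smul_eq_mul, mul_smul, ← Finset.smul_sum, hc]⟩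
  obtain ⟨c, hc⟩ := this
  refine ⟨c, ?_⟩
  have hX : (X k : Pol r) = lf (Pi.single k 1 : Vec r) := by
    unfold lf
    rw [Finset.sum_eq_single k]
    · simp
    · intro j _ hj
      simp [Pi.single_eq_of_ne hj]
    · intro hk'; exact absurd (Finset.mem_univ k) hk'
  rw [hX, ← hc, lf_sum]
  exact Finset.sum_congr rfl (fun i _ => lf_smul _ _)

theorem hom_decomp {w : Fin n → Vec r} {S : Finset (Fin n)}
    (h : Submodule.span ℚ (w '' (S : Set (Fin n))) = ⊤) {d : ℕ} {Z : Pol r}
    (hZ : Z.IsHomogeneous (d + 1)) :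
    ∃ Y : Fin n → Pol r, (∀ i, (Y i).IsHomogeneous d) ∧ Z = ∑ i ∈ S, Y i * lf (w i) := by
  choose b hb using fun k => X_decomp h k
  have key : ∀ m ∈ Z.support, ∃ Y : Fin n → Pol r, (∀ i, (Y i).IsHomogeneous d) ∧
      monomial m (coeff m Z) = ∑ i ∈ S, Y i * lf (w i) := by
    intro m hm
    have hdeg : m.degree = d + 1 := by
      have := hZ (mem_support_iff.1 hm)
      rw [Finsupp.weight_apply] at this
      simpa [Finsupp.degree, Finsupp.sum] using this
    have hex : ∃ k, m k ≠ 0 := by
      by_contra hne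
      push Not at hne
      have : m = 0 := Finsupp.ext hne
      rw [this] at hdeg
      simp at hdeg
    obtain ⟨k, hk⟩ := hex
    have hm' : m = Finsupp.single k 1 + (m - Finsupp.single k 1) := by
      rw [add_tsub_cancel_of_le]
      rw [Finsupp.single_le_iff]
      exact Nat.one_le_iff_ne_zero.2 hk
    have hd' : (m - Finsupp.single k 1).degree = d := by
      have h2 := congrArg Finsupp.degree hm'
      rw [map_add, Finsupp.degree_single, hdeg] at h2
      omega
    refine ⟨fun i => monomial (m - Finsupp.single k 1) (coeff m Z) * C (b k i), ?_, ?_⟩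
    · intro i
      change IsHomogeneous (monomial (m - Finsupp.single k 1) (coeff m Z) * C (b k i)) d
      rw [mul_comm]
      exact (isHomogeneous_monomial _ hd').C_mul _
    · have e1 : monomial m (coeff m Z) =
          monomial (m - Finsupp.single k 1) (coeff m Z) * (X k : Pol r) := by
        rw [X, monomial_mul, mul_one, add_comm, ← hm']
      rw [e1, hb k, Finset.mul_sum]
      exact Finset.sum_congr rfl (fun i _ => by rw [mul_assoc])
  choose! Y hY hY' using key
  refine ⟨fun i => ∑ m ∈ Z.support, Y m i, ?_, ?_⟩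
  · intro i
    apply IsHomogeneous.sum
    intro m hm
    exact hY m hm i
  · conv_lhs => rw [Z.as_sum]
    rw [Finset.sum_congr rfl hY']
    rw [Finset.sum_comm]
    exact Finset.sum_congr rfl (fun i _ => by rw [Finset.sum_mul])

/-- a nontrivial relation between more than `r` vectors -/
theorem circ_rel (w : Fin n → Vec r) {S : Finset (Fin n)} (h : r < S.card) :
    ∃ γ : Fin n → ℚ, (∃ i ∈ S, γ i ≠ 0) ∧ (∀ i, i ∉ S → γ i = 0) ∧ ∑ i ∈ S, γ i • w i = 0 := by
  have hnot : ¬ LinearIndependent ℚ (fun i : S => w i) := by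
    intro hli
    have := hli.fintype_card_le_finrank
    simp at this
    omega
  rw [Fintype.not_linearIndependent_iff] at hnot
  obtain ⟨g, hg, ⟨i, hi⟩⟩ := hnot
  refine ⟨fun i => if hi : i ∈ S then g ⟨i, hi⟩ else 0, ⟨i, i.2, ?_⟩, ?_, ?_⟩
  · simpa using hi
  · intro j hj
    simp [hj]
  · rw [← Finset.sum_coe_sort]
    rw [← hg]
    exact Finset.sum_congr rfl (fun j _ => by simp)

end LibHK51
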