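import Pool.Agent.LibHK51.TD
import Pool.Agent.LibHK51.TE

/-! Row TF: vanishing in low degree and independence of the parameter. Uses only the statements of
TA, TC, TD, TE.

`circ_gen`: if `γ` is a nontrivial relation supported in `S` and `s` is generic for `S` then we may
choose the relation with `∑ γ i * s i ≠ 0`: this is false for an arbitrary relation, true for a
circuit, so the row `circ_gen` produces one: take a basis `B ⊆ S` (`dt_of_span`), `i ∈ S \ B` and
`w i = ∑ k ∈ B, c k • w k`, `γ = δ_i - c` on `B`; then `∑ γ s = s i - ∑ c k s k = s i + w i · pt w s B`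
is nonzero by `Gen`.

`Jsum_low`: induction on `S.card` (strong, all `d`, `Z`) and inside on `d`. If `S` does not span there
is no basis (`span_of_dt`), use `Jsum_eq_zero`. Assume `S` spans.
* `d = 0`: `Z = C z`, reduce to `Z = 1`. If `S.card = r + 1` it is `Jsum_circ`. If `S.card > r + 1`
  take the relation of `circ_gen`, `Δ = ∑ γ i s i ≠ 0`: `C Δ = ∑ i ∈ S, C (γ i) * (lf (w i) + C (s i))`
  because `∑ γ i • w i = 0`; so `Δ * Jsum S 1 = ∑ γ i * Jsum (S.erase i) 1` (`Jsum_del`), and
  `0 + r < (S.erase i).card`: zero by induction.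
* `d + 1`: `Z = ∑ Y i * lf (w i)` (`hom_decomp`) and
  `Jsum S (Y i * lf (w i)) = Jsum (S.erase i) (Y i) - s i * Jsum S (Y i)`, both zero by induction
  (`d + r < S.card - 1` and `d + r < S.card`).
`Jsum_indep`: induction on `d` (all `S`). `d = 0`: `S.card = r`, the only possible basis is `S`,
`S \ S = ∅`, and `eval p (C z) = z`. `d + 1`: as above, `Jsum S (Y i * lf (w i)) =
Jsum (S.erase i) (Y i) - s i * 0` by `Jsum_low`, and the first term does not depend on `s` by
induction. (If `S` does not span both sides are zero.) -/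

namespace LibHK51

open MvPolynomial

open scoped Classical

variable {r n : ℕ}

theorem circ_gen {w : Fin n → Vec r} {s : Fin n → ℚ} {S : Finset (Fin n)} (hS : r < S.card)
    (h : Submodule.span ℚ (w '' (S : Set (Fin n))) = ⊤) (hs : Gen w s S) :
    ∃ γ : Fin n → ℚ, ∑ i ∈ S, γ i • w i = 0 ∧ ∑ i ∈ S, γ i * s i ≠ 0 := by
  obtain ⟨B, hBS, hB⟩ := dt_of_span h
  have hBc := dt_card hB
  obtain ⟨i, hiS, hiB⟩ : ∃ i ∈ S, i ∉ B := by
    by_contra hcon
    push Not at hcon
    have := Finset.card_le_card (show S ⊆ B from fun i hi => hcon i hi)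
    omega
  obtain ⟨c, hc⟩ := coef_ex hB (w i)
  have hiSB : i ∈ S \ B := Finset.mem_sdiff.2 ⟨hiS, hiB⟩
  have hsub : insert i B ⊆ S := Finset.insert_subset hiS hBS
  refine ⟨fun k => if k = i then 1 else if k ∈ B then - c k else 0, ?_, ?_⟩
  · rw [← Finset.sum_subset hsub, Finset.sum_insert hiB]
    · have : ∑ k ∈ B, (if k = i then (1 : ℚ) else if k ∈ B then - c k else 0) • w k =
          - ∑ k ∈ B, c k • w k := by
        rw [← Finset.sum_neg_distrib]
        refine Finset.sum_congr rfl fun k hk => ?_
        have hki : k ≠ i := fun h => hiB (h ▸ hk)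
        simp [hki, hk]
      rw [this, hc]
      simp
    · intro k _ hk
      simp only [Finset.mem_insert, not_or] at hk
      simp [hk.1, hk.2]
  · rw [← Finset.sum_subset hsub, Finset.sum_insert hiB]
    · have h1 : ∑ k ∈ B, (if k = i then (1 : ℚ) else if k ∈ B then - c k else 0) * s k =
          w i ⬝ᵥ pt w s B := by
        rw [← hc, sum_dotProduct]
        refine Finset.sum_congr rfl fun k hk => ?_
        have hki : k ≠ i := fun h => hiB (h ▸ hk)
        have h2 := pt_spec hB s k hk
        have h3 : s k = - (w k ⬝ᵥ pt w s B) := by linarith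
        rw [smul_dotProduct, h3]
        simp [hki, hk]
      rw [h1]
      have h4 := hs B hBS hB i hiSB
      simp only [if_true, one_mul]
      rwa [add_comm]
    · intro k _ hk
      simp only [Finset.mem_insert, not_or] at hk
      simp [hk.1, hk.2]

private theorem no_span {w : Fin n → Vec r} {S : Finset (Fin n)}
    (h : Submodule.span ℚ (w '' (S : Set (Fin n))) ≠ ⊤) (s : Fin n → ℚ) (ξ : Vec r) (Z : Pol r) :
    Jsum w s ξ S Z = 0 := by
  refine Jsum_eq_zero (fun B hB hdt => ?_) s Z
  exfalso
  apply h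
  have h1 := span_of_dt hdt
  refine top_le_iff.1 (h1 ▸ Submodule.span_mono (Set.image_mono ?_))
  exact_mod_cast hB

private theorem hom_zero {Z : Pol r} (hZ : Z.IsHomogeneous 0) : ∃ z : ℚ, Z = C z := by
  have h : Z.totalDegree = 0 := Nat.le_zero.1 hZ.totalDegree_le
  exact ⟨_, (totalDegree_eq_zero_iff_eq_C).1 h⟩

private theorem Jsum_neg (w : Fin n → Vec r) (s : Fin n → ℚ) (ξ : Vec r) (S : Finset (Fin n))
    (Y : Pol r) (i : Fin n) :
    Jsum w s ξ S (Y * lf (w i)) = Jsum w s ξ S (Y * (lf (w i) + C (s i))) -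
      s i * Jsum w s ξ S Y := by
  have h : Y * (lf (w i) + C (s i)) = Y * lf (w i) + C (s i) * Y := by ring
  rw [h, Jsum_add, Jsum_smul]
  ring

theorem Jsum_low {w : Fin n → Vec r} {s : Fin n → ℚ} {ξ : Vec r} {S : Finset (Fin n)}
    (hP : Pnt w S) (hX : GX w ξ S) (hs : Gen w s S) {d : ℕ} (hd : d + r < S.card) {Z : Pol r}
    (hZ : Z.IsHomogeneous d) : Jsum w s ξ S Z = 0 := by
  induction hN : S.card using Nat.strong_induction_on generalizing S d Z with
  | _ N ih =>
    subst hN
    by_cases hsp : Submodule.span ℚ (w '' (S : Set (Fin n))) = ⊤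
    swap
    · exact no_span hsp s ξ Z
    induction d generalizing Z with
    | zero =>
      obtain ⟨z, rfl⟩ := hom_zero hZ
      suffices h1 : Jsum w s ξ S 1 = 0 by
        have h2 := Jsum_smul w s ξ S z 1
        rw [mul_one] at h2
        rw [h2, h1, mul_zero]
      rcases Nat.lt_or_ge (r + 1) S.card with hlt | hge
      · obtain ⟨γ, hγ1, hγ2⟩ := circ_gen (by omega) hsp hs
        have hC : C (∑ i ∈ S, γ i * s i) = ∑ i ∈ S, C (γ i) * (1 * (lf (w i) + C (s i)) : Pol r) := by
          have h3 : ∑ i ∈ S, C (γ i) * lf (w i) = (0 : Pol r) := by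
            have h4 : ∑ i ∈ S, C (γ i) * lf (w i) = lf (∑ i ∈ S, γ i • w i) := by
              rw [lf_sum]
              exact Finset.sum_congr rfl fun i _ => (lf_smul _ _).symm
            rw [h4, hγ1]
            simp [lf]
          simp only [one_mul, mul_add, Finset.sum_add_distrib, h3, zero_add, map_sum, map_mul]
        have h5 : (∑ i ∈ S, γ i * s i) * Jsum w s ξ S 1 = 0 := by
          rw [← Jsum_smul, mul_one, hC, Jsum_sum]
          refine Finset.sum_eq_zero fun i hi => ?_
          rw [Jsum_smul, Jsum_del ξ hs hi]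
          have hc : (S.erase i).card = S.card - 1 := Finset.card_erase_of_mem hi
          rw [ih (S.erase i).card (by omega) (hP.mono (Finset.erase_subset _ _))
            (hX.mono (Finset.erase_subset _ _)) (hs.mono (Finset.erase_subset _ _))
            (d := 0) (by omega) (by simpa using isHomogeneous_one (Fin r) ℚ) rfl, mul_zero]
        exact (mul_eq_zero.1 h5).resolve_left hγ2
      · exact Jsum_circ (by omega) hP hX hs
    | succ d ihd =>
      obtain ⟨Y, hY, rfl⟩ := hom_decomp hsp hZ
      rw [Jsum_sum]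
      refine Finset.sum_eq_zero fun i hi => ?_
      have hc : (S.erase i).card = S.card - 1 := Finset.card_erase_of_mem hi
      rw [Jsum_neg w s ξ S (Y i) i, Jsum_del ξ hs hi, ihd (by omega) (hY i),
        ih (S.erase i).card (by omega) (hP.mono (Finset.erase_subset _ _))
          (hX.mono (Finset.erase_subset _ _)) (hs.mono (Finset.erase_subset _ _))
          (d := d) (by omega) (hY i) rfl]
      ring

theorem Jsum_indep {w : Fin n → Vec r} {s s' : Fin n → ℚ} {ξ : Vec r} {S : Finset (Fin n)}
    (hP : Pnt w S) (hX : GX w ξ S) (hs : Gen w s S) (hs' : Gen w s' S) {d : ℕ}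
    (hd : d + r = S.card) {Z : Pol r} (hZ : Z.IsHomogeneous d) :
    Jsum w s ξ S Z = Jsum w s' ξ S Z := by
  induction d generalizing S Z with
  | zero =>
    obtain ⟨z, rfl⟩ := hom_zero hZ
    unfold Jsum
    refine Finset.sum_congr rfl fun B hB => ?_
    simp only [Finset.mem_filter, Finset.mem_powerset] at hB
    have hBc := dt_card hB.2.1
    have hBS : B = S := Finset.eq_of_subset_of_card_le hB.1 (by omega)
    subst hBS
    simp
  | succ d ih =>
    by_cases hsp : Submodule.span ℚ (w '' (S : Set (Fin n))) = ⊤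
    swap
    · rw [no_span hsp s ξ Z, no_span hsp s' ξ Z]
    obtain ⟨Y, hY, rfl⟩ := hom_decomp hsp hZ
    rw [Jsum_sum, Jsum_sum]
    refine Finset.sum_congr rfl fun i hi => ?_
    have hc : (S.erase i).card = S.card - 1 := Finset.card_erase_of_mem hi
    rw [Jsum_neg w s ξ S (Y i) i, Jsum_neg w s' ξ S (Y i) i, Jsum_del ξ hs hi,
      Jsum_del ξ hs' hi, Jsum_low hP hX hs (by omega) (hY i), Jsum_low hP hX hs' (by omega) (hY i),
      ih (hP.mono (Finset.erase_subset _ _)) (hX.mono (Finset.erase_subset _ _))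
        (hs.mono (Finset.erase_subset _ _)) (hs'.mono (Finset.erase_subset _ _)) (by omega) (hY i)]
    ring

end LibHK51
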