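import Pool.Agent.LibHK51.TB
import Pool.Agent.LibHK51.TF

/-! Row TG: the functional `jf`. Uses only the statements of TA, TB, TC, TE, TF.

`gs w S` is generic by `gen_exists` (`dif_pos`, `choose_spec`). Edge cases: if `S.card < r` there is no
basis in `S` (`dt_card`), so everything is zero by `Jsum_eq_zero`.
* `jf_del`: if `S.card ≤ r` both sides vanish (`S.card = r`: left side `homogeneousComponent 0` of a
  multiple of a linear form is `0`; right side: `S.erase i` has less than `r` elements). If
  `S.card = r + e + 1`: `homogeneousComponent (e+1) (z * lf (w i)) = homogeneousComponent e z * lf (w i)`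
  (write `z` as the sum of its components, or `homogeneousComponent_mul`-type argument), evaluate both
  sides at the same `s` generic for `S` (`jf_eq_Jsum` also for `S.erase i`, `Gen.mono`), use `Jsum_del`
  and `Jsum_low` for the term `s i * Jsum S (component e)`.
* `jf_I0`: by `Submodule.span_induction`; a generator times `y` is up to sign
  `y * ∏ i ∈ T, lf (w i)`, `T = {i ∈ S | al i ⬝ᵥ η ≠ 0}`; by `jf_del` repeatedly it is
  `± jf (S \ T) y` (`jf_del_prod`) and all `w i`, `i ∈ S \ T`, are orthogonal to `η ≠ 0`, so there is no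
  basis in `S \ T`. -/

namespace LibHK51

open MvPolynomial

open scoped Classical

variable {r n : ℕ}

private theorem TG_Jsum_zero (w : Fin n → Vec r) (s : Fin n → ℚ) (ξ : Vec r) (S : Finset (Fin n)) :
    Jsum w s ξ S 0 = 0 := by
  have h := Jsum_smul w s ξ S 0 (0 : Pol r)
  rw [zero_mul, mul_zero] at h
  exact h

private theorem TG_small {w : Fin n → Vec r} {S : Finset (Fin n)} (h : S.card < r) (ξ : Vec r) :
    ∀ B ⊆ S, dt w B ≠ 0 → ¬ Fe w ξ B := by
  intro B hB hd _
  have h1 := dt_card hd
  have h2 := Finset.card_le_card hB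
  omega

theorem gs_gen (w : Fin n → Vec r) (S : Finset (Fin n)) : Gen w (gs w S) S := by
  unfold gs
  rw [dif_pos (gen_exists w S)]
  exact (gen_exists w S).choose_spec

theorem jf_add (w : Fin n → Vec r) (ξ : Vec r) (S : Finset (Fin n)) (y z : Pol r) :
    jf w ξ S (y + z) = jf w ξ S y + jf w ξ S z := by
  unfold jf
  rw [map_add, Jsum_add]

theorem jf_smul (w : Fin n → Vec r) (ξ : Vec r) (S : Finset (Fin n)) (c : ℚ) (z : Pol r) :
    jf w ξ S (C c * z) = c * jf w ξ S z := by
  unfold jf
  rw [homogeneousComponent_C_mul, Jsum_smul]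

theorem jf_zero (w : Fin n → Vec r) (ξ : Vec r) (S : Finset (Fin n)) : jf w ξ S 0 = 0 := by
  unfold jf
  rw [map_zero, TG_Jsum_zero]

theorem jf_neg (w : Fin n → Vec r) (ξ : Vec r) (S : Finset (Fin n)) (z : Pol r) :
    jf w ξ S (-z) = - jf w ξ S z := by
  have h := jf_smul w ξ S (-1) z
  rw [map_neg, map_one, neg_one_mul, neg_one_mul] at h
  exact h

theorem jf_sum {ι : Type*} (w : Fin n → Vec r) (ξ : Vec r) (S : Finset (Fin n)) (I : Finset ι)
    (z : ι → Pol r) : jf w ξ S (∑ i ∈ I, z i) = ∑ i ∈ I, jf w ξ S (z i) := by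
  induction I using Finset.induction_on with
  | empty => rw [Finset.sum_empty, Finset.sum_empty, jf_zero]
  | insert a I ha ih => rw [Finset.sum_insert ha, Finset.sum_insert ha, jf_add, ih]

theorem jf_eq_Jsum {w : Fin n → Vec r} {s : Fin n → ℚ} {ξ : Vec r} {S : Finset (Fin n)}
    (hP : Pnt w S) (hX : GX w ξ S) (hs : Gen w s S) (z : Pol r) :
    jf w ξ S z = Jsum w s ξ S (homogeneousComponent (S.card - r) z) := by
  unfold jf
  by_cases h : r ≤ S.card
  · exact Jsum_indep hP hX (gs_gen w S) hs (Nat.sub_add_cancel h)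
      (homogeneousComponent_isHomogeneous _ _)
  · rw [Jsum_eq_zero (TG_small (not_le.1 h) ξ), Jsum_eq_zero (TG_small (not_le.1 h) ξ)]

theorem jf_eq_zero {w : Fin n → Vec r} {ξ : Vec r} {S : Finset (Fin n)}
    (h : ∀ B ⊆ S, dt w B ≠ 0 → ¬ Fe w ξ B) (z : Pol r) : jf w ξ S z = 0 :=
  Jsum_eq_zero h _ _

theorem jf_congr {w w' : Fin n → Vec r} {ξ : Vec r} {S : Finset (Fin n)}
    (h : ∀ i ∈ S, w i = w' i) (hP : Pnt w S) (hX : GX w ξ S) (z : Pol r) :
    jf w ξ S z = jf w' ξ S z := by
  have hP' : Pnt w' S := by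
    obtain ⟨l, hl⟩ := hP
    refine ⟨l, fun i hi => ?_⟩
    rw [← h i hi]
    exact hl i hi
  rw [jf_eq_Jsum hP' (hX.congr h) ((gs_gen w S).congr h) z]
  exact Jsum_congr h _

theorem jf_hom_ne (w : Fin n → Vec r) (ξ : Vec r) {S : Finset (Fin n)} {z : Pol r} {d : ℕ}
    (hz : z.IsHomogeneous d) (hd : d + r ≠ S.card) : jf w ξ S z = 0 := by
  by_cases h : r ≤ S.card
  · unfold jf
    rw [homogeneousComponent_of_mem ((mem_homogeneousSubmodule d z).2 hz), if_neg (by omega),
      TG_Jsum_zero]
  · exact jf_eq_zero (TG_small (not_le.1 h) ξ) z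

/-- multiples of a form of large degree are killed -/
theorem jf_high (w : Fin n → Vec r) (ξ : Vec r) {S : Finset (Fin n)} {h : Pol r} {m : ℕ}
    (hh : h.IsHomogeneous m) (hm : S.card < m + r) (z : Pol r) : jf w ξ S (z * h) = 0 := by
  have h1 : z * h = ∑ i ∈ Finset.range (z.totalDegree + 1), homogeneousComponent i z * h := by
    rw [← Finset.sum_mul, sum_homogeneousComponent]
  rw [h1, jf_sum]
  refine Finset.sum_eq_zero fun i _ => ?_
  exact jf_hom_ne w ξ ((homogeneousComponent_isHomogeneous i z).mul hh) (by omega)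

private theorem TG_comp {z : Pol r} {d : ℕ} (hz : z.IsHomogeneous d) :
    homogeneousComponent d z = z := by
  rw [homogeneousComponent_of_mem ((mem_homogeneousSubmodule d z).2 hz), if_pos rfl]

private theorem TG_del_hom {w : Fin n → Vec r} {ξ : Vec r} {S : Finset (Fin n)}
    (hP : Pnt w S) (hX : GX w ξ S) {i : Fin n} (hi : i ∈ S) {z : Pol r} {d : ℕ}
    (hz : z.IsHomogeneous d) :
    jf w ξ S (z * lf (w i)) = jf w ξ (S.erase i) z := by
  have hcard : (S.erase i).card + 1 = S.card := Finset.card_erase_add_one hi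
  by_cases hd : d + 1 + r = S.card
  · have hs := gs_gen w S
    have he : S.erase i ⊆ S := Finset.erase_subset i S
    have h1 : S.card - r = d + 1 := by omega
    have h2 : (S.erase i).card - r = d := by omega
    rw [jf_eq_Jsum (hP.mono he) (hX.mono he) (hs.mono he) z, h2, TG_comp hz]
    unfold jf
    rw [h1, TG_comp (hz.mul (lf_hom (w i))), ← Jsum_del ξ hs hi z, mul_add, Jsum_add,
      mul_comm z (C (gs w S i)), Jsum_smul, Jsum_low hP hX hs (by omega) hz, mul_zero, add_zero]
  · rw [jf_hom_ne w ξ (hz.mul (lf_hom (w i))) hd, jf_hom_ne w ξ hz (by omega)]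

theorem jf_del {w : Fin n → Vec r} {ξ : Vec r} {S : Finset (Fin n)}
    (hP : Pnt w S) (hX : GX w ξ S) {i : Fin n} (hi : i ∈ S) (z : Pol r) :
    jf w ξ S (z * lf (w i)) = jf w ξ (S.erase i) z := by
  have h1 : z = ∑ j ∈ Finset.range (z.totalDegree + 1), homogeneousComponent j z :=
    (sum_homogeneousComponent z).symm
  have h2 : jf w ξ S ((∑ j ∈ Finset.range (z.totalDegree + 1), homogeneousComponent j z) * lf (w i)) =
      jf w ξ (S.erase i) (∑ j ∈ Finset.range (z.totalDegree + 1), homogeneousComponent j z) := by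
    rw [Finset.sum_mul, jf_sum, jf_sum]
    exact Finset.sum_congr rfl fun j _ =>
      TG_del_hom hP hX hi (homogeneousComponent_isHomogeneous j z)
  rw [← h1] at h2
  exact h2

theorem jf_del_prod {w : Fin n → Vec r} {ξ : Vec r} {S : Finset (Fin n)}
    (hP : Pnt w S) (hX : GX w ξ S) {T : Finset (Fin n)} (hT : T ⊆ S) (z : Pol r) :
    jf w ξ S (z * ∏ i ∈ T, lf (w i)) = jf w ξ (S \ T) z := by
  induction T using Finset.induction_on generalizing z with
  | empty => rw [Finset.prod_empty, mul_one, Finset.sdiff_empty]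
  | insert a T ha ih =>
    have hT' : T ⊆ S := fun x hx => hT (Finset.mem_insert_of_mem hx)
    have haS : a ∈ S := hT (Finset.mem_insert_self a T)
    have hsub : S \ T ⊆ S := Finset.sdiff_subset
    have haST : a ∈ S \ T := Finset.mem_sdiff.2 ⟨haS, ha⟩
    rw [Finset.prod_insert ha, ← mul_assoc, ih hT' (z * lf (w a)),
      jf_del (hP.mono hsub) (hX.mono hsub) haST z]
    congr 1
    ext x
    simp only [Finset.mem_erase, Finset.mem_sdiff, Finset.mem_insert]
    tauto

/-- value on constants for a basis -/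
theorem jf_basis {w : Fin n → Vec r} {ξ : Vec r} {S : Finset (Fin n)}
    (hS : dt w S ≠ 0) (hF : Fe w ξ S) : jf w ξ S 1 = (dt w S)⁻¹ := by
  have hc := dt_card hS
  have h1 : homogeneousComponent 0 (1 : Pol r) = 1 := TG_comp (isHomogeneous_one _ _)
  unfold jf
  rw [hc, Nat.sub_self, h1]
  unfold Jsum
  have h2 : S.powerset.filter (fun B => dt w B ≠ 0 ∧ Fe w ξ B) = {S} := by
    ext B
    simp only [Finset.mem_filter, Finset.mem_powerset, Finset.mem_singleton]
    constructor
    · rintro ⟨hB, hd, -⟩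
      exact Finset.eq_of_subset_of_card_le hB (by rw [hc, dt_card hd])
    · rintro rfl
      exact ⟨Finset.Subset.refl _, hS, hF⟩
  rw [h2, Finset.sum_singleton, Finset.sdiff_self, Finset.prod_empty, mul_one, map_one, one_div]

theorem jf_I0 {w al : Fin n → Vec r} {ξ : Vec r} {S : Finset (Fin n)}
    (hw : ∀ i ∈ S, w i = al i ∨ w i = - al i) (hP : Pnt w S) (hX : GX w ξ S) {z : Pol r}
    (hz : z ∈ I0 al S) : jf w ξ S z = 0 := by
  have key : ∀ x ∈ I0 al S, ∀ y : Pol r, jf w ξ S (y * x) = 0 := by
    intro x hx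
    unfold I0 at hx
    induction hx using Submodule.span_induction with
    | mem x hx =>
      intro y
      obtain ⟨η, hη, rfl⟩ := hx
      let T := S.filter (fun i => al i ⬝ᵥ η ≠ 0)
      let ε : Fin n → ℚ := fun i => if w i = al i then 1 else -1
      have hTS : T ⊆ S := Finset.filter_subset _ _
      have h1 : ∀ i ∈ T, lf (al i) = C (ε i) * lf (w i) := by
        intro i hi
        rw [← lf_smul]
        congr 1
        by_cases h : w i = al i
        · show al i = ε i • w i
          have : ε i = 1 := if_pos h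
          rw [this, one_smul, h]
        · have h' : w i = - al i := (hw i (hTS hi)).resolve_left h
          have : ε i = -1 := if_neg h
          rw [this, h', neg_one_smul, neg_neg]
      have h2 : ∏ i ∈ S.filter (fun i => al i ⬝ᵥ η ≠ 0), lf (al i) =
          C (∏ i ∈ T, ε i) * ∏ i ∈ T, lf (w i) := by
        rw [map_prod, ← Finset.prod_mul_distrib]
        exact Finset.prod_congr rfl h1
      rw [h2, mul_left_comm, jf_smul, jf_del_prod hP hX hTS]
      have h3 : jf w ξ (S \ T) y = 0 := by
        apply jf_eq_zero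
        intro B hB hd _
        apply hη
        have hBη : ∀ i ∈ B, w i ⬝ᵥ η + (0 : Fin n → ℚ) i = 0 := by
          intro i hi
          have hi' := Finset.mem_sdiff.1 (hB hi)
          have hal : al i ⬝ᵥ η = 0 := by
            by_contra hne
            exact hi'.2 (Finset.mem_filter.2 ⟨hi'.1, hne⟩)
          rcases hw i hi'.1 with h | h
          · rw [h, hal, Pi.zero_apply, add_zero]
          · rw [h, neg_dotProduct, hal, Pi.zero_apply, add_zero, neg_zero]
        have hB0 : ∀ i ∈ B, w i ⬝ᵥ (0 : Vec r) + (0 : Fin n → ℚ) i = 0 := by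
          intro i _
          rw [dotProduct_zero, Pi.zero_apply, add_zero]
        rw [pt_uniq hd hBη, pt_uniq hd hB0]
      rw [h3, mul_zero]
    | zero =>
      intro y
      rw [mul_zero, jf_zero]
    | add a b _ _ ha hb =>
      intro y
      rw [mul_add, jf_add, ha, hb, add_zero]
    | smul a x _ hx =>
      intro y
      rw [smul_eq_mul, ← mul_assoc]
      exact hx (y * a)
  have := key z hz 1
  rwa [one_mul] at this

end LibHK51
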