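import Pool.Agent.LibHK51.TE

/-! Row TI: contraction by a vector, linear algebra. Uses only the statements of TA, TC, TE.

`contr_ex`: choose `j0` with `a j0 ≠ 0` and let `P v = (v (j0.succAbove i) - a (j0.succAbove i) / a j0
* v j0)_i`. `P v = 0` iff `v = (v j0 / a j0) • a`; `P` is surjective.

`contr_dt`: let `Q` be the square matrix of size `r + 1` with first row `e_{j0} / a j0` (so the first
coordinate of `Q a` is `1`) and the other rows those of `P` (in general: any functional `φ` with
`φ a = 1`). `Q` is injective, so `det Q ≠ 0`, take `κ = |det Q|⁻¹`. With `b = Fin.cons i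
(B'.orderEmbOfFin _)` (`dt_image`) the matrix with rows `Q (w (b j))` has first row `(1, 0, ..., 0)`, so
its determinant is the determinant of the rows `P (w (B' j))` (`Matrix.det_succ_row_zero`,
`Fin.sum_univ_succ`), and it is `det Q * det (w (b j))` up to transposition. If `B'.card ≠ r` both
sides are zero.

`rho`: `rho P (lf v) = lf (P.mulVec v)`; `rho` kills `lf a`; every `X i` of the target is in the image;
kernel: by a linear change of coordinates `Pol (r+1) = Pol r [lf a]`: choose `σ` with `P σ = id`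
(`σ e_i = e_{j0.succAbove i}` for the `P` above; in general from surjectivity), let
`τ = aeval (fun i => lf (σ e_i)) : Pol r → Pol (r+1)`; for every `z`, `z - τ (rho z)` is a multiple of
`lf a` (true for `X j`, since `X j - lf (σ (P e_j)) = lf (e_j - σ P e_j)` and `e_j - σ P e_j` is killed
by `P`; the set of `z` with this property is closed under sums and products). So `rho z = 0` implies
`z ∈ (lf a)`. -/

namespace LibHK51

open MvPolynomial

open scoped Classical

variable {r n : ℕ}

/-- `P` is a contraction by `a`: surjective with kernel spanned by `a` -/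
def IsContr (P : Matrix (Fin r) (Fin (r + 1)) ℚ) (a : Vec (r + 1)) : Prop :=
  (∀ v : Vec (r + 1), P.mulVec v = 0 ↔ ∃ t : ℚ, v = t • a) ∧ ∀ v' : Vec r, ∃ v, P.mulVec v = v'

theorem contr_ex {a : Vec (r + 1)} (ha : a ≠ 0) :
    ∃ P : Matrix (Fin r) (Fin (r + 1)) ℚ, IsContr P a := by
  obtain ⟨j0, hj0⟩ := Function.ne_iff.mp ha
  have hj0' : a j0 ≠ 0 := hj0
  let L : Vec (r + 1) →ₗ[ℚ] Vec r :=
    { toFun := fun v i => v (j0.succAbove i) - a (j0.succAbove i) / a j0 * v j0
      map_add' := by
        intro v w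
        funext i
        simp only [Pi.add_apply]
        ring
      map_smul' := by
        intro c v
        funext i
        simp only [Pi.smul_apply, smul_eq_mul, RingHom.id_apply]
        ring }
  have hL : ∀ v i, L v i = v (j0.succAbove i) - a (j0.succAbove i) / a j0 * v j0 := fun v i => rfl
  have hPL : ∀ v, (LinearMap.toMatrix' L).mulVec v = L v := fun v =>
    LinearMap.toMatrix'_mulVec L v
  refine ⟨LinearMap.toMatrix' L, ?_, ?_⟩
  · intro v
    rw [hPL]
    constructor
    · intro h
      refine ⟨v j0 / a j0, ?_⟩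
      funext j
      rw [Pi.smul_apply, smul_eq_mul]
      rcases Fin.eq_self_or_eq_succAbove j0 j with rfl | ⟨i, rfl⟩
      · field_simp
      · have := congrFun h i
        rw [hL, Pi.zero_apply] at this
        rw [sub_eq_zero.mp this]
        ring
    · rintro ⟨t, rfl⟩
      funext i
      rw [hL, Pi.smul_apply, Pi.smul_apply, smul_eq_mul, smul_eq_mul, Pi.zero_apply]
      field_simp
      ring
  · intro v'
    refine ⟨j0.insertNth 0 v', ?_⟩
    rw [hPL]
    funext i
    rw [hL, Fin.insertNth_apply_succAbove, Fin.insertNth_apply_same, mul_zero, sub_zero]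

theorem contr_dt {P : Matrix (Fin r) (Fin (r + 1)) ℚ} {a : Vec (r + 1)} (ha : a ≠ 0)
    (hP : IsContr P a) : ∃ κ : ℚ, 0 < κ ∧ ∀ {n : ℕ} (w : Fin n → Vec (r + 1)) (i : Fin n)
      (B : Finset (Fin n)), w i = a → i ∉ B →
      dt w (insert i B) = κ * dt (fun j => P.mulVec (w j)) B := by
  obtain ⟨j0, hj0⟩ := Function.ne_iff.mp ha
  have hj0' : a j0 ≠ 0 := hj0
  let q0 : Vec (r + 1) := Pi.single j0 (a j0)⁻¹
  let Q : Matrix (Fin (r + 1)) (Fin (r + 1)) ℚ := Matrix.of (Fin.cons q0 (fun i => P i))
  have hQ0 : ∀ v, Q.mulVec v 0 = (a j0)⁻¹ * v j0 := by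
    intro v
    change (q0 ⬝ᵥ v) = _
    rw [single_dotProduct]
  have hQs : ∀ v i, Q.mulVec v (Fin.succ i) = P.mulVec v i := by
    intro v i
    rfl
  have hQa : Q.mulVec a = Pi.single 0 1 := by
    funext i
    refine Fin.cases ?_ (fun i => ?_) i
    · rw [hQ0, inv_mul_cancel₀ hj0', Pi.single_eq_same]
    · rw [hQs, (hP.1 a).mpr ⟨1, (one_smul _ _).symm⟩, Pi.single_eq_of_ne (Fin.succ_ne_zero i),
        Pi.zero_apply]
  have hdet : Q.det ≠ 0 := by
    intro h0
    obtain ⟨v, hv, hv0⟩ := Matrix.exists_mulVec_eq_zero_iff.mpr h0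
    apply hv
    have h1 : P.mulVec v = 0 := by
      funext i
      rw [← hQs, hv0]
      rfl
    obtain ⟨t, rfl⟩ := (hP.1 v).mp h1
    have h2 := hQ0 (t • a)
    rw [hv0, Pi.zero_apply, Pi.smul_apply, smul_eq_mul, ← mul_assoc, mul_comm _ t, mul_assoc,
      inv_mul_cancel₀ hj0', mul_one] at h2
    rw [← h2, zero_smul]
  refine ⟨|Q.det|⁻¹, inv_pos.mpr (abs_pos.mpr hdet), ?_⟩
  intro n w i B hwi hiB
  by_cases hB : B.card = r
  · let b : Fin r → Fin n := B.orderEmbOfFin hB
    have hbinj : Function.Injective b := (B.orderEmbOfFin hB).injective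
    have hbmem : ∀ j, b j ∈ B := fun j => B.orderEmbOfFin_mem hB j
    have hbim : Finset.univ.image b = B := by
      apply Finset.eq_of_subset_of_card_le
      · intro x hx
        obtain ⟨j, -, rfl⟩ := Finset.mem_image.mp hx
        exact hbmem j
      · rw [Finset.card_image_of_injective _ hbinj, Finset.card_univ, Fintype.card_fin, hB]
    let b' : Fin (r + 1) → Fin n := Fin.cons i b
    have hb'inj : Function.Injective b' := by
      apply Fin.cons_injective_iff.mpr
      refine ⟨?_, hbinj⟩
      rintro ⟨j, hj⟩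
      exact hiB (hj ▸ hbmem j)
    have hb'im : Finset.univ.image b' = insert i B := by
      ext x
      simp only [Finset.mem_image, Finset.mem_univ, true_and, Finset.mem_insert]
      constructor
      · rintro ⟨j, rfl⟩
        refine Fin.cases ?_ (fun j => ?_) j
        · left; rfl
        · right; exact hbmem j
      · rintro (rfl | hx)
        · exact ⟨0, rfl⟩
        · rw [← hbim] at hx
          obtain ⟨j, -, rfl⟩ := Finset.mem_image.mp hx
          exact ⟨j.succ, rfl⟩
    have h1 := dt_image w b' hb'inj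
    have h2 := dt_image (fun j => P.mulVec (w j)) b hbinj
    rw [hb'im] at h1
    rw [hbim] at h2
    rw [h1, h2]
    let M : Matrix (Fin (r + 1)) (Fin (r + 1)) ℚ := Matrix.of (fun j => w (b' j))
    have hN : ∀ j k, (M * Q.transpose) j k = Q.mulVec (w (b' j)) k := by
      intro j k
      rw [Matrix.mul_apply]
      unfold Matrix.mulVec dotProduct
      refine Finset.sum_congr rfl fun l _ => ?_
      rw [Matrix.transpose_apply, mul_comm]
      rfl
    have hrow0 : ∀ k, (M * Q.transpose) 0 k = if k = 0 then 1 else 0 := by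
      intro k
      rw [hN]
      have : w (b' 0) = a := hwi
      rw [this, hQa, Pi.single_apply]
    have hdetN : (M * Q.transpose).det
        = (Matrix.of (fun j => P.mulVec (w (b j)))).det := by
      rw [Matrix.det_succ_row_zero]
      rw [Finset.sum_eq_single (0 : Fin (r + 1))]
      · rw [hrow0, if_pos rfl, Fin.val_zero, pow_zero, one_mul, one_mul]
        congr 1
        ext j k
        rw [Matrix.submatrix_apply, Fin.succAbove_zero, hN, hQs]
        rfl
      · intro k _ hk
        rw [hrow0, if_neg hk, mul_zero, zero_mul]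
      · intro h
        exact absurd (Finset.mem_univ _) h
    rw [Matrix.det_mul, Matrix.det_transpose] at hdetN
    have hM : (Matrix.of (fun j => w (b' j))).det = M.det := rfl
    rw [hM, ← hdetN, abs_mul]
    have := abs_ne_zero.mpr hdet
    field_simp
  · have h1 : dt (fun j => P.mulVec (w j)) B = 0 := by
      by_contra h
      exact hB (dt_card h)
    have h2 : dt w (insert i B) = 0 := by
      by_contra h
      have := dt_card h
      rw [Finset.card_insert_of_notMem hiB] at this
      exact hB (by omega)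
    rw [h1, h2, mul_zero]

/-- restriction of polynomials to the hyperplane orthogonal to `a` -/
noncomputable def rho (P : Matrix (Fin r) (Fin (r + 1)) ℚ) : Pol (r + 1) →ₐ[ℚ] Pol r :=
  aeval (fun j => lf (fun i => P i j))

private theorem TI_rho_X (P : Matrix (Fin r) (Fin (r + 1)) ℚ) (j : Fin (r + 1)) :
    rho P (X j) = lf (fun i => P i j) := by
  unfold rho
  rw [aeval_X]

private theorem TI_lf_single {m : ℕ} (j : Fin m) : lf (Pi.single j (1 : ℚ)) = X j := by
  unfold lf
  rw [Finset.sum_eq_single j]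
  · rw [Pi.single_eq_same, C_1, one_mul]
  · intro k _ hk
    rw [Pi.single_eq_of_ne hk, C_0, zero_mul]
  · intro h
    exact absurd (Finset.mem_univ _) h

theorem rho_lf (P : Matrix (Fin r) (Fin (r + 1)) ℚ) (v : Vec (r + 1)) :
    rho P (lf v) = lf (P.mulVec v) := by
  have h1 : P.mulVec v = ∑ j, v j • (fun i => P i j) := by
    funext i
    rw [Finset.sum_apply]
    unfold Matrix.mulVec dotProduct
    refine Finset.sum_congr rfl fun j _ => ?_
    rw [Pi.smul_apply, smul_eq_mul, mul_comm]
  rw [h1, lf_sum]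
  conv_lhs => unfold lf
  rw [map_sum]
  refine Finset.sum_congr rfl fun j _ => ?_
  rw [map_mul, TI_rho_X, lf_smul, ← algebraMap_eq, AlgHom.commutes]
  rfl

theorem rho_hom (P : Matrix (Fin r) (Fin (r + 1)) ℚ) {z : Pol (r + 1)} {d : ℕ}
    (hz : z.IsHomogeneous d) : (rho P z).IsHomogeneous d := by
  have := hz.aeval (fun j => lf (fun i => P i j)) (fun j => lf_hom _)
  rwa [one_mul] at this

theorem rho_comp (P : Matrix (Fin r) (Fin (r + 1)) ℚ) (z : Pol (r + 1)) (d : ℕ) :
    rho P (homogeneousComponent d z) = homogeneousComponent d (rho P z) := by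
  conv_rhs => rw [← sum_homogeneousComponent z]
  rw [map_sum, map_sum]
  have h : ∀ e, homogeneousComponent d (rho P (homogeneousComponent e z))
      = if d = e then rho P (homogeneousComponent e z) else 0 := by
    intro e
    apply homogeneousComponent_of_mem
    exact rho_hom P (homogeneousComponent_isHomogeneous e z)
  simp only [h]
  rw [Finset.sum_ite_eq]
  split_ifs with hd
  · rfl
  · rw [Finset.mem_range, not_lt] at hd
    rw [homogeneousComponent_eq_zero d z (by omega), map_zero]

theorem eval_rho (P : Matrix (Fin r) (Fin (r + 1)) ℚ) (z : Pol (r + 1)) (p : Vec r) :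
    eval p (rho P z) = eval (P.transpose.mulVec p) z := by
  induction z using MvPolynomial.induction_on with
  | C c =>
    rw [← algebraMap_eq, AlgHom.commutes, algebraMap_eq, algebraMap_eq, eval_C, eval_C]
  | add p q hp hq => rw [map_add, map_add, map_add, hp, hq]
  | mul_X q j hq =>
    rw [map_mul, map_mul, map_mul, hq, eval_X, TI_rho_X, eval_lf]
    rfl

private theorem TI_section {P : Matrix (Fin r) (Fin (r + 1)) ℚ} {a : Vec (r + 1)}
    (hP : IsContr P a) : ∃ τ : Pol r →ₐ[ℚ] Pol (r + 1), (∀ y, rho P (τ y) = y) ∧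
      ∀ z, ∃ y, z - τ (rho P z) = y * lf a := by
  choose s hs using hP.2
  let σ : Fin r → Vec (r + 1) := fun i => s (Pi.single i 1)
  have hσ : ∀ i, P.mulVec (σ i) = Pi.single i 1 := fun i => hs _
  let τ : Pol r →ₐ[ℚ] Pol (r + 1) := aeval (fun i => lf (σ i))
  have hτX : ∀ i, τ (X i) = lf (σ i) := fun i => aeval_X _ _
  have hτlf : ∀ v : Vec r, τ (lf v) = lf (∑ i, v i • σ i) := by
    intro v
    rw [lf_sum]
    conv_lhs => unfold lf
    rw [map_sum]
    refine Finset.sum_congr rfl fun j _ => ?_
    rw [map_mul, hτX, lf_smul, ← algebraMap_eq, AlgHom.commutes]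
    rfl
  have hPσ : ∀ v : Vec r, P.mulVec (∑ i, v i • σ i) = v := by
    intro v
    rw [Matrix.mulVec_sum]
    simp only [Matrix.mulVec_smul, hσ]
    funext j
    rw [Finset.sum_apply]
    simp [Pi.single_apply]
  refine ⟨τ, ?_, ?_⟩
  · intro y
    have : (rho P).comp τ = AlgHom.id ℚ (Pol r) := by
      apply MvPolynomial.algHom_ext
      intro i
      rw [AlgHom.comp_apply, hτX, rho_lf, hσ, TI_lf_single]
      rfl
    have h2 := congrArg (fun f => f y) this
    exact h2
  · intro z
    induction z using MvPolynomial.induction_on with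
    | C c =>
      refine ⟨0, ?_⟩
      rw [← algebraMap_eq, AlgHom.commutes, AlgHom.commutes, sub_self, zero_mul]
    | add p q hp hq =>
      obtain ⟨y1, h1⟩ := hp
      obtain ⟨y2, h2⟩ := hq
      refine ⟨y1 + y2, ?_⟩
      rw [map_add, map_add, add_mul, ← h1, ← h2]
      ring
    | mul_X q j hq =>
      obtain ⟨y1, h1⟩ := hq
      have hX : ∃ t : ℚ, (X j : Pol (r + 1)) - τ (rho P (X j)) = C t * lf a := by
        have e1 : rho P (X j) = lf (P.mulVec (Pi.single j 1)) := by
          rw [← rho_lf, TI_lf_single]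
        have e2 : P.mulVec (Pi.single j 1 - ∑ i, (P.mulVec (Pi.single j 1)) i • σ i) = 0 := by
          rw [Matrix.mulVec_sub, hPσ, sub_self]
        obtain ⟨t, ht⟩ := (hP.1 _).mp e2
        refine ⟨t, ?_⟩
        rw [e1, hτlf, ← lf_smul, ← ht, sub_eq_add_neg, sub_eq_add_neg, lf_add, lf_neg,
          TI_lf_single]
      obtain ⟨t, ht⟩ := hX
      refine ⟨y1 * X j + τ (rho P q) * C t, ?_⟩
      rw [map_mul, map_mul]
      have e3 : q * X j - τ (rho P q) * τ (rho P (X j))
          = (q - τ (rho P q)) * X j + τ (rho P q) * (X j - τ (rho P (X j))) := by ring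
      rw [e3, h1, ht]
      ring

theorem rho_surj {P : Matrix (Fin r) (Fin (r + 1)) ℚ} {a : Vec (r + 1)} (hP : IsContr P a)
    (y : Pol r) : ∃ z, rho P z = y := by
  obtain ⟨τ, h1, -⟩ := TI_section hP
  exact ⟨τ y, h1 y⟩

theorem rho_ker {P : Matrix (Fin r) (Fin (r + 1)) ℚ} {a : Vec (r + 1)} (hP : IsContr P a)
    {z : Pol (r + 1)} (hz : rho P z = 0) : ∃ y, z = y * lf a := by
  obtain ⟨τ, -, h2⟩ := TI_section hP
  obtain ⟨y, hy⟩ := h2 z
  rw [hz, map_zero, sub_zero] at hy
  exact ⟨y, hy⟩

/-- genericity of `ξ` passes to the contraction -/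
theorem contr_GX {P : Matrix (Fin r) (Fin (r + 1)) ℚ} {w : Fin n → Vec (r + 1)} {i : Fin n}
    (hP : IsContr P (w i)) {ξ : Vec (r + 1)} {S : Finset (Fin n)} (hi : i ∈ S) (hX : GX w ξ S) :
    GX (fun j => P.mulVec (w j)) (P.mulVec ξ) (S.erase i) := by
  intro T hT hξ
  let L : Vec (r + 1) →ₗ[ℚ] Vec r := P.mulVecLin
  have hL : ∀ v, L v = P.mulVec v := fun v => rfl
  have him : (fun j => P.mulVec (w j)) '' (T : Set (Fin n)) = L '' (w '' (T : Set (Fin n))) := by
    rw [Set.image_image]
    rfl
  have hTS : insert i T ⊆ S := by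
    apply Finset.insert_subset hi
    exact hT.trans (Finset.erase_subset _ _)
  rw [him, Submodule.span_image] at hξ ⊢
  obtain ⟨v, hv, hvξ⟩ := Submodule.mem_map.mp hξ
  have hker : P.mulVec (ξ - v) = 0 := by
    rw [Matrix.mulVec_sub, sub_eq_zero, ← hL v]
    exact hvξ.symm
  obtain ⟨t, ht⟩ := (hP.1 _).mp hker
  have hle : Submodule.span ℚ (w '' (T : Set (Fin n)))
      ≤ Submodule.span ℚ (w '' ((insert i T : Finset (Fin n)) : Set (Fin n))) := by
    apply Submodule.span_mono
    apply Set.image_mono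
    intro x hx
    exact Finset.mem_coe.mpr (Finset.mem_insert_of_mem (Finset.mem_coe.mp hx))
  have hwi : w i ∈ Submodule.span ℚ (w '' ((insert i T : Finset (Fin n)) : Set (Fin n))) :=
    Submodule.subset_span ⟨i, Finset.mem_coe.mpr (Finset.mem_insert_self i T), rfl⟩
  have hξ' : ξ ∈ Submodule.span ℚ (w '' ((insert i T : Finset (Fin n)) : Set (Fin n))) := by
    have : ξ = v + t • w i := by rw [← ht]; abel
    rw [this]
    exact Submodule.add_mem _ (hle hv) (Submodule.smul_mem _ _ hwi)
  have htop := hX (insert i T) hTS hξ'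
  rw [eq_top_iff]
  intro y _
  obtain ⟨x, rfl⟩ := hP.2 y
  have hx : x ∈ Submodule.span ℚ (w '' ((insert i T : Finset (Fin n)) : Set (Fin n))) := by
    rw [htop]; exact Submodule.mem_top
  rw [Finset.coe_insert, Set.image_insert_eq, Submodule.mem_span_insert] at hx
  obtain ⟨c, z, hz, rfl⟩ := hx
  refine Submodule.mem_map.mpr ⟨z, hz, ?_⟩
  rw [hL, Matrix.mulVec_add, Matrix.mulVec_smul, (hP.1 (w i)).mpr ⟨1, (one_smul _ _).symm⟩,
    smul_zero, zero_add]

end LibHK51
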