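import Pool.Agent.LibHK51.TG
import Pool.Agent.LibHK51.TI

/-! Row TJ: the flip identity. Uses only the statements of TA, TB, TC, TG, TI.

Let `a = w i`, `w' = Function.update w i (-w i)`, `v j = P.mulVec (w j)`. Choose `s` with `s i = 0`,
`Gen w s S` (`gen_exists_zero`). Then `Gen w' s S` (for a basis `B` and `j ∉ B`: the points `pt` are the
same since `a ⬝ᵥ p = 0` iff `(-a) ⬝ᵥ p = 0`, `dt_signs`) and `Gen v s (S.erase i)` (for `B'` with
`dt v B' ≠ 0`: `dt w (insert i B') ≠ 0` by `contr_dt` and
`pt w s (insert i B') = Pᵀ (pt v s B')` by `pt_uniq`, since `w i ⬝ᵥ Pᵀ p' = (P (w i)) ⬝ᵥ p' = 0`).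
Use `jf_eq_Jsum` three times with this `s`; `rho_comp` for the components
(`(S.erase i).card - r = S.card - (r + 1)`), so let `Z` be the component.
* Terms `B ⊆ S`, `i ∉ B`: the same `B` are feasible for `w` and `w'`, same `dt`, same point `p`, and
  in the denominator the factor of `i` is `a ⬝ᵥ p` resp. `- a ⬝ᵥ p`: the terms cancel.
* Terms with `i ∈ B`, `B = insert i B'`: `dt w B = dt w' B = κ * dt v B'`; the denominators
  `w j ⬝ᵥ Pᵀ p' + s j = v j ⬝ᵥ p' + s j`, `j ∈ S \ B = (S.erase i) \ B'`; the numerator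
  `eval (Pᵀ p') Z = eval p' (rho P Z)` (`eval_rho`). And `Fe v (P ξ) B'` iff exactly one of
  `Fe w ξ B`, `Fe w' ξ B` holds, and none if it fails: `P ξ = ∑ c j P (w j)` with `c j > 0` iff
  `ξ = ∑ j ∈ B', c j • w j + t • a` for some `t`, and `t ≠ 0` by `GX` (the `r` vectors `w j`, `j ∈ B'`,
  do not span `ℚ^(r+1)`), `t > 0` gives `Fe w ξ B`, `t < 0` gives `Fe w' ξ B`
  (uniqueness of coefficients: `coef_uniq`). -/

namespace LibHK51

open MvPolynomial

open scoped Classical

variable {r n : ℕ}

private theorem Jsum_ite {r n : ℕ} (w : Fin n → Vec r) (s : Fin n → ℚ) (ξ : Vec r)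
    (S : Finset (Fin n)) (Z : Pol r) :
    Jsum w s ξ S Z = ∑ B ∈ S.powerset, if (dt w B ≠ 0 ∧ Fe w ξ B) then
      eval (pt w s B) Z / (dt w B * ∏ i ∈ S \ B, (w i ⬝ᵥ pt w s B + s i)) else 0 := by
  unfold Jsum
  rw [Finset.sum_filter]

private theorem dot_tr (P : Matrix (Fin r) (Fin (r + 1)) ℚ) (x : Vec (r + 1)) (p : Vec r) :
    x ⬝ᵥ P.transpose.mulVec p = P.mulVec x ⬝ᵥ p := by
  rw [Matrix.mulVec_transpose, dotProduct_comm, ← Matrix.dotProduct_mulVec, dotProduct_comm]

private theorem pt_con {P : Matrix (Fin r) (Fin (r + 1)) ℚ} {w : Fin n → Vec (r + 1)} {i : Fin n}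
    (hC : IsContr P (w i)) {s : Fin n → ℚ} (hs : s i = 0) {B : Finset (Fin n)}
    (hd : dt (fun j => P.mulVec (w j)) B ≠ 0) {w' : Fin n → Vec (r + 1)}
    (hw' : ∀ j ∈ B, w' j = w j) (hwi : w' i = w i ∨ w' i = - w i)
    (hd' : dt w' (insert i B) ≠ 0) :
    pt w' s (insert i B) = P.transpose.mulVec (pt (fun j => P.mulVec (w j)) s B) := by
  symm
  apply pt_uniq hd'
  have hPi : P.mulVec (w i) = 0 := (hC.1 (w i)).mpr ⟨1, (one_smul _ _).symm⟩
  intro j hj
  rcases Finset.mem_insert.mp hj with rfl | hj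
  · rw [hs, add_zero]
    rcases hwi with h | h
    · rw [h, dot_tr, hPi, zero_dotProduct]
    · rw [h, neg_dotProduct, dot_tr, hPi, zero_dotProduct, neg_zero]
  · rw [hw' j hj, dot_tr]
    exact pt_spec hd s j hj

private theorem fe_iff {P : Matrix (Fin r) (Fin (r + 1)) ℚ} {w : Fin n → Vec (r + 1)} {i : Fin n}
    (hC : IsContr P (w i)) {ξ : Vec (r + 1)} {S : Finset (Fin n)} (hX : GX w ξ S)
    {B : Finset (Fin n)} (hBS : B ⊆ S) (hiB : i ∉ B)
    (hd : dt (fun j => P.mulVec (w j)) B ≠ 0) (hdw : dt w (insert i B) ≠ 0) :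
    ((if Fe w ξ (insert i B) then (1 : ℚ) else 0) +
      (if Fe (Function.update w i (- w i)) ξ (insert i B) then (1 : ℚ) else 0)) =
      if Fe (fun j => P.mulVec (w j)) (P.mulVec ξ) B then 1 else 0 := by
  have hPi : P.mulVec (w i) = 0 := (hC.1 (w i)).mpr ⟨1, (one_smul _ _).symm⟩
  have hupd : ∀ j ∈ B, Function.update w i (- w i) j = w j := by
    intro j hj
    rw [Function.update_of_ne]
    rintro rfl
    exact hiB hj
  have h1 : Fe w ξ (insert i B) → Fe (fun j => P.mulVec (w j)) (P.mulVec ξ) B := by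
    rintro ⟨c, hc, hsum⟩
    refine ⟨c, fun j hj => hc j (Finset.mem_insert_of_mem hj), ?_⟩
    rw [← hsum, Finset.sum_insert hiB, Matrix.mulVec_add, Matrix.mulVec_smul, hPi, smul_zero,
      zero_add, Matrix.mulVec_sum]
    refine Finset.sum_congr rfl (fun j _ => ?_)
    rw [Matrix.mulVec_smul]
  have h2 : Fe (Function.update w i (- w i)) ξ (insert i B) →
      Fe (fun j => P.mulVec (w j)) (P.mulVec ξ) B := by
    rintro ⟨c, hc, hsum⟩
    refine ⟨c, fun j hj => hc j (Finset.mem_insert_of_mem hj), ?_⟩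
    rw [← hsum, Finset.sum_insert hiB, Matrix.mulVec_add, Matrix.mulVec_smul,
      Function.update_self, Matrix.mulVec_neg, hPi, neg_zero, smul_zero, zero_add,
      Matrix.mulVec_sum]
    refine Finset.sum_congr rfl (fun j hj => ?_)
    rw [Matrix.mulVec_smul, hupd j hj]
  have h3 : ¬ (Fe w ξ (insert i B) ∧ Fe (Function.update w i (- w i)) ξ (insert i B)) := by
    rintro ⟨⟨c, hc, hsum⟩, ⟨c', hc', hsum'⟩⟩
    have hci := hc i (Finset.mem_insert_self i B)
    have hci' := hc' i (Finset.mem_insert_self i B)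
    have hkey : ∑ j ∈ insert i B, c j • w j =
        ∑ j ∈ insert i B, (Function.update c' i (- c' i)) j • w j := by
      rw [hsum, ← hsum', Finset.sum_insert hiB, Finset.sum_insert hiB, Function.update_self,
        Function.update_self, smul_neg, neg_smul]
      congr 1
      refine Finset.sum_congr rfl (fun j hj => ?_)
      rw [hupd j hj, Function.update_of_ne]
      rintro rfl
      exact hiB hj
    have := coef_uniq hdw hkey i (Finset.mem_insert_self i B)
    rw [Function.update_self] at this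
    linarith
  have h4 : Fe (fun j => P.mulVec (w j)) (P.mulVec ξ) B →
      Fe w ξ (insert i B) ∨ Fe (Function.update w i (- w i)) ξ (insert i B) := by
    rintro ⟨c, hc, hsum⟩
    have h5 : P.mulVec (ξ - ∑ j ∈ B, c j • w j) = 0 := by
      rw [Matrix.mulVec_sub, Matrix.mulVec_sum, sub_eq_zero, ← hsum]
      refine Finset.sum_congr rfl (fun j _ => ?_)
      rw [Matrix.mulVec_smul]
    obtain ⟨t, ht⟩ := (hC.1 _).mp h5
    have hξ : ξ = t • w i + ∑ j ∈ B, c j • w j := by
      rw [← ht, sub_add_cancel]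
    have ht0 : t ≠ 0 := by
      rintro rfl
      rw [zero_smul, zero_add] at hξ
      have hmem : ξ ∈ Submodule.span ℚ (w '' (B : Set (Fin n))) := by
        rw [hξ]
        refine Submodule.sum_mem _ (fun j hj => Submodule.smul_mem _ _ ?_)
        exact Submodule.subset_span ⟨j, hj, rfl⟩
      obtain ⟨B2, hB2, hd2⟩ := dt_of_span (hX B hBS hmem)
      have e1 := dt_card hd2
      have e2 := dt_card hd
      have e3 := Finset.card_le_card hB2
      omega
    have hne : ∀ j ∈ B, j ≠ i := by
      rintro j hj rfl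
      exact hiB hj
    rcases lt_or_gt_of_ne ht0 with htn | htp
    · right
      refine ⟨Function.update c i (- t), ?_, ?_⟩
      · intro j hj
        rcases Finset.mem_insert.mp hj with rfl | hj
        · rw [Function.update_self]; linarith
        · rw [Function.update_of_ne (hne j hj)]; exact hc j hj
      · rw [Finset.sum_insert hiB, Function.update_self, Function.update_self, smul_neg, neg_smul,
          neg_neg, hξ]
        congr 1
        refine Finset.sum_congr rfl (fun j hj => ?_)
        rw [hupd j hj, Function.update_of_ne (hne j hj)]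
    · left
      refine ⟨Function.update c i t, ?_, ?_⟩
      · intro j hj
        rcases Finset.mem_insert.mp hj with rfl | hj
        · rw [Function.update_self]; exact htp
        · rw [Function.update_of_ne (hne j hj)]; exact hc j hj
      · rw [Finset.sum_insert hiB, Function.update_self, hξ]
        congr 1
        refine Finset.sum_congr rfl (fun j hj => ?_)
        rw [Function.update_of_ne (hne j hj)]
  by_cases hv : Fe (fun j => P.mulVec (w j)) (P.mulVec ξ) B
  · rw [if_pos hv]
    rcases h4 hv with h | h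
    · rw [if_pos h, if_neg (fun h' => h3 ⟨h, h'⟩), add_zero]
    · rw [if_neg (fun h' => h3 ⟨h', h⟩), if_pos h, zero_add]
  · rw [if_neg hv, if_neg (fun h => hv (h1 h)), if_neg (fun h => hv (h2 h)), add_zero]

theorem flip {P : Matrix (Fin r) (Fin (r + 1)) ℚ} {w : Fin n → Vec (r + 1)} {i : Fin n}
    (hi0 : w i ≠ 0) (hC : IsContr P (w i)) {κ : ℚ} (hκ : 0 < κ)
    (hdt : ∀ B : Finset (Fin n), i ∉ B →
      dt w (insert i B) = κ * dt (fun j => P.mulVec (w j)) B)
    {ξ : Vec (r + 1)} {S : Finset (Fin n)} (hi : i ∈ S) (hX : GX w ξ S) (hP : Pnt w S)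
    (hP' : Pnt (Function.update w i (- w i)) S)
    (hP'' : Pnt (fun j => P.mulVec (w j)) (S.erase i)) (z : Pol (r + 1)) :
    jf w ξ S z + jf (Function.update w i (- w i)) ξ S z =
      κ⁻¹ * jf (fun j => P.mulVec (w j)) (P.mulVec ξ) (S.erase i) (rho P z) := by
  obtain ⟨s, hsi, hs⟩ := gen_exists_zero w S i hi0
  have hw'i : Function.update w i (- w i) i = - w i := Function.update_self _ _ _
  have hw'j : ∀ j, j ≠ i → Function.update w i (- w i) j = w j :=
    fun j hj => Function.update_of_ne hj _ _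
  obtain ⟨w', hw'⟩ : ∃ w', w' = Function.update w i (- w i) := ⟨_, rfl⟩
  have hsg : ∀ j, w' j = w j ∨ w' j = - w j := by
    intro j
    by_cases hj : j = i
    · right; rw [hw', hj]; exact hw'i
    · left; rw [hw']; exact hw'j j hj
  have hdt' : ∀ B, dt w' B = dt w B := fun B => dt_signs (fun j _ => hsg j)
  have hPi : P.mulVec (w i) = 0 := (hC.1 (w i)).mpr ⟨1, (one_smul _ _).symm⟩
  have hptw' : ∀ B, dt w B ≠ 0 → pt w' s B = pt w s B := by
    intro B hB
    apply pt_uniq hB
    intro j hj
    have h1 := pt_spec (by rw [hdt']; exact hB : dt w' B ≠ 0) s j hj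
    by_cases hji : j = i
    · rw [hji, hw', hw'i, hsi, neg_dotProduct, add_zero, neg_eq_zero] at h1
      rw [hw', hji, hsi, add_zero]
      exact h1
    · rw [hw', hw'j j hji] at h1
      rw [hw']
      exact h1
  have hGen' : Gen w' s S := by
    intro B hB hd j hj
    rw [hdt'] at hd
    rw [hptw' B hd]
    have h1 := hs B hB hd j hj
    by_cases hji : j = i
    · rw [hji, hw', hw'i, hsi, neg_dotProduct, add_zero, neg_ne_zero]
      rw [hji, hsi, add_zero] at h1
      exact h1
    · rw [hw', hw'j j hji]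
      exact h1
  have hinsS : ∀ B ⊆ S.erase i, insert i B ⊆ S := by
    intro B hB j hj
    rcases Finset.mem_insert.mp hj with rfl | hj
    · exact hi
    · exact Finset.mem_of_mem_erase (hB hj)
  have hiB : ∀ B ⊆ S.erase i, i ∉ B := fun B hB h => (Finset.mem_erase.mp (hB h)).1 rfl
  have hsd : ∀ B : Finset (Fin n), S \ insert i B = S.erase i \ B := by
    intro B
    ext j
    simp only [Finset.mem_sdiff, Finset.mem_insert, Finset.mem_erase, not_or]
    tauto
  have hGenv : Gen (fun j => P.mulVec (w j)) s (S.erase i) := by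
    intro B hB hd j hj
    have hdw : dt w (insert i B) ≠ 0 := by
      rw [hdt B (hiB B hB)]
      exact mul_ne_zero hκ.ne' hd
    have h1 := hs (insert i B) (hinsS B hB) hdw j (by rw [hsd]; exact hj)
    rw [pt_con hC hsi hd (fun _ _ => rfl) (Or.inl rfl) hdw, dot_tr] at h1
    exact h1
  rw [← hw'] at hP' ⊢
  have hX' : GX w' ξ S := hX.signs (fun j _ => hsg j)
  have hXv := contr_GX hC hi hX
  rw [jf_eq_Jsum hP hX hs, jf_eq_Jsum hP' hX' hGen', jf_eq_Jsum hP'' hXv hGenv]
  have hcard : (S.erase i).card - r = S.card - (r + 1) := by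
    rw [Finset.card_erase_of_mem hi]
    omega
  rw [hcard, ← rho_comp]
  generalize homogeneousComponent (S.card - (r + 1)) z = Z
  rw [Jsum_ite, Jsum_ite, Jsum_ite]
  have hS : S = insert i (S.erase i) := (Finset.insert_erase hi).symm
  have hpow : ∀ f : Finset (Fin n) → ℚ, ∑ B ∈ S.powerset, f B =
      ∑ B ∈ (S.erase i).powerset, f B + ∑ B ∈ (S.erase i).powerset, f (insert i B) := by
    intro f
    conv_lhs => rw [hS]
    exact Finset.sum_powerset_insert (Finset.notMem_erase i S) f
  rw [hpow, hpow]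
  -- terms without i
  have hA : ∑ B ∈ (S.erase i).powerset, (if (dt w B ≠ 0 ∧ Fe w ξ B) then
        eval (pt w s B) Z / (dt w B * ∏ i ∈ S \ B, (w i ⬝ᵥ pt w s B + s i)) else 0) +
      ∑ B ∈ (S.erase i).powerset, (if (dt w' B ≠ 0 ∧ Fe w' ξ B) then
        eval (pt w' s B) Z / (dt w' B * ∏ i ∈ S \ B, (w' i ⬝ᵥ pt w' s B + s i)) else 0) = 0 := by
    rw [← Finset.sum_add_distrib]
    refine Finset.sum_eq_zero (fun B hB => ?_)
    rw [Finset.mem_powerset] at hB
    have hFe : Fe w' ξ B ↔ Fe w ξ B := by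
      have hww : ∀ j ∈ B, w' j = w j := by
        intro j hj
        rw [hw']
        apply hw'j
        rintro rfl
        exact hiB B hB hj
      unfold Fe
      constructor
      · rintro ⟨c, hc, hsum⟩
        refine ⟨c, hc, ?_⟩
        rw [← hsum]
        exact Finset.sum_congr rfl (fun j hj => by rw [hww j hj])
      · rintro ⟨c, hc, hsum⟩
        refine ⟨c, hc, ?_⟩
        rw [← hsum]
        exact Finset.sum_congr rfl (fun j hj => by rw [hww j hj])
    by_cases hd : dt w B ≠ 0 ∧ Fe w ξ B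
    · rw [if_pos hd, if_pos (by rw [hdt', hFe]; exact hd), hptw' B hd.1, hdt']
      have hSB : S \ B = insert i (S.erase i \ B) := by
        ext j
        simp only [Finset.mem_sdiff, Finset.mem_insert, Finset.mem_erase]
        have := hiB B hB
        constructor
        · rintro ⟨h1, h2⟩
          by_cases hji : j = i
          · exact Or.inl hji
          · exact Or.inr ⟨⟨hji, h1⟩, h2⟩
        · rintro (rfl | ⟨⟨h1, h2⟩, h3⟩)
          · exact ⟨hi, this⟩
          · exact ⟨h2, h3⟩
      have hin : i ∉ S.erase i \ B := by simp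
      have hprod : ∏ j ∈ S.erase i \ B, (w' j ⬝ᵥ pt w s B + s j) =
          ∏ j ∈ S.erase i \ B, (w j ⬝ᵥ pt w s B + s j) := by
        refine Finset.prod_congr rfl (fun j hj => ?_)
        rw [hw', hw'j]
        rintro rfl
        exact hin hj
      rw [hSB, Finset.prod_insert hin, Finset.prod_insert hin, hprod]
      have hwi : w' i ⬝ᵥ pt w s B + s i = - (w i ⬝ᵥ pt w s B + s i) := by
        rw [hw', hw'i, hsi, neg_dotProduct, add_zero, add_zero]
      rw [hwi, neg_mul, mul_neg, div_neg, add_neg_cancel]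
    · rw [if_neg hd, if_neg (by rw [hdt', hFe]; exact hd), add_zero]
  -- terms with i
  have hBt : ∑ B ∈ (S.erase i).powerset, (if (dt w (insert i B) ≠ 0 ∧ Fe w ξ (insert i B)) then
        eval (pt w s (insert i B)) Z / (dt w (insert i B) *
          ∏ j ∈ S \ insert i B, (w j ⬝ᵥ pt w s (insert i B) + s j)) else 0) +
      ∑ B ∈ (S.erase i).powerset, (if (dt w' (insert i B) ≠ 0 ∧ Fe w' ξ (insert i B)) then
        eval (pt w' s (insert i B)) Z / (dt w' (insert i B) *
          ∏ j ∈ S \ insert i B, (w' j ⬝ᵥ pt w' s (insert i B) + s j)) else 0) =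
      κ⁻¹ * ∑ B ∈ (S.erase i).powerset,
        (if (dt (fun j => P.mulVec (w j)) B ≠ 0 ∧ Fe (fun j => P.mulVec (w j)) (P.mulVec ξ) B) then
        eval (pt (fun j => P.mulVec (w j)) s B) (rho P Z) / (dt (fun j => P.mulVec (w j)) B *
          ∏ j ∈ S.erase i \ B, (P.mulVec (w j) ⬝ᵥ pt (fun j => P.mulVec (w j)) s B + s j))
          else 0) := by
    rw [← Finset.sum_add_distrib, Finset.mul_sum]
    refine Finset.sum_congr rfl (fun B hB => ?_)
    rw [Finset.mem_powerset] at hB
    have hdB := hdt B (hiB B hB)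
    by_cases hd : dt (fun j => P.mulVec (w j)) B = 0
    · rw [if_neg (fun h => h.1 (by rw [hdB, hd, mul_zero])),
        if_neg (fun h => h.1 (by rw [hdt', hdB, hd, mul_zero])), if_neg (fun h => h.1 hd)]
      ring
    · have hdw : dt w (insert i B) ≠ 0 := by
        rw [hdB]
        exact mul_ne_zero hκ.ne' hd
      have hdw' : dt w' (insert i B) ≠ 0 := by rw [hdt']; exact hdw
      have hfe := fe_iff hC hX ((hB.trans (Finset.erase_subset i S))) (hiB B hB) hd hdw
      rw [← hw'] at hfe
      rw [hptw' _ hdw, hdt', pt_con hC hsi hd (fun _ _ => rfl) (Or.inl rfl) hdw, hsd, hdB]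
      have hprod : ∏ j ∈ S.erase i \ B, (w' j ⬝ᵥ P.transpose.mulVec
          (pt (fun j => P.mulVec (w j)) s B) + s j) =
          ∏ j ∈ S.erase i \ B, (P.mulVec (w j) ⬝ᵥ pt (fun j => P.mulVec (w j)) s B + s j) := by
        refine Finset.prod_congr rfl (fun j hj => ?_)
        rw [hw', hw'j, dot_tr]
        rintro rfl
        simp at hj
      have hprod2 : ∏ j ∈ S.erase i \ B, (w j ⬝ᵥ P.transpose.mulVec
          (pt (fun j => P.mulVec (w j)) s B) + s j) =
          ∏ j ∈ S.erase i \ B, (P.mulVec (w j) ⬝ᵥ pt (fun j => P.mulVec (w j)) s B + s j) := by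
        refine Finset.prod_congr rfl (fun j hj => ?_)
        rw [dot_tr]
      rw [hprod, hprod2, ← eval_rho]
      rw [hdB] at hdw
      generalize (∏ j ∈ S.erase i \ B,
        (P.mulVec (w j) ⬝ᵥ pt (fun j => P.mulVec (w j)) s B + s j)) = Q1
      generalize eval (pt (fun j => P.mulVec (w j)) s B) (rho P Z) = E
      have hcalc : ∀ (p q u : Prop) [Decidable p] [Decidable q] [Decidable u],
          ((if p then (1 : ℚ) else 0) + (if q then (1 : ℚ) else 0)) = (if u then 1 else 0) →
          (if (κ * dt (fun j => P.mulVec (w j)) B ≠ 0 ∧ p) then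
            E / (κ * dt (fun j => P.mulVec (w j)) B * Q1) else 0) +
          (if (κ * dt (fun j => P.mulVec (w j)) B ≠ 0 ∧ q) then
            E / (κ * dt (fun j => P.mulVec (w j)) B * Q1) else 0) =
          κ⁻¹ * (if (dt (fun j => P.mulVec (w j)) B ≠ 0 ∧ u) then
            E / (dt (fun j => P.mulVec (w j)) B * Q1) else 0) := by
        intro p q u _ _ _ hpq
        have e1 : ∀ (p : Prop) [Decidable p], (if (κ * dt (fun j => P.mulVec (w j)) B ≠ 0 ∧ p) then
            E / (κ * dt (fun j => P.mulVec (w j)) B * Q1) else 0) =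
            (if p then (1 : ℚ) else 0) * (E / (κ * dt (fun j => P.mulVec (w j)) B * Q1)) := by
          intro p _
          by_cases hp : p
          · rw [if_pos ⟨hdw, hp⟩, if_pos hp, one_mul]
          · rw [if_neg (fun h => hp h.2), if_neg hp, zero_mul]
        have e2 : (if (dt (fun j => P.mulVec (w j)) B ≠ 0 ∧ u) then
            E / (dt (fun j => P.mulVec (w j)) B * Q1) else 0) =
            (if u then (1 : ℚ) else 0) * (E / (dt (fun j => P.mulVec (w j)) B * Q1)) := by
          by_cases hu : u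
          · rw [if_pos ⟨hd, hu⟩, if_pos hu, one_mul]
          · rw [if_neg (fun h => hu h.2), if_neg hu, zero_mul]
        rw [e1, e1, e2, ← add_mul, hpq]
        rw [mul_assoc κ, ← div_div, div_eq_mul_inv E κ, mul_div_assoc]
        ring
      exact hcalc _ _ _ hfe
  linear_combination hA + hBt

end LibHK51
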