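import Pool.Agent.LibHK51.GA
import Pool.Agent.LibHK51.TG

/-! Row TL: sign patterns of cocharacters and the Kempf inequality. Uses only the statements of TA, TC,
GA.

* `Pnt_wl`: `m` integral, so `al i ⬝ᵥ m` is an integer (`al_int`); `l = - m + δ l0` with `l0` from
  `pointed` and `δ > 0` small: for `al i ⬝ᵥ m ≤ 0` positive; for `al i ⬝ᵥ m ≥ 1`:
  `(- al i) ⬝ᵥ l = al i ⬝ᵥ m - δ al i ⬝ᵥ l0 > 0`.
* `wl_of_Pnt`: `m = - N • l`, `N > 0` a common denominator of the coordinates of `l`.
* `kempf`: `B ⊆ Sk (wl m) (kl m) univ q`, `xi = ∑ i ∈ B, c i • wl m i`, `c i > 0`: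
  `xi ⬝ᵥ q = - ∑ c i * kl m i`, and `wl m i ⬝ᵥ m + kl m i ≤ 0` for all `i` (integrality), so
  `xi ⬝ᵥ m ≤ xi ⬝ᵥ q`, with equality only if `wl m i ⬝ᵥ m + kl m i = 0` on `B`, i.e. `m = q`
  (`pt_uniq`). `D.Feas q`: the coefficients `± c i`.
* `Feas_int`: `q` solves a unimodular integral system: with `Matrix` notation `N q = b`, `N` the
  integral matrix with rows `al i`, `i ∈ B`, `|det N| = 1` (`unimod`), so `N⁻¹` is integral
  (`Matrix.adjugate`).
* `Feas_fin`: `q = pt D.al (fun i => if i ∈ T then -1 else 0) B` for finsets `B`, `T`.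
* `Feas_tact`: transport `B`, `c` along the permutation of the weights. -/

namespace LibHK51

open MvPolynomial

open scoped Classical

variable {W : Type} [Group W] [Fintype W] {r n : ℕ} (D : Datum W r n)

namespace Datum

theorem al_ne (i : Fin n) : D.al i ≠ 0 := by
  intro h
  obtain ⟨l, hl⟩ := D.pointed
  have := hl i (Finset.mem_univ i)
  rw [h, zero_dotProduct] at this
  exact lt_irrefl _ this

theorem pair_int {a m : Vec r} (ha : IsInt a) (hm : IsInt m) : ∃ k : ℤ, a ⬝ᵥ m = k := by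
  choose f hf using ha
  choose g hg using hm
  refine ⟨∑ j, f j * g j, ?_⟩
  rw [dotProduct]
  push_cast
  exact Finset.sum_congr rfl (fun j _ => by rw [hf j, hg j])

private theorem nb {a m : Vec r} (ha : IsInt a) (hm : IsInt m) :
    a ⬝ᵥ m ≤ 0 ∨ 1 ≤ a ⬝ᵥ m := by
  obtain ⟨k, hk⟩ := pair_int ha hm
  rw [hk]
  rcases le_or_gt k 0 with h | h
  · left; exact_mod_cast h
  · right
    have : 1 ≤ k := by omega
    exact_mod_cast this

theorem wl_sign (m : Vec r) (i : Fin n) : D.wl m i = D.al i ∨ D.wl m i = - D.al i := by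
  unfold wl
  split_ifs
  · exact Or.inl rfl
  · exact Or.inr rfl

theorem GX_wl (m : Vec r) : GX (D.wl m) D.xi Finset.univ :=
  D.generic.signs (fun i _ => D.wl_sign m i)

theorem Pnt_wl {m : Vec r} (hm : IsInt m) : Pnt (D.wl m) Finset.univ := by
  obtain ⟨l, hl⟩ := D.pointed
  have hpos : ∀ i, 0 < D.al i ⬝ᵥ l := fun i => hl i (Finset.mem_univ i)
  have hs0 : 0 ≤ ∑ i, D.al i ⬝ᵥ l := Finset.sum_nonneg (fun i _ => (hpos i).le)
  have hle : ∀ i, D.al i ⬝ᵥ l ≤ ∑ i, D.al i ⬝ᵥ l := fun i =>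
    Finset.single_le_sum (f := fun i => D.al i ⬝ᵥ l) (fun i _ => (hpos i).le) (Finset.mem_univ i)
  obtain ⟨A, hA⟩ : ∃ A : ℚ, A = ∑ i, D.al i ⬝ᵥ l := ⟨_, rfl⟩
  rw [← hA] at hs0 hle
  have hA1 : 0 < 1 + A := by linarith
  refine ⟨- m + (1 + A)⁻¹ • l, fun i _ => ?_⟩
  have hδ : 0 < (1 + A)⁻¹ := inv_pos.mpr hA1
  unfold wl
  split_ifs with h
  · rw [dotProduct_add, dotProduct_neg, dotProduct_smul, smul_eq_mul]
    have := mul_pos hδ (hpos i)
    linarith
  · have h1 := (nb (D.al_int i) hm).resolve_left h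
    rw [neg_dotProduct, dotProduct_add, dotProduct_neg, dotProduct_smul, smul_eq_mul]
    have h2 : (1 + A)⁻¹ * (D.al i ⬝ᵥ l) < 1 := by
      rw [inv_mul_lt_iff₀ hA1]
      have := hle i
      linarith
    linarith

theorem wl_of_Pnt {w : Fin n → Vec r} (hw : ∀ i, w i = D.al i ∨ w i = - D.al i)
    (hP : Pnt w Finset.univ) : ∃ m, IsInt m ∧ D.wl m = w := by
  obtain ⟨l, hl⟩ := hP
  obtain ⟨N, hN⟩ : ∃ N : ℕ, N = ∏ j, (l j).den := ⟨_, rfl⟩
  have hN0 : 0 < N := by
    rw [hN]
    exact Finset.prod_pos (fun j _ => (l j).den_pos)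
  have hint : IsInt ((-(N : ℚ)) • l) := by
    intro j
    have hdvd : (l j).den ∣ N := by
      rw [hN]
      exact Finset.dvd_prod_of_mem _ (Finset.mem_univ j)
    obtain ⟨k, hk⟩ := hdvd
    refine ⟨-(k * (l j).num), ?_⟩
    rw [Pi.smul_apply, smul_eq_mul, hk]
    push_cast
    have h1 : ((l j).den : ℚ) ≠ 0 := by
      exact_mod_cast (l j).den_ne_zero
    have h2 : l j * ((l j).den : ℚ) = (l j).num := Rat.mul_den_eq_num (l j)
    linear_combination -(k : ℚ) * h2
  refine ⟨(-(N : ℚ)) • l, hint, ?_⟩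
  have hNq : (0 : ℚ) < N := by exact_mod_cast hN0
  funext i
  have hli := hl i (Finset.mem_univ i)
  unfold wl
  rcases hw i with h | h
  · rw [h] at hli
    rw [if_pos, h]
    rw [dotProduct_smul, smul_eq_mul]
    have := mul_pos hNq hli
    linarith
  · rw [h, neg_dotProduct] at hli
    rw [if_neg, h]
    rw [dotProduct_smul, smul_eq_mul]
    have := mul_pos hNq hli
    linarith

/-- the Kempf inequality -/
theorem kempf {m : Vec r} (hm : IsInt m) {q : Vec r} {B : Finset (Fin n)}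
    (hB : B ⊆ Sk (D.wl m) (D.kl m) Finset.univ q) (hd : dt (D.wl m) B ≠ 0)
    (hF : Fe (D.wl m) D.xi B) : D.Feas q ∧ (D.xi ⬝ᵥ m < D.xi ⬝ᵥ q ∨ q = m) := by
  have hq : ∀ i ∈ B, D.wl m i ⬝ᵥ q + D.kl m i = 0 := by
    intro i hi
    have := hB hi
    unfold Sk at this
    exact (Finset.mem_filter.mp this).2
  have hdal : dt D.al B ≠ 0 := by
    have : dt (D.wl m) B = dt D.al B := dt_signs (fun i _ => D.wl_sign m i)
    rwa [this] at hd
  obtain ⟨c, hc, hsum⟩ := hF
  have hm0 : ∀ i, D.wl m i ⬝ᵥ m + D.kl m i ≤ 0 := by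
    intro i
    unfold wl kl
    split_ifs with h
    · rw [add_zero]; exact h
    · have h1 := (nb (D.al_int i) hm).resolve_left h
      rw [neg_dotProduct]
      linarith
  refine ⟨⟨B, fun i => if D.al i ⬝ᵥ m ≤ 0 then c i else - c i, hdal, ?_, ?_⟩, ?_⟩
  · intro i hi
    have h1 := hq i hi
    unfold wl kl at h1
    by_cases h : D.al i ⬝ᵥ m ≤ 0
    · rw [if_pos h, if_pos h, add_zero] at h1
      left
      exact ⟨h1, by simp only [if_pos h]; exact hc i hi⟩
    · rw [if_neg h, if_neg h, neg_dotProduct] at h1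
      right
      refine ⟨by linarith, ?_⟩
      simp only [if_neg h]
      have := hc i hi
      linarith
  · rw [← hsum]
    refine Finset.sum_congr rfl (fun i _ => ?_)
    unfold wl
    by_cases h : D.al i ⬝ᵥ m ≤ 0
    · simp only [if_pos h]
    · simp only [if_neg h]
      rw [smul_neg, neg_smul]
  · have e1 : ∀ x : Vec r, D.xi ⬝ᵥ x = ∑ i ∈ B, c i * (D.wl m i ⬝ᵥ x) := by
      intro x
      rw [← hsum, sum_dotProduct]
      refine Finset.sum_congr rfl (fun i _ => ?_)
      rw [smul_dotProduct, smul_eq_mul]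
    have e2 : D.xi ⬝ᵥ q - D.xi ⬝ᵥ m = ∑ i ∈ B, c i * (-(D.wl m i ⬝ᵥ m + D.kl m i)) := by
      rw [e1, e1, ← Finset.sum_sub_distrib]
      refine Finset.sum_congr rfl (fun i hi => ?_)
      have := hq i hi
      linear_combination c i * this
    have hnn : ∀ i ∈ B, 0 ≤ c i * (-(D.wl m i ⬝ᵥ m + D.kl m i)) := by
      intro i hi
      exact mul_nonneg (hc i hi).le (by have := hm0 i; linarith)
    rcases (Finset.sum_nonneg hnn).lt_or_eq with h | h
    · left
      rw [← e2] at h
      linarith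
    · right
      have h0 := (Finset.sum_eq_zero_iff_of_nonneg hnn).mp h.symm
      have h1 : ∀ i ∈ B, D.wl m i ⬝ᵥ m + D.kl m i = 0 := by
        intro i hi
        have := h0 i hi
        rcases mul_eq_zero.mp this with h2 | h2
        · exact absurd h2 (hc i hi).ne'
        · linarith
      rw [pt_uniq hd h1, pt_uniq hd hq]

theorem Feas_int {q : Vec r} (h : D.Feas q) : IsInt q := by
  obtain ⟨B, c, hd, hB, hsum⟩ := h
  have hcard := dt_card hd
  have h1 := D.unimod B hd
  unfold dt at h1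
  rw [dif_pos hcard] at h1
  have hint : ∀ i j, ∃ k : ℤ, D.al i j = k := fun i j => D.al_int i j
  choose f hf using hint
  obtain ⟨b, hb⟩ : ∃ b : Fin r → Fin n, ∀ j, b j = B.orderEmbOfFin hcard j := ⟨_, fun _ => rfl⟩
  have hbB : ∀ j, b j ∈ B := fun j => by
    rw [hb]
    exact Finset.orderEmbOfFin_mem B hcard j
  obtain ⟨N, hN⟩ : ∃ N : Matrix (Fin r) (Fin r) ℤ, N = Matrix.of (fun j => f (b j)) := ⟨_, rfl⟩
  have hNq : N.map (Int.castRingHom ℚ) =
      Matrix.of (fun j : Fin r => D.al (B.orderEmbOfFin hcard j)) := by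
    ext i j
    rw [Matrix.map_apply, hN, Matrix.of_apply, Matrix.of_apply, ← hb, hf]
    rfl
  rw [← hNq] at h1
  have hdet : (N.map (Int.castRingHom ℚ)).det = ((N.det : ℤ) : ℚ) := by
    have := (Int.castRingHom ℚ).map_det N
    rw [RingHom.mapMatrix_apply] at this
    rw [← this]
    rfl
  rw [hdet] at h1
  have hdet1 : N.det = 1 ∨ N.det = -1 := by
    have h2 : |N.det| = 1 := by exact_mod_cast h1
    exact (abs_eq (by norm_num)).mp h2
  -- the right side
  have hrhs : ∀ j, ∃ k : ℤ, ((N.map (Int.castRingHom ℚ)).mulVec q) j = k := by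
    intro j
    have h3 : ((N.map (Int.castRingHom ℚ)).mulVec q) j = D.al (b j) ⬝ᵥ q := by
      rw [hNq]
      simp only [Matrix.mulVec, Matrix.of_apply, ← hb]
    rcases hB (b j) (hbB j) with h4 | h4
    · exact ⟨0, by rw [h3, h4.1]; simp⟩
    · exact ⟨1, by rw [h3, h4.1]; simp⟩
  choose v hv using hrhs
  have hadj : (N.map (Int.castRingHom ℚ)).adjugate.mulVec
      ((N.map (Int.castRingHom ℚ)).mulVec q) = ((N.det : ℤ) : ℚ) • q := by
    rw [Matrix.mulVec_mulVec, Matrix.adjugate_mul, hdet, Matrix.smul_mulVec, Matrix.one_mulVec]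
  have hadj2 : (N.map (Int.castRingHom ℚ)).adjugate = N.adjugate.map (Int.castRingHom ℚ) := by
    have := RingHom.map_adjugate (Int.castRingHom ℚ) N
    rw [RingHom.mapMatrix_apply, RingHom.mapMatrix_apply] at this
    exact this.symm
  have hmain : ∀ j, ∃ k : ℤ, ((N.det : ℤ) : ℚ) * q j = k := by
    intro j
    have h5 := congrFun hadj j
    rw [Pi.smul_apply, smul_eq_mul] at h5
    refine ⟨∑ i, N.adjugate j i * v i, ?_⟩
    rw [← h5, hadj2]
    simp only [Matrix.mulVec, dotProduct, Matrix.map_apply]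
    push_cast
    refine Finset.sum_congr rfl (fun i _ => ?_)
    have := hv i
    simp only [Matrix.mulVec, dotProduct, Matrix.map_apply] at this
    rw [this]
    rfl
  intro j
  obtain ⟨k, hk⟩ := hmain j
  rcases hdet1 with h6 | h6
  · exact ⟨k, by rw [h6] at hk; simpa using hk⟩
  · refine ⟨-k, ?_⟩
    rw [h6] at hk
    push_cast at hk ⊢
    linarith

theorem Feas_fin : {q | D.Feas q}.Finite := by
  apply (Set.finite_range (fun x : Finset (Fin n) × Finset (Fin n) =>
    pt D.al (fun i => if i ∈ x.2 then -1 else 0) x.1)).subset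
  rintro q ⟨B, c, hd, hB, hsum⟩
  refine ⟨(B, Finset.univ.filter (fun i => D.al i ⬝ᵥ q = 1)), ?_⟩
  simp only
  symm
  apply pt_uniq hd
  intro i hi
  rcases hB i hi with h | h
  · rw [if_neg, add_zero]
    · exact h.1
    · simp only [Finset.mem_filter, Finset.mem_univ, true_and]
      rw [h.1]
      norm_num
  · rw [if_pos, h.1]
    · norm_num
    · simp only [Finset.mem_filter, Finset.mem_univ, true_and]
      exact h.1

theorem Feas_tact (g : W) {q : Vec r} (h : D.Feas q) : D.Feas (D.tact g q) := by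
  obtain ⟨B, c, hd, hB, hsum⟩ := h
  obtain ⟨σ, hσ⟩ := D.al_perm g
  have hcard := dt_card hd
  have hMdet : (D.M g).det ≠ 0 := by
    intro h0
    have h1 : D.M g * D.M g⁻¹ = 1 := by rw [← map_mul, mul_inv_cancel, map_one]
    have h2 := congrArg Matrix.det h1
    rw [Matrix.det_mul, h0, zero_mul, Matrix.det_one] at h2
    exact zero_ne_one h2
  obtain ⟨b, hb⟩ : ∃ b : Fin r → Fin n, ∀ j, b j = B.orderEmbOfFin hcard j := ⟨_, fun _ => rfl⟩
  have hbinj : Function.Injective b := by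
    intro x y hxy
    rw [hb, hb] at hxy
    exact (B.orderEmbOfFin hcard).injective hxy
  have hbim : Finset.univ.image b = B := by
    have : b = B.orderEmbOfFin hcard := funext hb
    rw [this]
    exact Finset.image_orderEmbOfFin_univ B hcard
  have hBim : B.image σ = Finset.univ.image (σ ∘ b) := by
    rw [← Finset.image_image, hbim]
  have hd1 : dt D.al (B.image σ) ≠ 0 := by
    rw [hBim, dt_image D.al (σ ∘ b) (σ.injective.comp hbinj)]
    have hd2 : |Matrix.det (Matrix.of (fun j => D.al (b j)))| ≠ 0 := by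
      rw [← dt_image D.al b hbinj, hbim]
      exact hd
    have hmat : Matrix.of (fun j => D.al ((σ ∘ b) j)) =
        Matrix.of (fun j => D.al (b j)) * (D.M g).transpose := by
      ext i j
      rw [Matrix.of_apply, Function.comp_apply, ← hσ, Matrix.mul_apply]
      simp only [Matrix.mulVec, dotProduct, Matrix.of_apply, Matrix.transpose_apply]
      exact Finset.sum_congr rfl (fun k _ => mul_comm _ _)
    rw [hmat, Matrix.det_mul, Matrix.det_transpose, abs_mul]
    exact mul_ne_zero hd2 (abs_ne_zero.mpr hMdet)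
  refine ⟨B.image σ, fun i => c (σ.symm i), hd1, ?_, ?_⟩
  · intro i hi
    obtain ⟨j, hj, rfl⟩ := Finset.mem_image.mp hi
    rw [← hσ, D.pair]
    simp only [Equiv.symm_apply_apply]
    exact hB j hj
  · rw [Finset.sum_image (fun x _ y _ hxy => σ.injective hxy)]
    have h3 : (D.M g).mulVec (∑ i ∈ B, c i • D.al i) = D.xi := by
      rw [hsum, D.xi_fix]
    rw [← h3, Matrix.mulVec_sum]
    refine Finset.sum_congr rfl (fun i _ => ?_)
    simp only [Equiv.symm_apply_apply]
    rw [Matrix.mulVec_smul, hσ]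

/-- on integral points nothing lies strictly between `0` and `1` -/
theorem not_between {a m : Vec r} (ha : IsInt a) (hm : IsInt m) :
    a ⬝ᵥ m ≤ 0 ∨ 1 ≤ a ⬝ᵥ m := nb ha hm

end Datum

end LibHK51
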